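import Pool.Agent.Lib.MP_b2e238_gt.U.Defs

/-! Plane algebra for the Beltrami coefficient. -/

open scoped ContDiff Topology
open Set Metric

noncomputable section

namespace Pool.Agent.Lib.MP_b2e238_gt

theorem ubel_app (L : ℂ →L[ℝ] ℂ) (z : ℂ) : L z = z.re * L 1 + z.im * L .I := by
  have e : z = z.re • (1 : ℂ) + z.im • Complex.I := by
    simp
  conv_lhs => rw [e]
  rw [map_add, map_smul, map_smul, Complex.real_smul, Complex.real_smul]

theorem ubel_sq (p : ℂ × ℂ) : ‖p.1 - .I * p.2‖ ^ 2 - ‖p.1 + .I * p.2‖ ^ 2 =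
    4 * (starRingEnd ℂ p.1 * p.2).im := by
  rw [Complex.sq_norm, Complex.sq_norm, Complex.normSq_apply, Complex.normSq_apply]
  simp
  ring

theorem ubel_ne {p : ℂ × ℂ} (d : (starRingEnd ℂ p.1 * p.2).im ≠ 0) :
    ‖p.1 + .I * p.2‖ ≠ ‖p.1 - .I * p.2‖ := by
  intro h
  have := ubel_sq p
  rw [h, sub_self] at this
  exact d (by linarith)

theorem ubel_lt {p : ℂ × ℂ} (d : (starRingEnd ℂ p.1 * p.2).im ≠ 0)
    (h : ¬‖p.1 + .I * p.2‖ < ‖p.1 - .I * p.2‖) : ‖p.1 - .I * p.2‖ < ‖p.1 + .I * p.2‖ :=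
  lt_of_le_of_ne (not_lt.1 h) (ubel_ne d).symm

theorem bel_det {L : ℂ →L[ℝ] ℂ} (i : Function.Injective L) :
    (starRingEnd ℂ (L 1) * L .I).im ≠ 0 := by
  intro h
  have h1 : L 1 ≠ 0 := fun e => one_ne_zero (i (e.trans (map_zero L).symm))
  have hn : Complex.normSq (L 1) ≠ 0 := fun e => h1 (Complex.normSq_eq_zero.1 e)
  have e : L ⟨-(starRingEnd ℂ (L 1) * L .I).re, Complex.normSq (L 1)⟩ = 0 := by
    rw [ubel_app]
    simp only [Complex.mul_im, Complex.conj_re, Complex.conj_im] at h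
    apply Complex.ext
    · simp [Complex.normSq_apply]
      linear_combination (-(L 1).im) * h
    · simp [Complex.normSq_apply]
      linear_combination ((L 1).re) * h
  have := congrArg Complex.im (i (e.trans (map_zero L).symm))
  exact hn (by simpa using this)

theorem bel_lt {p : ℂ × ℂ} (d : (starRingEnd ℂ p.1 * p.2).im ≠ 0) : ‖bel p‖ < 1 := by
  unfold bel
  split_ifs with h
  · rw [norm_neg, norm_div]
    exact (div_lt_one ((norm_nonneg _).trans_lt h)).2 h
  · have h' := ubel_lt d h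
    rw [norm_neg, Complex.norm_conj, norm_div]
    exact (div_lt_one ((norm_nonneg _).trans_lt h')).2 h'

theorem bel_smooth {p : ℂ × ℂ} (d : (starRingEnd ℂ p.1 * p.2).im ≠ 0) : ContDiffAt ℝ ∞ bel p := by
  have ca : ContDiff ℝ ∞ fun q : ℂ × ℂ => q.1 - .I * q.2 := by fun_prop
  have cb : ContDiff ℝ ∞ fun q : ℂ × ℂ => q.1 + .I * q.2 := by fun_prop
  by_cases h : ‖p.1 + .I * p.2‖ < ‖p.1 - .I * p.2‖
  · have h0 : p.1 - .I * p.2 ≠ 0 := norm_pos_iff.1 ((norm_nonneg _).trans_lt h)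
    have ev : ∀ᶠ q in 𝓝 p, ‖q.1 + .I * q.2‖ < ‖q.1 - .I * q.2‖ :=
      (cb.continuous.norm.continuousAt).eventually_lt (ca.continuous.norm.continuousAt) h
    have c : ContDiffAt ℝ ∞ (fun q : ℂ × ℂ => -((q.1 + .I * q.2) / (q.1 - .I * q.2))) p := by
      simp only [div_eq_mul_inv]
      exact (cb.contDiffAt.mul (ca.contDiffAt.inv h0)).neg
    exact c.congr_of_eventuallyEq (ev.mono fun q hq => by unfold bel; rw [if_pos hq])
  · have h' := ubel_lt d h
    have h0 : p.1 + .I * p.2 ≠ 0 := norm_pos_iff.1 ((norm_nonneg _).trans_lt h')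
    have ev : ∀ᶠ q in 𝓝 p, ‖q.1 - .I * q.2‖ < ‖q.1 + .I * q.2‖ :=
      (ca.continuous.norm.continuousAt).eventually_lt (cb.continuous.norm.continuousAt) h'
    have c : ContDiffAt ℝ ∞ (fun q : ℂ × ℂ => (q.1 - .I * q.2) / (q.1 + .I * q.2)) p := by
      simp only [div_eq_mul_inv]
      exact ca.contDiffAt.mul (cb.contDiffAt.inv h0)
    have c' : ContDiffAt ℝ ∞ (fun q : ℂ × ℂ =>
        -(Complex.conjCLE ((q.1 - .I * q.2) / (q.1 + .I * q.2)))) p :=
      (Complex.conjCLE.contDiff.contDiffAt.comp p c).neg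
    exact c'.congr_of_eventuallyEq (ev.mono fun q hq => by
      unfold bel; rw [if_neg (not_lt.2 hq.le)]; rfl)

theorem ubel_ab (L : ℂ →L[ℝ] ℂ) (z : ℂ) :
    2 * L z = (L 1 - .I * L .I) * z + (L 1 + .I * L .I) * starRingEnd ℂ z := by
  rw [ubel_app L z]
  apply Complex.ext <;> simp <;> ring

theorem bel_conf {L M : ℂ →L[ℝ] ℂ} (i : Function.Injective L)
    (e : ∀ z, M z = z + bel (L 1, L .I) * starRingEnd ℂ z) : Cn2 (L ∘L M) := by
  have d : (starRingEnd ℂ (L 1, L .I).1 * (L 1, L .I).2).im ≠ 0 := bel_det i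
  have k : ∀ z, 2 * L (M z) = ((L 1 - .I * L .I) + (L 1 + .I * L .I) *
      starRingEnd ℂ (bel (L 1, L .I))) * z +
      ((L 1 - .I * L .I) * bel (L 1, L .I) + (L 1 + .I * L .I)) * starRingEnd ℂ z := fun z => by
    rw [ubel_ab, e, map_add, map_mul, Complex.conj_conj]; ring
  have k1 := k 1
  have k2 := k .I
  rw [map_one (starRingEnd ℂ)] at k1
  rw [Complex.conj_I] at k2
  by_cases h : ‖(L 1, L .I).1 + .I * (L 1, L .I).2‖ < ‖(L 1, L .I).1 - .I * (L 1, L .I).2‖
  · have h0 : L 1 - .I * L .I ≠ 0 := norm_pos_iff.1 ((norm_nonneg _).trans_lt h)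
    have z : (L 1 - .I * L .I) * bel (L 1, L .I) + (L 1 + .I * L .I) = 0 := by
      unfold bel; rw [if_pos h]; field_simp; ring
    rw [z] at k1 k2
    left
    change L (M .I) = .I * L (M 1)
    linear_combination (k2 - Complex.I * k1) / 2
  · have h' := ubel_lt d h
    have h0 : L 1 + .I * L .I ≠ 0 := norm_pos_iff.1 ((norm_nonneg _).trans_lt h')
    have z : (L 1 - .I * L .I) + (L 1 + .I * L .I) * starRingEnd ℂ (bel (L 1, L .I)) = 0 := by
      unfold bel; rw [if_neg h, map_neg, Complex.conj_conj]; field_simp; ring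
    rw [z] at k1 k2
    right
    change L (M .I) = -(.I * L (M 1))
    linear_combination (k2 + Complex.I * k1) / 2

theorem bel_zero {L : ℂ →L[ℝ] ℂ} (i : Function.Injective L) (c : Cn2 L) : bel (L 1, L .I) = 0 := by
  have d : (starRingEnd ℂ (L 1, L .I).1 * (L 1, L .I).2).im ≠ 0 := bel_det i
  unfold bel
  rcases c with c | c
  · have z : (L 1, L .I).1 + .I * (L 1, L .I).2 = 0 := by
      change L 1 + .I * L .I = 0
      rw [c]; linear_combination (L 1) * Complex.I_mul_I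
    have h : ‖(L 1, L .I).1 + .I * (L 1, L .I).2‖ < ‖(L 1, L .I).1 - .I * (L 1, L .I).2‖ := by
      refine lt_of_le_of_ne ?_ (ubel_ne d)
      rw [z, norm_zero]; exact norm_nonneg _
    rw [if_pos h, z]; simp
  · have z : (L 1, L .I).1 - .I * (L 1, L .I).2 = 0 := by
      change L 1 - .I * L .I = 0
      rw [c]; linear_combination (L 1) * Complex.I_mul_I
    have h : ¬‖(L 1, L .I).1 + .I * (L 1, L .I).2‖ < ‖(L 1, L .I).1 - .I * (L 1, L .I).2‖ := by
      rw [z, norm_zero]; exact not_lt.2 (norm_nonneg _)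
    rw [if_neg h, z]; simp

end Pool.Agent.Lib.MP_b2e238_gt
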