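import Pool.Agent.Lib.MP_b2e238_gt.U.Defs
import Pool.Agent.Lib.MP_b2e238_gt.K.Inv

/-! A slow cut-off and the twist of the normal planes. -/

open scoped ContDiff Topology
open Set Metric

noncomputable section

namespace Pool.Agent.Lib.MP_b2e238_gt

variable {P : Type} [NormedAddCommGroup P] [NormedSpace ℝ P] [FiniteDimensional ℝ P]

theorem ucut_bd : ∃ C > 0, ∀ t, |deriv Real.smoothTransition t| ≤ C := by
  have c : Continuous (deriv Real.smoothTransition) :=
    (Real.smoothTransition.contDiff (n := 1)).continuous_deriv le_rfl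
  obtain ⟨C, hC⟩ := (isCompact_Icc (a := (0 : ℝ)) (b := 1)).exists_bound_of_continuousOn
    c.continuousOn
  refine ⟨|C| + 1, by positivity, fun t => ?_⟩
  by_cases h : t ∈ Icc (0 : ℝ) 1
  · exact (hC t h).trans (by linarith [le_abs_self C])
  · have : deriv Real.smoothTransition t = 0 := by
      rcases not_and_or.1 h with h | h
      · have e : Real.smoothTransition =ᶠ[𝓝 t] fun _ => 0 := by
          filter_upwards [Iio_mem_nhds (not_le.1 h)] with y hy using
            Real.smoothTransition.zero_of_nonpos hy.le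
        rw [e.deriv_eq, deriv_const]
      · have e : Real.smoothTransition =ᶠ[𝓝 t] fun _ => 1 := by
          filter_upwards [Ioi_mem_nhds (not_le.1 h)] with y hy using
            Real.smoothTransition.one_of_one_le hy.le
        rw [e.deriv_eq, deriv_const]
    rw [this, abs_zero]
    positivity

theorem exists_slow {δ ε : ℝ} (hδ : 0 < δ) (hε : 0 < ε) : ∃ η : ℂ → ℝ, ContDiff ℝ ∞ η ∧
    (∀ᶠ z in 𝓝 0, η z = 1) ∧ (∀ z, δ ≤ ‖z‖ → η z = 0) ∧
    ∀ z, |η z| ≤ 1 ∧ ‖z‖ * ‖fderiv ℝ η z‖ ≤ ε := by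
  classical
  obtain ⟨C, C0, hC⟩ := ucut_bd
  obtain ⟨a, a0, ha⟩ : ∃ a > 0, C * a = ε := ⟨ε / C, by positivity, mul_div_cancel₀ _ C0.ne'⟩
  let φ : ℝ → ℝ := fun t => Real.smoothTransition (a * (Real.log δ - Real.log t))
  let η : ℂ → ℝ := fun z => if z = 0 then 1 else φ ‖z‖
  have e1 : ∀ᶠ z in 𝓝 (0 : ℂ), η z = 1 := by
    filter_upwards [ball_mem_nhds 0 (Real.exp_pos (Real.log δ - a⁻¹))] with z hz
    by_cases h : z = 0
    · exact if_pos h
    · refine (if_neg h).trans (Real.smoothTransition.one_of_one_le ?_)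
      have := (Real.log_lt_iff_lt_exp (norm_pos_iff.2 h)).2 (mem_ball_zero_iff.1 hz)
      rw [← mul_inv_cancel₀ a0.ne']
      exact mul_le_mul_of_nonneg_left (by linarith) a0.le
  have e2 (z : ℂ) (h : z ≠ 0) : η =ᶠ[𝓝 z] φ ∘ norm := by
    filter_upwards [isOpen_ne.mem_nhds h] with y hy using if_neg hy
  refine ⟨η, contDiff_iff_contDiffAt.2 fun z => ?_, e1, fun z hz => ?_, fun z => ⟨?_, ?_⟩⟩
  · by_cases h : z = 0
    · exact h ▸ contDiffAt_const.congr_of_eventuallyEq e1
    · exact (Real.smoothTransition.contDiffAt.comp z (contDiffAt_const.mul (contDiffAt_const.sub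
        ((contDiffAt_norm ℝ h).log (norm_ne_zero_iff.2 h))))).congr_of_eventuallyEq (e2 z h)
  · refine (if_neg (norm_pos_iff.1 (hδ.trans_le hz))).trans
      (Real.smoothTransition.zero_of_nonpos ?_)
    exact mul_nonpos_of_nonneg_of_nonpos a0.le (sub_nonpos.2 (Real.log_le_log hδ hz))
  · by_cases h : z = 0
    · exact (congrArg abs (if_pos h)).trans_le abs_one.le
    · exact (congrArg abs (if_neg h)).trans_le ((abs_of_nonneg
        (Real.smoothTransition.nonneg _)).trans_le (Real.smoothTransition.le_one _))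
  · by_cases h : z = 0
    · rw [h, norm_zero, zero_mul]
      exact hε.le
    · have n0 := norm_pos_iff.2 h
      have d1 : HasDerivAt φ (deriv Real.smoothTransition (a * (Real.log δ - Real.log ‖z‖)) *
          (a * -‖z‖⁻¹)) ‖z‖ :=
        (((Real.smoothTransition.contDiff (n := 1)).differentiable one_ne_zero) _).hasDerivAt.comp
          ‖z‖ (((Real.hasDerivAt_log n0.ne').const_sub _).const_mul a)
      have d2 := ((contDiffAt_norm (n := 1) ℝ h).differentiableAt one_ne_zero).hasFDerivAt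
      have d3 : ‖fderiv ℝ (norm : ℂ → ℝ) z‖ ≤ 1 :=
        by simpa using norm_fderiv_le_of_lipschitz ℝ (x₀ := z) lipschitzWith_one_norm
      rw [(e2 z h).fderiv_eq, (d1.comp_hasFDerivAt z d2).fderiv, norm_smul, Real.norm_eq_abs,
        abs_mul, abs_mul, abs_neg, abs_of_pos a0, abs_of_pos (inv_pos.2 n0), ← ha]
      calc _ ≤ ‖z‖ * (C * (a * ‖z‖⁻¹) * 1) := by gcongr; exact hC _
        _ = _ := by field_simp

theorem exists_twist {μ : P → ℂ} (hμ : ContDiff ℝ ∞ μ) {m δ : ℝ} (hm : m < 1)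
    (k : ∀ x, ‖μ x‖ ≤ m) (hδ : 0 < δ) : ∃ E E' : P × ℂ → P × ℂ, Dif univ univ E E' ∧
      (∀ u, μ u.1 = 0 ∨ δ ≤ ‖u.2‖ ∨ u.2 = 0 → E u = u) ∧
      ∀ x z, fderiv ℝ E (x, 0) (0, z) = (0, z + μ x * starRingEnd ℂ z) := by
  obtain ⟨η, s, e1, e0, b⟩ := exists_slow hδ (ε := (1 - m) / 2) (by linarith)
  let N : ℂ → ℂ := fun z => η z • Complex.conjCLE z
  have sN : ContDiff ℝ ∞ N := s.smul Complex.conjCLE.contDiff
  have dN (z : ℂ) : HasFDerivAt N (η z • (Complex.conjCLE : ℂ →L[ℝ] ℂ) +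
      (fderiv ℝ η z).smulRight (Complex.conjCLE z)) z :=
    (s.differentiable (by simp) z).hasFDerivAt.smul Complex.conjCLE.hasFDerivAt
  let F : P × ℂ → ℂ := fun u => u.2 + μ u.1 * N u.2
  have sF : ContDiff ℝ ∞ F := contDiff_snd.add ((hμ.comp contDiff_fst).mul (sN.comp contDiff_snd))
  obtain ⟨G, sG, hG⟩ := near_id_par (F := F) isOpen_univ sF.contDiffOn fun l _ =>
    ⟨(1 + m) / 2, by linarith, fun z => by
      have m0 := (norm_nonneg _).trans (k l)
      have d : HasFDerivAt (fun z => F (l, z)) _ z :=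
        (hasFDerivAt_id z).add ((dN z).const_mul (μ l))
      rw [d.fderiv, ContinuousLinearMap.one_def, add_sub_cancel_left, norm_smul]
      have a1 : ‖η z • (Complex.conjCLE : ℂ →L[ℝ] ℂ)‖ ≤ 1 := by
        rw [norm_smul, Complex.conjCLE_norm, mul_one]
        exact (b z).1
      have a2 : ‖(fderiv ℝ η z).smulRight (Complex.conjCLE z)‖ ≤ (1 - m) / 2 := by
        rw [ContinuousLinearMap.norm_smulRight_apply, Complex.conjCLE_apply, Complex.norm_conj,
          mul_comm]
        exact (b z).2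
      have a3 := mul_le_mul (k l) ((norm_add_le _ _).trans (add_le_add a1 a2)) (norm_nonneg _) m0
      nlinarith⟩
  rw [univ_prod_univ] at sG
  refine ⟨fun u => (u.1, F u), fun u => (u.1, G u), ⟨(contDiff_fst.prodMk sF).contDiffOn,
    contDiffOn_fst.prodMk sG, mapsTo_univ _ _, mapsTo_univ _ _,
    fun u _ => Prod.ext rfl (hG u.1 trivial u.2).1, fun u _ => Prod.ext rfl (hG u.1 trivial u.2).2⟩,
    fun u h => Prod.ext rfl ?_, fun x z => ?_⟩
  · rcases h with h | h | h
    · simp [F, h]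
    · simp [F, N, e0 _ h]
    · simp [F, N, h]
  · have d1 : HasFDerivAt (fun u : P × ℂ => μ u.1) _ (x, 0) :=
      (hμ.differentiable (by simp) x).hasFDerivAt.comp (x, (0 : ℂ)) hasFDerivAt_fst
    have d2 : HasFDerivAt (fun u : P × ℂ => N u.2) _ (x, 0) :=
      HasFDerivAt.comp (g := N) (f := Prod.snd) (x, (0 : ℂ)) (dN 0) hasFDerivAt_snd
    have d : HasFDerivAt (fun u : P × ℂ => (u.1, F u)) _ (x, 0) :=
      hasFDerivAt_fst.prodMk (hasFDerivAt_snd.add (d1.mul d2))
    rw [d.fderiv]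
    simp [e1.self_of_nhds]

end Pool.Agent.Lib.MP_b2e238_gt
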