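import Pool.Agent.Lib.MP_b2e238_gt.U.Defs

/-! Diffeomorphisms with compact support in a chart. -/

open scoped ContDiff Topology
open Set Metric

noncomputable section

namespace Pool.Agent.Lib.MP_b2e238_gt

variable {P V W V' : Type} [NormedAddCommGroup P] [NormedSpace ℝ P] [NormedAddCommGroup V]
  [NormedSpace ℝ V] [NormedAddCommGroup W] [NormedSpace ℝ W] [NormedAddCommGroup V']
  [NormedSpace ℝ V'] [FiniteDimensional ℝ P] [FiniteDimensional ℝ V] [FiniteDimensional ℝ W]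
  [FiniteDimensional ℝ V']
  {A : Set V} {A' : Set V'} {B F N N' : Set W} {π : V → W} {π' : V' → W} {φ : P × ℂ → V}
  {φ' : P × ℂ → V'} {ψ ψ' : P × ℂ → W} {w w' : P} {r r' : ℝ} {θ : P × ℂ → P × ℂ} {b : W}
  {H : W → W} {τ : V → V} {τ' : V' → V'} {h h' : V → V'}

variable {n : ℕ∞} {Q : Type} [NormedAddCommGroup Q] [NormedSpace ℝ Q] [FiniteDimensional ℝ Q]

theorem uPush_le (n : ℕ∞) : ((n : ℕ∞) : WithTop ℕ∞) ≤ ∞ := WithTop.coe_le_coe.2 le_top

theorem Dif.dn {f : V → W} {g : W → V} (d : Dif A B f g) (n : ℕ∞) : Dn n A B f g :=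
  ⟨d.cF.of_le (uPush_le n), d.cG.of_le (uPush_le n), d.mF, d.mG, d.gf, d.fg⟩

theorem Dn.dif {f : V → W} {g : W → V} (d : Dn ⊤ A B f g) : Dif A B f g :=
  ⟨d.cF, d.cG, d.mF, d.mG, d.gf, d.fg⟩

theorem Dn.trans {f : V → V'} {g : V' → V} {f' : V' → W} {g' : W → V'} (d : Dn n A A' f g)
    (d' : Dn n A' B f' g') : Dn n A B (f' ∘ f) (g ∘ g') :=
  ⟨d'.cF.comp d.cF d.mF, d.cG.comp d'.cG d'.mG, d'.mF.comp d.mF, d.mG.comp d'.mG,
    fun a ha => (congrArg g (d'.gf _ (d.mF ha))).trans (d.gf a ha),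
    fun a ha => (congrArg f' (d.fg _ (d'.mG ha))).trans (d'.fg a ha)⟩

open Classical in
/-- One half of `Par.push`. -/
theorem uPush_half {χ : Q → W} {χ' : W → Q} {U K : Set Q} (p : Par B χ U) (k : IsCompact K)
    (s : K ⊆ U) (i : Dif U (χ '' U) χ χ') {E : Q → Q} (c : ContDiffOn ℝ n E univ)
    (j : Function.Injective E) (e : ∀ u ∉ K, E u = u) :
    ContDiffOn ℝ n ((χ '' U).piecewise (χ ∘ E ∘ χ') id) B ∧
      MapsTo ((χ '' U).piecewise (χ ∘ E ∘ χ') id) B B ∧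
      (∀ u ∈ U, E u ∈ U ∧ (χ '' U).piecewise (χ ∘ E ∘ χ') id (χ u) = χ (E u)) ∧
      (∀ u ∈ K, E u ∈ K) ∧ ∀ y ∉ χ '' K, (χ '' U).piecewise (χ ∘ E ∘ χ') id y = y := by
  have mK : ∀ u ∈ K, E u ∈ K := fun u hu => by
    by_contra x
    exact x ((j (e _ x)).symm ▸ hu)
  have mU : ∀ u ∈ U, E u ∈ U := fun u hu => by
    by_cases x : u ∈ K
    · exact s (mK u x)
    · rwa [e u x]
  have v : ∀ u ∈ U, (χ '' U).piecewise (χ ∘ E ∘ χ') id (χ u) = χ (E u) := fun u hu => by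
    rw [piecewise_eq_of_mem _ _ _ (mem_image_of_mem χ hu)]
    simp only [Function.comp_apply, i.gf u hu]
  have o : ∀ y ∉ χ '' K, (χ '' U).piecewise (χ ∘ E ∘ χ') id y = y := fun y hy => by
    by_cases x : y ∈ χ '' U
    · obtain ⟨u, hu, rfl⟩ := x
      rw [v u hu, e u fun z => hy (mem_image_of_mem χ z)]
    · exact piecewise_eq_of_notMem _ _ _ x
  refine ⟨fun y hy => ?_, fun y hy => ?_, fun u hu => ⟨mU u hu, v u hu⟩, mK, o⟩
  · by_cases x : y ∈ χ '' K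
    · have a : ContDiffOn ℝ n (χ ∘ E ∘ χ') (χ '' U) :=
        (i.cF.of_le (uPush_le n)).comp (c.comp (i.cG.of_le (uPush_le n)) (mapsTo_univ _ _))
          fun z hz => mU _ (i.mG hz)
      exact ((a.congr (piecewise_eqOn _ _ _)) y (image_mono s x)).mono_of_mem_nhdsWithin
        (p.opn.2 y (image_mono s x))
    · have a : IsClosed (χ '' K) := (k.image_of_continuousOn (p.2.1.continuousOn.mono s)).isClosed
      exact (contDiffAt_id.congr_of_eventuallyEq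
        (Filter.mem_of_superset (a.isOpen_compl.mem_nhds x) o)).contDiffWithinAt
  · by_cases x : y ∈ χ '' U
    · obtain ⟨u, hu, rfl⟩ := x
      rw [v u hu]
      exact p.2.2.2.1 (mU u hu)
    · rwa [piecewise_eq_of_notMem _ _ _ x]

theorem Par.push {χ : Q → W} {U K : Set Q} (p : Par B χ U) (k : IsCompact K) (s : K ⊆ U)
    {E E' : Q → Q} (d : Dn n univ univ E E') (e : ∀ u ∉ K, E u = u) :
    ∃ H H', Dn n B B H H' ∧ (∀ u ∈ U, E u ∈ U ∧ H (χ u) = χ (E u)) ∧ (∀ u ∈ K, E u ∈ K) ∧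
      ∀ y ∉ χ '' K, H y = y := by
  obtain ⟨χ', i⟩ := p.dif
  obtain ⟨a₁, a₂, a₃, a₄, a₅⟩ := uPush_half p k s i d.cF
    (Function.LeftInverse.injective (g := E') fun u => d.gf u trivial) e
  obtain ⟨b₁, b₂, b₃, -, b₅⟩ := uPush_half p k s i d.cG
    (Function.LeftInverse.injective (g := E) fun u => d.fg u trivial)
    fun u hu => (congrArg E' (e u hu).symm).trans (d.gf u trivial)
  refine ⟨_, _, ⟨a₁, b₁, a₂, b₂, fun y _ => ?_, fun y _ => ?_⟩, a₃, a₄, a₅⟩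
  · by_cases x : y ∈ χ '' U
    · obtain ⟨u, hu, rfl⟩ := x
      rw [(a₃ u hu).2, (b₃ _ (a₃ u hu).1).2, d.gf u trivial]
    · have z : y ∉ χ '' K := fun z => x (image_mono s z)
      rw [a₅ y z, b₅ y z]
  · by_cases x : y ∈ χ '' U
    · obtain ⟨u, hu, rfl⟩ := x
      rw [(b₃ u hu).2, (a₃ _ (b₃ u hu).1).2, d.fg u trivial]
    · have z : y ∉ χ '' K := fun z => x (image_mono s z)
      rw [b₅ y z, a₅ y z]

/-- A smooth `C ^ 1` diffeomorphism has a smooth inverse. -/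
theorem Dn.smooth {f : V → V'} {g : V' → V} (d : Dn 1 A A' f g) (m : Mf Q A) (m' : Mf Q A')
    (c : ContDiffOn ℝ ∞ f A) : Dif A A' f g := by
  have im : f '' A = A' := d.mF.image_subset.antisymm fun y hy => ⟨g y, d.mG hy, d.fg y hy⟩
  obtain ⟨-, g', e⟩ := emb_of_chart m m' c d.mF
    (fun x a y b e => by rw [← d.gf x a, e, d.gf y b]) fun χ N p u hu => by
      have n := p.1.mem_nhds hu
      have d₁ : HasFDerivAt (f ∘ χ) (fderiv ℝ (f ∘ χ) u) u :=
        (((c.comp p.2.1 p.2.2.2.1).contDiffAt n).differentiableAt (by simp)).hasFDerivAt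
      have d₂ := ((d.cG _ (d.mF (p.2.2.2.1 hu))).differentiableWithinAt
        (by simp)).hasFDerivWithinAt
      have d₃ := (d₂.comp u (d₁.hasFDerivWithinAt (s := N))
        fun y hy => d.mF (p.2.2.2.1 hy)).hasFDerivAt n
      have d₄ := (d₃.congr_of_eventuallyEq (f₁ := χ)
        (Filter.mem_of_superset n fun y hy => (d.gf _ (p.2.2.2.1 hy)).symm)).fderiv
      have := (p.2.2.2.2 u hu).1
      rw [d₄] at this
      exact Function.Injective.of_comp this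
  rw [im] at e
  exact e.congr (fun _ _ => rfl) fun y hy => by
    rw [← e.gf _ (d.mG hy), d.fg y hy]

end Pool.Agent.Lib.MP_b2e238_gt
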