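import Pool.Agent.Lib.MP_b2e238_gt.U.Sq

/-! Local sections off the branch set and the deck transformation. -/

open scoped ContDiff Topology
open Set Metric

noncomputable section

namespace Pool.Agent.Lib.MP_b2e238_gt

variable {P V W V' : Type} [NormedAddCommGroup P] [NormedSpace ℝ P] [NormedAddCommGroup V]
  [NormedSpace ℝ V] [NormedAddCommGroup W] [NormedSpace ℝ W] [NormedAddCommGroup V']
  [NormedSpace ℝ V'] [FiniteDimensional ℝ P] [FiniteDimensional ℝ V] [FiniteDimensional ℝ W]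
  [FiniteDimensional ℝ V']
  {A : Set V} {A' : Set V'} {B F N N' : Set W} {π : V → W} {π' : V' → W} {φ : P × ℂ → V}
  {φ' : P × ℂ → V'} {ψ ψ' : P × ℂ → W} {w w' : P} {r r' : ℝ} {θ : P × ℂ → P × ℂ} {b : W}
  {H : W → W} {τ : V → V} {τ' : V' → V'} {h h' : V → V'}

omit [FiniteDimensional ℝ P] in
theorem usec_root {k : ℕ} (hk : k = 1 ∨ k = 2) {u : P × ℂ} (n : ¬(k = 2 ∧ u.2 = 0)) :
    ∃ (O : Set (P × ℂ)) (s : P × ℂ → P × ℂ), IsOpen O ∧ ContDiffOn ℝ ∞ s O ∧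
      (u.1, u.2 ^ k) ∈ O ∧ s (u.1, u.2 ^ k) = u ∧
      ∀ v ∈ O, ((s v).1, (s v).2 ^ k) = v ∧ ¬(k = 2 ∧ (s v).2 = 0) := by
  rcases hk with rfl | rfl
  · exact ⟨univ, id, isOpen_univ, contDiffOn_id, trivial, by simp, fun v _ => by simp⟩
  · have z : u.2 ≠ 0 := fun e => n ⟨rfl, e⟩
    have z2 : u.2 ^ 2 ≠ 0 := pow_ne_zero 2 z
    have d : ContDiff ℝ ∞ fun v : P × ℂ => v.2 / u.2 ^ 2 := contDiff_snd.div_const _
    refine ⟨(fun v => v.2 / u.2 ^ 2) ⁻¹' Complex.slitPlane,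
      fun v => (v.1, u.2 * Complex.exp (Complex.log (v.2 / u.2 ^ 2) / 2)),
      Complex.isOpen_slitPlane.preimage d.continuous, fun v hv => ?_, ?_, ?_, fun v hv => ⟨?_, ?_⟩⟩
    · have l : ContDiffAt ℝ ∞ (fun v : P × ℂ => Complex.log (v.2 / u.2 ^ 2)) v :=
        ContDiffAt.comp (g := Complex.log) v ((Complex.contDiffAt_log hv).restrict_scalars ℝ)
          d.contDiffAt
      exact (contDiffAt_fst.prodMk (contDiffAt_const.mul (l.div_const 2).cexp)).contDiffWithinAt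
    · simp [div_self z2]
    · simp [div_self z2]
    · refine Prod.ext rfl ?_
      show (u.2 * Complex.exp (Complex.log (v.2 / u.2 ^ 2) / 2)) ^ 2 = v.2
      rw [mul_pow, ← Complex.exp_nat_mul, Nat.cast_ofNat, mul_div_cancel₀ _ two_ne_zero,
        Complex.exp_log (Complex.slitPlane_ne_zero hv), mul_div_cancel₀ _ z2]
    · exact fun e => mul_ne_zero z (Complex.exp_ne_zero _) e.2

theorem Br.sec (c : Br P A B F π) {a : V} (ha : a ∈ A) (k : π a ∉ F) :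
    ∃ (N : Set W) (σ : W → V), Opn N B ∧ π a ∈ N ∧ Disjoint N F ∧ ContDiffOn ℝ ∞ σ N ∧
      σ (π a) = a ∧ ∀ b ∈ N, σ b ∈ A ∧ π (σ b) = b := by
  obtain ⟨j, φ, ψ, U, U', hj, p, q, ⟨u, hu, rfl⟩, e⟩ := c.2.2 a ha
  obtain ⟨O, s, o, d, m, s0, hs⟩ := usec_root hj (u := u) fun h => k ((e u hu).2.2.2 h)
  have q' := q.mono ((d.continuousOn.isOpen_inter_preimage o p.1).inter q.1) inter_subset_right
  obtain ⟨χ, D⟩ := q'.dif
  have m' : (u.1, u.2 ^ j) ∈ O ∩ s ⁻¹' U ∩ U' := ⟨⟨m, by rwa [mem_preimage, s0]⟩, (e u hu).1⟩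
  have t : ∀ v ∈ O ∩ s ⁻¹' U ∩ U', π (φ (s v)) = ψ v := fun v hv => by
    rw [(e _ hv.1.2).2.1, (hs v hv.1.1).1]
  refine ⟨_, φ ∘ s ∘ χ, q'.opn, ⟨_, m', (e u hu).2.1.symm⟩, disjoint_left.2 ?_,
    p.2.1.comp (d.comp D.cG fun b hb => (D.mG hb).1.1) fun b hb => (D.mG hb).1.2, ?_, ?_⟩
  · rintro _ ⟨v, hv, rfl⟩ f
    exact (hs v hv.1.1).2 ((e _ hv.1.2).2.2.1 (t v hv ▸ f))
  · rw [(e u hu).2.1, Function.comp_apply, Function.comp_apply, D.gf _ m', s0]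
  · rintro _ ⟨v, hv, rfl⟩
    rw [Function.comp_apply, Function.comp_apply, D.gf v hv]
    exact ⟨p.2.2.2.1 hv.1.2, t v hv⟩

omit [FiniteDimensional ℝ P] [FiniteDimensional ℝ V] [FiniteDimensional ℝ W] in
theorem Br.surj (c : Br P A B F π) (hb : b ∈ B) : ∃ a ∈ A, π a = b := by
  refine nonempty_of_ncard_ne_zero (s := A ∩ π ⁻¹' {b}) ?_
  by_cases k : b ∈ F
  · rw [c.2.1 b k]
    exact one_ne_zero
  · rw [c.1 b ⟨hb, k⟩]
    exact two_ne_zero

theorem Br.opn_compl (c : Br P A B F π) : Opn (B \ F) B := by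
  refine ⟨sdiff_subset, fun b hb => ?_⟩
  obtain ⟨a, ha, rfl⟩ := c.surj hb.1
  obtain ⟨N, σ, o, m, d, -⟩ := c.sec ha hb.2
  exact Filter.mem_of_superset (o.2 _ m) fun y hy => ⟨o.1 hy, disjoint_left.1 d hy⟩

theorem Br.compact (c : Br P A B F π) (k : IsCompact B) : IsCompact F := by
  obtain ⟨O, o, e⟩ := opn_iff.1 c.opn_compl
  have : F = B \ O := by
    ext b
    have h := Set.ext_iff.1 e b
    have : b ∈ F → b ∈ B := fun f => c.sub f
    simp only [mem_sdiff, mem_inter_iff] at h ⊢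
    tauto
  exact this ▸ k.diff o

theorem usec_other (c : Br P A B F π) : ∃ τ : V → V, ∀ a ∈ A, τ a ∈ A ∧ π (τ a) = π a ∧
    (τ a = a ↔ π a ∈ F) ∧ ∀ a' ∈ A, π a' = π a → a' = a ∨ a' = τ a := by
  have : ∀ a, ∃ t, a ∈ A → t ∈ A ∧ π t = π a ∧ (t = a ↔ π a ∈ F) ∧
      ∀ a' ∈ A, π a' = π a → a' = a ∨ a' = t := fun a => by
    by_cases ha : a ∈ A
    swap
    · exact ⟨a, fun h => absurd h ha⟩
    by_cases k : π a ∈ F
    · exact ⟨a, fun _ => ⟨ha, rfl, iff_of_true rfl k, fun a' h e => .inl (c.uniq ha h k e)⟩⟩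
    obtain ⟨x, y, n, e⟩ := ncard_eq_two.1 (c.1 _ ⟨c.mapsTo ha, k⟩)
    have m : ∀ z, z ∈ A ∧ π z = π a ↔ z = x ∨ z = y := Set.ext_iff.1 e
    rcases (m a).1 ⟨ha, rfl⟩ with rfl | rfl
    · exact ⟨y, fun _ => ⟨((m y).2 (.inr rfl)).1, ((m y).2 (.inr rfl)).2, iff_of_false n.symm k,
        fun a' h e => (m a').1 ⟨h, e⟩⟩⟩
    · exact ⟨x, fun _ => ⟨((m x).2 (.inl rfl)).1, ((m x).2 (.inl rfl)).2, iff_of_false n k,
        fun a' h e => ((m a').1 ⟨h, e⟩).symm⟩⟩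
  choose τ h using this
  exact ⟨τ, h⟩

theorem Br.deck (c : Br P A B F π) : ∃ τ, Dk A F π τ := by
  obtain ⟨τ, h⟩ := usec_other c
  have ch : ∀ a ∈ A, ∀ a' ∈ A, π a' = π a → a' ≠ a → τ a = a' := fun a ha a' ha' e n =>
    (((h a ha).2.2.2 a' ha' e).resolve_left n).symm
  refine ⟨τ, fun a ha => ?_, fun a ha => (h a ha).1, fun a ha => (h a ha).2.1, fun a ha => ?_,
    fun a ha => (h a ha).2.2.1, fun a ha => (h a ha).2.2.2⟩
  · by_cases k : π a ∈ F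
    · obtain ⟨φ, ψ, w, r, s, e⟩ := c.sq k
      have m := s.fib a ha ⟨_, ⟨mem_ball_self s.pos, mem_ball_self (pow_pos s.pos 2)⟩, e⟩
      obtain ⟨χ, D⟩ := s.up.dif
      have g : ∀ u ∈ Pd w r r, (u.1, -u.2) ∈ Pd w r r := fun u hu =>
        ⟨hu.1, by simpa using hu.2⟩
      have d : ContDiffOn ℝ ∞ τ (φ '' Pd w r r) := by
        refine (s.up.2.1.comp ((contDiff_fst.prodMk contDiff_snd.neg).comp_contDiffOn D.cG)
          fun x hx => g _ (D.mG hx)).congr ?_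
        rintro _ ⟨u, hu, rfl⟩
        simp only [Function.comp_apply, D.gf u hu]
        have mu := s.up.2.2.2.1 hu
        by_cases z : u.2 = 0
        · rw [((h _ mu).2.2.1).2 (by
            rw [s.eq u hu]
            exact (s.mem _ (sq2_mem hu)).2 (by simp [sq2, z])), z, neg_zero, ← z]
        · refine ch _ mu _ (s.up.2.2.2.1 (g u hu)) ?_ fun q => z ?_
          · rw [s.eq _ (g u hu), s.eq u hu]
            simp [sq2]
          · exact neg_eq_self.1 (congrArg Prod.snd (s.up.2.2.1 (g u hu) hu q))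
      exact (d a m).mono_of_mem_nhdsWithin (s.up.opn.2 a m)
    · have e := (h a ha).2.1
      obtain ⟨N, σ, o, m, -, d, s0, s⟩ := c.sec (h a ha).1 (e ▸ k)
      rw [e] at m s0
      have cπ := c.contOn.1 a ha
      have n : π ⁻¹' N ∈ 𝓝[A] a :=
        (cπ.continuousWithinAt.tendsto_nhdsWithin c.mapsTo) (o.2 _ m)
      have g := (d _ m).comp_of_preimage_mem_nhdsWithin a cπ n
      have ne : ∀ᶠ y in 𝓝[A] a, σ (π y) - y ≠ 0 :=
        Filter.Tendsto.eventually_ne (g.continuousWithinAt.sub continuousWithinAt_id)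
          (sub_ne_zero.2 fun q => k ((h a ha).2.2.1.1 (s0.symm.trans q)))
      refine g.congr_of_eventuallyEq_of_mem ?_ ha
      filter_upwards [n, ne, self_mem_nhdsWithin] with y h1 h2 h3
      exact ch y h3 _ (s _ h1).1 (s _ h1).2 (sub_ne_zero.1 h2)
  · rcases (h _ (h a ha).1).2.2.2 a ha (h a ha).2.1.symm with e | e
    · rw [← e, ← e]
    · exact e.symm

/-- The branch set has no interior. -/
theorem Br.freq (c : Br P A B F π) (hb : b ∈ B) : ∃ᶠ y in 𝓝[B] b, y ∉ F := by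
  by_cases k : b ∈ F
  · obtain ⟨φ, ψ, w, r, s, rfl⟩ := c.sq k
    have m : (w, (0 : ℂ)) ∈ Pd w r (r ^ 2) :=
      ⟨mem_ball_self s.pos, mem_ball_self (pow_pos s.pos 2)⟩
    have l : ContinuousAt (fun t : ℂ => (w, t)) 0 := by fun_prop
    have n : ∀ᶠ t in 𝓝[≠] (0 : ℂ), (w, t) ∈ Pd w r (r ^ 2) :=
      nhdsWithin_le_nhds (l.preimage_mem_nhds (s.dn.1.mem_nhds m))
    have t : Filter.Tendsto (fun t : ℂ => ψ (w, t)) (𝓝[≠] 0) (𝓝[B] ψ (w, 0)) :=
      tendsto_nhdsWithin_iff.2 ⟨(ContinuousAt.comp (f := fun t : ℂ => (w, t))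
        (s.dn.2.1.continuousOn.continuousAt (s.dn.1.mem_nhds m)) l).tendsto.mono_left
          nhdsWithin_le_nhds, n.mono fun t ht => s.dn.2.2.2.1 ht⟩
    refine t.frequently (Filter.Eventually.frequently ?_)
    filter_upwards [n, self_mem_nhdsWithin] with t h1 h2
    exact fun f => h2 ((s.mem _ h1).1 f)
  · exact fun h => (h.self_of_nhdsWithin hb) k

end Pool.Agent.Lib.MP_b2e238_gt
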