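import Pool.Agent.Lib.MP_b2e238_gt.U.Defs

/-! Smooth approximation in the first order topology by convolution. -/

open scoped ContDiff Topology Convolution
open Set Metric MeasureTheory

noncomputable section

namespace Pool.Agent.Lib.MP_b2e238_gt

variable {V W : Type} [NormedAddCommGroup V] [NormedSpace ℝ V] [NormedAddCommGroup W]
  [NormedSpace ℝ W] [FiniteDimensional ℝ V] [FiniteDimensional ℝ W]

theorem c1_apx {g : V → W} (c : ContDiff ℝ 1 g) (k : HasCompactSupport g) {ε : ℝ} (p : 0 < ε) :
    ∃ g' : V → W, ContDiff ℝ ∞ g' ∧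
      ∀ x, ‖g' x - g x‖ < ε ∧ ‖fderiv ℝ g' x - fderiv ℝ g x‖ < ε := by
  let _ : MeasurableSpace V := borel V
  have : BorelSpace V := ⟨rfl⟩
  have : CompleteSpace W := FiniteDimensional.complete ℝ W
  let μ : Measure V := Measure.addHaar
  have c1 : Continuous (fderiv ℝ g) := c.continuous_fderiv one_ne_zero
  obtain ⟨δ, d, h⟩ := Metric.uniformContinuous_iff.1
    (k.uniformContinuous_of_continuous c.continuous) (ε / 2) (half_pos p)
  obtain ⟨δ', d', h'⟩ := Metric.uniformContinuous_iff.1
    ((k.fderiv ℝ).uniformContinuous_of_continuous c1) (ε / 2) (half_pos p)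
  have m : 0 < min δ δ' := lt_min d d'
  let φ : ContDiffBump (0 : V) := ⟨min δ δ' / 2, min δ δ', half_pos m, half_lt_self m⟩
  refine ⟨φ.normed μ ⋆[ContinuousLinearMap.lsmul ℝ ℝ, μ] g,
    φ.hasCompactSupport_normed.contDiff_convolution_left _ φ.contDiff_normed
      c.continuous.locallyIntegrable, fun x => ⟨?_, ?_⟩⟩
  · rw [← dist_eq_norm]
    exact (φ.dist_normed_convolution_le c.continuous.aestronglyMeasurable fun y m =>
      (h ((mem_ball.1 m).trans_le (min_le_left _ _))).le).trans_lt (half_lt_self p)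
  · have e : (ContinuousLinearMap.lsmul ℝ ℝ : ℝ →L[ℝ] W →L[ℝ] W).precompR V =
        ContinuousLinearMap.lsmul ℝ ℝ := by
      ext
      simp
    rw [(k.hasFDerivAt_convolution_right (ContinuousLinearMap.lsmul ℝ ℝ)
      φ.continuous_normed.locallyIntegrable c x).fderiv, e, ← dist_eq_norm]
    exact (φ.dist_normed_convolution_le c1.aestronglyMeasurable fun y m =>
      (h' ((mem_ball.1 m).trans_le (min_le_right _ _))).le).trans_lt (half_lt_self p)

end Pool.Agent.Lib.MP_b2e238_gt
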