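import Pool.Agent.Lib.MP_b2e238_gt.U.Sq

/-! The conformal structure on the normal planes. -/

open scoped ContDiff Topology
open Set Metric

noncomputable section

namespace Pool.Agent.Lib.MP_b2e238_gt

variable {P V W V' : Type} [NormedAddCommGroup P] [NormedSpace ℝ P] [NormedAddCommGroup V]
  [NormedSpace ℝ V] [NormedAddCommGroup W] [NormedSpace ℝ W] [NormedAddCommGroup V']
  [NormedSpace ℝ V'] [FiniteDimensional ℝ P] [FiniteDimensional ℝ V] [FiniteDimensional ℝ W]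
  [FiniteDimensional ℝ V']
  {A : Set V} {A' : Set V'} {B F N N' : Set W} {π : V → W} {π' : V' → W} {φ : P × ℂ → V}
  {φ' : P × ℂ → V'} {ψ ψ' : P × ℂ → W} {w w' : P} {r r' : ℝ} {θ : P × ℂ → P × ℂ} {b : W}
  {H : W → W} {τ : V → V} {τ' : V' → V'} {h h' : V → V'}

theorem cn2_of_sq {C c : ℂ → ℂ} {M L : ℂ →L[ℝ] ℂ} (hC : HasFDerivAt C M 0) (hc : HasFDerivAt c L 0)
    (C0 : C 0 = 0) (c0 : c 0 = 0) (e : ∀ᶠ z in 𝓝 (0 : ℂ), c (z ^ 2) = C z ^ 2) : Cn2 L := by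
  have sl : ∀ {f : ℂ → ℂ} {D : ℂ →L[ℝ] ℂ}, HasFDerivAt f D 0 → f 0 = 0 → ∀ z : ℂ,
      Filter.Tendsto (fun t : ℝ => t⁻¹ • f (t • z)) (𝓝[≠] 0) (𝓝 (D z)) := fun {f D} h h0 z => by
    have a : HasDerivAt (fun t : ℝ => t • z) z 0 := by simpa using (hasDerivAt_id (0 : ℝ)).smul_const z
    have := (HasFDerivAt.comp_hasDerivAt_of_eq 0 h a (by simp)).tendsto_slope_zero
    simpa [h0] using this
  have key : ∀ z : ℂ, L (z ^ 2) = M z ^ 2 := fun z => by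
    have q : Filter.Tendsto (fun t : ℝ => t ^ 2) (𝓝[≠] 0) (𝓝[≠] 0) :=
      tendsto_nhdsWithin_iff.2 ⟨((continuous_pow 2).tendsto' 0 0 (by simp)).mono_left
        nhdsWithin_le_nhds, eventually_mem_nhdsWithin.mono fun t ht => pow_ne_zero 2 ht⟩
    have m : Filter.Tendsto (fun t : ℝ => t • z) (𝓝[≠] 0) (𝓝 0) :=
      ((continuous_id.smul continuous_const).tendsto' 0 0 (by simp)).mono_left nhdsWithin_le_nhds
    refine tendsto_nhds_unique (((sl hc c0 (z ^ 2)).comp q).congr' ?_) ((sl hC C0 z).pow 2)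
    filter_upwards [m.eventually e] with t ht
    rw [smul_pow, ← ht, smul_pow, inv_pow]
    rfl
  have a := key 1
  have b := key .I
  have d := key (1 + .I)
  rw [one_pow] at a
  rw [Complex.I_sq, map_neg, a] at b
  rw [show (1 + .I : ℂ) ^ 2 = .I + .I by linear_combination Complex.I_sq, map_add, map_add] at d
  have f : (M .I - .I * M 1) * (M .I + .I * M 1) = 0 := by
    linear_combination -b - M 1 ^ 2 * Complex.I_sq
  rcases mul_eq_zero.1 f with g | g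
  · exact Or.inl (by linear_combination d / 2 - b / 2 + M 1 * g - .I * a)
  · exact Or.inr (by linear_combination d / 2 - b / 2 + M 1 * g + .I * a)

theorem uconf_iff {L : ℂ →L[ℝ] ℂ} :
    Cn2 L ↔ (∀ z, L (.I * z) = .I * L z) ∨ ∀ z, L (.I * z) = -(.I * L z) := by
  have k : ∀ z : ℂ, L z = z.re * L 1 + z.im * L .I := fun z => by
    have e : z = z.re • (1 : ℂ) + z.im • .I := by simp
    conv_lhs => rw [e, map_add, map_smul, map_smul]
    rfl
  refine or_congr ⟨fun h z => ?_, fun h => by simpa using h 1⟩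
    ⟨fun h z => ?_, fun h => by simpa using h 1⟩
  · rw [k (.I * z), k z, h]
    simp only [Complex.I_mul_re, Complex.I_mul_im, Complex.ofReal_neg]
    linear_combination (-(z.im * L 1)) * Complex.I_sq
  · rw [k (.I * z), k z, h]
    simp only [Complex.I_mul_re, Complex.I_mul_im, Complex.ofReal_neg]
    linear_combination (-(z.im * L 1)) * Complex.I_sq

theorem Cn2.comp {L M : ℂ →L[ℝ] ℂ} (a : Cn2 L) (c : Cn2 M) : Cn2 (L ∘L M) := by
  change L (M _) = _ * L (M _) ∨ L (M _) = -(_ * L (M _))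
  rcases uconf_iff.1 a with a | a <;> rcases c with c | c <;> rw [c]
  · exact Or.inl (a _)
  · exact Or.inr (by rw [map_neg, a])
  · exact Or.inr (a _)
  · exact Or.inl (by rw [map_neg, a, neg_neg])

theorem Cn2.inv {L M : ℂ →L[ℝ] ℂ} (a : Cn2 L) (e : ∀ z, L (M z) = z) : Cn2 M := by
  have i : Function.Injective L :=
    (LinearMap.injective_iff_surjective (f := L.toLinearMap)).2 fun z => ⟨M z, e z⟩
  refine (uconf_iff.1 a).imp (fun a => i ?_) fun a => i ?_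
  · rw [a, e, e, mul_one]
  · rw [map_neg, a, e, e, mul_one, neg_neg]

theorem uconf_nhds (w : P) {r s : ℝ} (p : 0 < r) (q : 0 < s) : Pd w r s ∈ 𝓝 ((w, 0) : P × ℂ) :=
  (isOpen_Pd w r s).mem_nhds ⟨mem_ball_self p, mem_ball_self q⟩

theorem uconf_dn (s : Sq A B F π φ ψ w r) : Pd w r (r ^ 2) ∈ 𝓝 ((w, 0) : P × ℂ) :=
  uconf_nhds w s.pos (pow_pos s.pos 2)

theorem uconf_to (t : Tr ψ ψ' θ w w') : Filter.Tendsto θ (𝓝 (w, 0)) (𝓝 (w', 0)) :=
  t.pt ▸ t.diff.continuousAt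

theorem uconf_pt (t : Tr ψ ψ' θ w w') : ψ (w, 0) = ψ' (w', 0) :=
  t.eq.self_of_nhds.symm.trans (congrArg ψ' t.pt)

theorem Tr.tan (t : Tr ψ ψ' θ w w') (s : Sq A B F π φ ψ w r) (s' : Sq A' B F π' φ' ψ' w' r')
    (x : P) : (fderiv ℝ θ (w, 0) (x, 0)).2 = 0 := by
  have j := hasFDerivAt_prodMk_left (𝕜 := ℝ) w (0 : ℂ)
  have d := (t.diff.hasFDerivAt.comp w j).snd
  have e : (fun y => (θ (y, 0)).2) =ᶠ[𝓝 w] fun _ => 0 := by
    filter_upwards [j.continuousAt.eventually t.eq, j.continuousAt.eventually (uconf_dn s),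
      j.continuousAt.eventually ((uconf_to t).eventually (uconf_dn s'))] with y h1 h2 h3
    exact (s'.mem _ h3).1 (h1 ▸ (s.mem _ h2).2 rfl)
  exact DFunLike.congr_fun (d.unique ((hasFDerivAt_const _ _).congr_of_eventuallyEq e)) x

theorem Tr.inj (t : Tr ψ ψ' θ w w') (s : Sq A B F π φ ψ w r) (s' : Sq A' B F π' φ' ψ' w' r') :
    Function.Injective (nd θ w) := by
  have d' : DifferentiableAt ℝ ψ' (θ (w, 0)) :=
    t.pt ▸ (s'.dn.2.1.contDiffAt (uconf_dn s')).differentiableAt (by simp)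
  have e : fderiv ℝ ψ (w, 0) = _ :=
    ((d'.hasFDerivAt.comp _ t.diff.hasFDerivAt).congr_of_eventuallyEq
      (t.eq.mono fun _ h => h.symm)).fderiv
  have i : Function.Injective (fderiv ℝ θ (w, 0)) := by
    have := (s.dn.2.2.2.2 _ (mem_of_mem_nhds (uconf_dn s))).1
    rw [e] at this
    exact Function.Injective.of_comp this
  let T : P →L[ℝ] P := .fst ℝ P ℂ ∘L fderiv ℝ θ (w, 0) ∘L .inl ℝ P ℂ
  have su : Function.Surjective T := (LinearMap.injective_iff_surjective (f := T.toLinearMap)).1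
    fun x y h => congrArg Prod.fst (i (a₁ := (x, 0)) (a₂ := (y, 0))
      (Prod.ext h ((t.tan s s' x).trans (t.tan s s' y).symm)))
  refine (injective_iff_map_eq_zero _).2 fun z hz => ?_
  obtain ⟨x, hx⟩ := su (fderiv ℝ θ (w, 0) (0, z)).1
  exact (congrArg Prod.snd (i (a₁ := (x, 0)) (a₂ := (0, z))
    (Prod.ext hx ((t.tan s s' x).trans (Eq.symm hz))))).symm

theorem Sq.tr (s : Sq A B F π φ ψ w r) (s' : Sq A' B F π' φ' ψ' w' r')
    (e : ψ (w, 0) = ψ' (w', 0)) : ∃ θ, Tr ψ ψ' θ w w' := by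
  obtain ⟨θ, o, c, k⟩ := par_tr s.dn s'.dn
  have m' := mem_of_mem_nhds (uconf_dn s')
  have n := o.mem_nhds ⟨mem_of_mem_nhds (uconf_dn s), _, m', e.symm⟩
  have k0 := k _ (mem_of_mem_nhds n)
  exact ⟨θ, (c.contDiffAt n).differentiableAt (by simp), s'.dn.2.2.1 k0.1 m' (k0.2.trans e),
    Filter.eventually_of_mem n fun v hv => (k v hv).2⟩

theorem mt_self : Mt P A A B F π π b := fun φ ψ w r φ' ψ' w' r' θ s s' _ t => by
  obtain ⟨Θ, o, c, k⟩ := par_tr s.up s'.up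
  have m := mem_of_mem_nhds (uconf_nhds w s.pos s.pos)
  have q0 : sq2 ((w, 0) : P × ℂ) = (w, 0) := by simp [sq2]
  have n := o.mem_nhds ⟨m, s'.fib _ (s.up.2.2.2.1 m) ⟨_, mem_of_mem_nhds (uconf_dn s'), by
    rw [s.eq _ m, q0, uconf_pt t]⟩⟩
  have j := hasFDerivAt_prodMk_right (𝕜 := ℝ) w (0 : ℂ)
  have q : Filter.Tendsto (fun z : ℂ => ((w, z ^ 2) : P × ℂ)) (𝓝 0) (𝓝 (w, 0)) :=
    (continuous_const.prodMk (continuous_pow 2)).tendsto' 0 _ (by simp)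
  have e : ∀ᶠ z in 𝓝 (0 : ℂ), (θ (w, z ^ 2)).2 = (Θ (w, z)).2 ^ 2 := by
    filter_upwards [j.continuousAt.eventually n, q.eventually t.eq,
      q.eventually ((uconf_to t).eventually (uconf_dn s'))] with z h1 h2 h3
    exact congrArg Prod.snd (s'.dn.2.2.1 h3 (sq2_mem (k _ h1).1)
      (h2.trans ((s.eq _ h1.1).symm.trans ((congrArg π (k _ h1).2).symm.trans (s'.eq _ (k _ h1).1)))))
  have c0 : (θ (w, 0)).2 = 0 := congrArg Prod.snd t.pt
  have e0 := e.self_of_nhds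
  rw [zero_pow two_ne_zero, c0] at e0
  exact cn2_of_sq (C := fun z => (Θ (w, z)).2) (c := fun z => (θ (w, z)).2)
    (((c.contDiffAt n).differentiableAt (by simp)).hasFDerivAt.comp 0 j).snd
    (t.diff.hasFDerivAt.comp 0 j).snd (eq_zero_of_pow_eq_zero e0.symm) c0 e

theorem uconf_comp {ψ'' : P × ℂ → W} {θ' : P × ℂ → P × ℂ} {w'' : P} (t : Tr ψ ψ' θ w w')
    (t' : Tr ψ' ψ'' θ' w' w'') : Tr ψ ψ'' (θ' ∘ θ) w w'' :=
  ⟨(t.pt ▸ t'.diff :).comp _ t.diff, (congrArg θ' t.pt).trans t'.pt,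
    (t.eq.and ((uconf_to t).eventually t'.eq)).mono fun _ h => h.2.trans h.1⟩

theorem uconf_nd {ψ'' : P × ℂ → W} {θ' : P × ℂ → P × ℂ} {w'' : P} (t : Tr ψ ψ' θ w w')
    (t' : Tr ψ' ψ'' θ' w' w'') (k : ∀ x, (fderiv ℝ θ' (w', 0) (x, 0)).2 = 0) :
    nd (θ' ∘ θ) w = nd θ' w' ∘L nd θ w := ContinuousLinearMap.ext fun z => by
  change (fderiv ℝ (θ' ∘ θ) (w, 0) (0, z)).2 =
    (fderiv ℝ θ' (w', 0) (0, (fderiv ℝ θ (w, 0) (0, z)).2)).2
  rw [fderiv_comp _ (t.pt ▸ t'.diff :) t.diff, t.pt, ContinuousLinearMap.comp_apply,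
    ← Prod.fst_add_snd (fderiv ℝ θ (w, 0) (0, z)), map_add, Prod.snd_add, k, zero_add]
  simp

theorem uconf_uniq {θ' : P × ℂ → P × ℂ} (t : Tr ψ ψ' θ w w') (t' : Tr ψ ψ' θ' w w')
    (s' : Sq A' B F π' φ' ψ' w' r') : nd θ w = nd θ' w := by
  have e : θ =ᶠ[𝓝 (w, 0)] θ' := by
    filter_upwards [t.eq, t'.eq, (uconf_to t).eventually (uconf_dn s'),
      (uconf_to t').eventually (uconf_dn s')] with v h1 h2 h3 h4
    exact s'.dn.2.2.1 h3 h4 (h1.trans h2.symm)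
  rw [nd, nd, e.fderiv_eq]

theorem mt_of_one (s : Sq A B F π φ ψ w r) (s' : Sq A' B F π' φ' ψ' w' r') (t : Tr ψ ψ' θ w w')
    (k : Cn2 (nd θ w)) : Mt P A A' B F π π' (ψ (w, 0)) :=
  fun _ _ _ _ _ _ _ _ _ s₁ s₂ e t' => by
    obtain ⟨θ₁, t₁⟩ := s₁.tr s e
    obtain ⟨θ₂, t₂⟩ := s'.tr s₂ ((uconf_pt t).symm.trans (e.symm.trans (uconf_pt t')))
    rw [uconf_uniq t' (uconf_comp (uconf_comp t₁ t) t₂) s₂,
      uconf_nd (uconf_comp t₁ t) t₂ (t₂.tan s' s₂), uconf_nd t₁ t (t.tan s s')]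
    exact (mt_self _ _ _ _ _ _ _ _ _ s' s₂ rfl t₂).comp
      (k.comp (mt_self _ _ _ _ _ _ _ _ _ s₁ s rfl t₁))

theorem Mt.symm (m : Mt P A A' B F π π' b) : Mt P A' A B F π' π b :=
  fun _ ψ w _ _ _ _ _ _ s₁ s₂ e t => by
    obtain ⟨θ', t'⟩ := s₂.tr s₁ (uconf_pt t).symm
    have i : Tr ψ ψ id w w := ⟨differentiableAt_id, rfl, .of_forall fun _ => rfl⟩
    refine (m _ _ _ _ _ _ _ _ _ s₂ s₁ ((uconf_pt t).symm.trans e) t').inv fun z => ?_
    have := (uconf_nd t t' (t'.tan s₂ s₁)).symm.trans (uconf_uniq (uconf_comp t t') i s₁)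
    exact (DFunLike.congr_fun this z).trans (by simp [nd])

end Pool.Agent.Lib.MP_b2e238_gt
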