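import Pool.Agent.Lib.MP_b2e238_gt.U.Defs

/-! Monodromy on compact convex sets, by a minimal counterexample. -/

open scoped ContDiff Topology
open Set Metric

noncomputable section

namespace Pool.Agent.Lib.MP_b2e238_gt

variable {V : Type} [NormedAddCommGroup V] [NormedSpace ℝ V] [FiniteDimensional ℝ V]

theorem convex_glue {G : Set V → Prop} (mono : ∀ S T, G S → T ⊆ S → G T)
    (loc : ∀ x, ∃ S ∈ 𝓝 x, G S)
    (un : ∀ S T, IsOpen S → IsOpen T → IsPreconnected (S ∩ T) → G S → G T → G (S ∪ T))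
    {K : Set V} (k : IsCompact K) (c : Convex ℝ K) : ∃ S, IsOpen S ∧ K ⊆ S ∧ G S := by
  by_contra bad
  obtain ⟨M, -, ⟨kM, cM, bM⟩, min⟩ := zorn_superset_nonempty
    {L : Set V | IsCompact L ∧ Convex ℝ L ∧ ¬∃ S, IsOpen S ∧ L ⊆ S ∧ G S}
    (fun C s ch ⟨L, hL⟩ => ⟨⋂₀ C, ⟨(s hL).1.of_isClosed_subset
      (isClosed_sInter fun T hT => (s hT).1.isClosed) (sInter_subset_of_mem hL),
      convex_sInter fun T hT => (s hT).2.1, fun ⟨S, o, i, g⟩ => by
        have : Nonempty C := ⟨⟨L, hL⟩⟩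
        obtain ⟨T, hT⟩ := exists_subset_nhds_of_isCompact (V := fun T : C => T.1)
          (fun a b => (ch.total a.2 b.2).elim (fun h => ⟨a, Subset.rfl, h⟩)
            fun h => ⟨b, h, Subset.rfl⟩) (fun T => (s T.2).1) (U := S)
          fun x hx => o.mem_nhds (i (by rwa [sInter_eq_iInter]))
        exact (s T.2).2.2 ⟨S, o, hT, g⟩⟩, fun T hT => sInter_subset_of_mem hT⟩) K ⟨k, c, bad⟩
  refine bM ?_
  by_cases h : M.Subsingleton
  · obtain ⟨x, hx⟩ : ∃ x, M ⊆ {x} := by
      rcases h.eq_empty_or_singleton with rfl | ⟨x, rfl⟩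
      exacts [⟨0, empty_subset _⟩, ⟨x, Subset.rfl⟩]
    obtain ⟨S, n, g⟩ := loc x
    exact ⟨interior S, isOpen_interior, hx.trans (singleton_subset_iff.2
      (mem_interior_iff_mem_nhds.2 n)), mono _ _ g interior_subset⟩
  have half (f : V →L[ℝ] ℝ) (a : ℝ) (y : V) (hy : y ∈ M) (l : a < f y) : ∃ δ > 0, ∀ ε ≤ δ,
      G (thickening ε (M ∩ f ⁻¹' Iic a)) := by
    have k₁ := kM.inter_right ((isClosed_Iic (a := a)).preimage f.continuous)
    by_contra n
    refine absurd (min ⟨k₁, cM.inter ((convex_Iic a).linear_preimage f.toLinearMap),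
      fun ⟨S, o, i, g⟩ => n ?_⟩ inter_subset_left hy).2 (not_le.2 l)
    obtain ⟨δ, p, t⟩ := k₁.exists_thickening_subset_open o i
    exact ⟨δ, p, fun ε e => mono _ _ g ((thickening_mono e _).trans t)⟩
  obtain ⟨x, hx, y, hy, ne⟩ := not_subsingleton_iff.1 h
  obtain ⟨f, hf⟩ := SeparatingDual.exists_separating_of_ne (R := ℝ) ne
  wlog l : f x < f y generalizing x y
  · exact this y hy x hx ne.symm hf.symm ((not_lt.1 l).lt_of_ne hf.symm)
  obtain ⟨δ, p, g⟩ := half f ((f x + f y) / 2) y hy (by linarith)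
  obtain ⟨δ', p', g'⟩ := half (-f) (-((f x + f y) / 2)) x hx (by simp; linarith)
  refine ⟨_, isOpen_thickening.union isOpen_thickening, fun z hz => ?_,
    un _ _ isOpen_thickening isOpen_thickening (Convex.isPreconnected (Convex.inter
      ((cM.inter ((convex_Iic _).linear_preimage f.toLinearMap)).thickening _)
      ((cM.inter ((convex_Iic _).linear_preimage (-f).toLinearMap)).thickening _)))
      (g _ le_rfl) (g' _ le_rfl)⟩
  rcases le_total (f z) ((f x + f y) / 2) with e | e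
  · exact .inl (self_subset_thickening p _ ⟨hz, e⟩)
  · exact .inr (self_subset_thickening p' _ ⟨hz, neg_le_neg e⟩)

end Pool.Agent.Lib.MP_b2e238_gt
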