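import Pool.Agent.Lib.MP_b2e238_gt.Z.Br
import Pool.Agent.Lib.MP_b2e238_gt.K.Emb
import Pool.Agent.Lib.MP_b2e238_gt.K.NbInv

/-! Data for the uniqueness of smooth branched double covers. -/

open scoped ContDiff Topology
open Set Metric

noncomputable section

namespace Pool.Agent.Lib.MP_b2e238_gt

variable {P V W V' : Type} [NormedAddCommGroup P] [NormedSpace ℝ P] [NormedAddCommGroup V]
  [NormedSpace ℝ V] [NormedAddCommGroup W] [NormedSpace ℝ W] [NormedAddCommGroup V']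
  [NormedSpace ℝ V']

/-- The model map. -/
def sq2 (u : P × ℂ) : P × ℂ := (u.1, u.2 ^ 2)

/-- A polydisc round the point `(w, 0)`. -/
def Pd (w : P) (r s : ℝ) : Set (P × ℂ) := ball w r ×ˢ ball 0 s

/-- A standard pair of charts over the branch set, centred at `(w, 0)`. -/
structure Sq (A : Set V) (B F : Set W) (π : V → W) (φ : P × ℂ → V) (ψ : P × ℂ → W) (w : P)
    (r : ℝ) : Prop where
  pos : 0 < r
  up : Par A φ (Pd w r r)
  dn : Par B ψ (Pd w r (r ^ 2))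
  eq : ∀ u ∈ Pd w r r, π (φ u) = ψ (sq2 u)
  mem : ∀ u ∈ Pd w r (r ^ 2), ψ u ∈ F ↔ u.2 = 0
  fib : ∀ a ∈ A, π a ∈ ψ '' Pd w r (r ^ 2) → a ∈ φ '' Pd w r r

/-- `θ` is the change of charts from `ψ` at `(w, 0)` to `ψ'` at `(w', 0)`. -/
structure Tr (ψ ψ' : P × ℂ → W) (θ : P × ℂ → P × ℂ) (w w' : P) : Prop where
  diff : DifferentiableAt ℝ θ (w, 0)
  pt : θ (w, 0) = (w', 0)
  eq : ∀ᶠ v in 𝓝 ((w, 0) : P × ℂ), ψ' (θ v) = ψ v

/-- The normal part of the derivative. -/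
def nd (θ : P × ℂ → P × ℂ) (w : P) : ℂ →L[ℝ] ℂ :=
  ContinuousLinearMap.snd ℝ P ℂ ∘L fderiv ℝ θ (w, 0) ∘L ContinuousLinearMap.inr ℝ P ℂ

/-- Complex linear or antilinear. -/
def Cn2 (L : ℂ →L[ℝ] ℂ) : Prop := L .I = .I * L 1 ∨ L .I = -(.I * L 1)

variable (P) in
/-- The two covers give the same conformal structure on the normal plane at `b`. -/
def Mt (A : Set V) (A' : Set V') (B F : Set W) (π : V → W) (π' : V' → W) (b : W) : Prop :=
  ∀ (φ : P × ℂ → V) (ψ : P × ℂ → W) (w : P) (r : ℝ) (φ' : P × ℂ → V') (ψ' : P × ℂ → W) (w' : P)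
    (r' : ℝ) (θ : P × ℂ → P × ℂ), Sq A B F π φ ψ w r → Sq A' B F π' φ' ψ' w' r' → ψ (w, 0) = b →
      Tr ψ ψ' θ w w' → Cn2 (nd θ w)

/-- Diffeomorphisms of `B` that fix `F` pointwise. -/
def Fx (B F : Set W) (H : W → W) : Prop := (∃ H', Dif B B H H') ∧ ∀ b ∈ F, H b = b

/-- The Beltrami coefficient that makes the map `1 ↦ p.1`, `i ↦ p.2` conformal. -/
def bel (p : ℂ × ℂ) : ℂ :=
  if ‖p.1 + .I * p.2‖ < ‖p.1 - .I * p.2‖ then -((p.1 + .I * p.2) / (p.1 - .I * p.2))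
  else -(starRingEnd ℂ ((p.1 - .I * p.2) / (p.1 + .I * p.2)))

/-- Diffeomorphisms of class `C ^ n`. -/
structure Dn (n : ℕ∞) (A : Set V) (B : Set W) (F : V → W) (G : W → V) : Prop where
  cF : ContDiffOn ℝ n F A
  cG : ContDiffOn ℝ n G B
  mF : MapsTo F A B
  mG : MapsTo G B A
  gf : ∀ a ∈ A, G (F a) = a
  fg : ∀ b ∈ B, F (G b) = b

/-- The deck transformation. -/
structure Dk (A : Set V) (F : Set W) (π : V → W) (τ : V → V) : Prop where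
  sm : ContDiffOn ℝ ∞ τ A
  maps : MapsTo τ A A
  ovr : ∀ a ∈ A, π (τ a) = π a
  inv : ∀ a ∈ A, τ (τ a) = a
  fix : ∀ a ∈ A, τ a = a ↔ π a ∈ F
  fib : ∀ a ∈ A, ∀ a' ∈ A, π a' = π a → a' = a ∨ a' = τ a

/-- A continuous lift of the identity over `N`, injective on the fibres. -/
structure Lf0 (A : Set V) (A' : Set V') (π : V → W) (π' : V' → W) (N : Set W) (h : V → V') :
    Prop where
  cont : ∀ a ∈ A, π a ∈ N → ContinuousWithinAt h A a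
  maps : ∀ a ∈ A, π a ∈ N → h a ∈ A' ∧ π' (h a) = π a
  inj : ∀ a ∈ A, ∀ a' ∈ A, π a ∈ N → π a' = π a → h a' = h a → a' = a

/-- The same of class `C ^ 1`, smooth off the branch set. -/
structure Lf (A : Set V) (A' : Set V') (F : Set W) (π : V → W) (π' : V' → W) (N : Set W)
    (h : V → V') : Prop where
  one : ∀ a ∈ A, π a ∈ N → ContDiffWithinAt ℝ 1 h A a
  top : ∀ a ∈ A, π a ∈ N → π a ∉ F → ContDiffWithinAt ℝ ∞ h A a
  maps : ∀ a ∈ A, π a ∈ N → h a ∈ A' ∧ π' (h a) = π a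
  inj : ∀ a ∈ A, ∀ a' ∈ A, π a ∈ N → π a' = π a → h a' = h a → a' = a

/-- The `C ^ 1` diffeomorphisms near `Φ₀` can be smoothed along `S` by a small move that keeps the
smooth points. -/
def Pz (A : Set V) (A' : Set V') (Φ₀ : V → V') (S : Set V) : Prop :=
  ∃ δ > 0, ∀ (Φ : V → V') (Ψ : V' → V), Dn 1 A A' Φ Ψ → (∀ a ∈ A, dist (Φ a) (Φ₀ a) < δ) →
    ∀ ε > 0, ∃ (Φ' : V → V') (Ψ' : V' → V), Dn 1 A A' Φ' Ψ' ∧ ∀ a ∈ A, dist (Φ' a) (Φ a) < ε ∧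
      (a ∈ S ∨ ContDiffWithinAt ℝ ∞ Φ A a → ContDiffWithinAt ℝ ∞ Φ' A a)

end Pool.Agent.Lib.MP_b2e238_gt
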