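import Pool.Agent.Lib.MP_b2e238_gt.U.Sec

/-! Two lifts differ by the deck transformation. -/

open scoped ContDiff Topology
open Set Metric

noncomputable section

namespace Pool.Agent.Lib.MP_b2e238_gt

variable {P V W V' : Type} [NormedAddCommGroup P] [NormedSpace ℝ P] [NormedAddCommGroup V]
  [NormedSpace ℝ V] [NormedAddCommGroup W] [NormedSpace ℝ W] [NormedAddCommGroup V']
  [NormedSpace ℝ V'] [FiniteDimensional ℝ P] [FiniteDimensional ℝ V] [FiniteDimensional ℝ W]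
  [FiniteDimensional ℝ V']
  {A : Set V} {A' : Set V'} {B F N N' : Set W} {π : V → W} {π' : V' → W} {φ : P × ℂ → V}
  {φ' : P × ℂ → V'} {ψ ψ' : P × ℂ → W} {w w' : P} {r r' : ℝ} {θ : P × ℂ → P × ℂ} {b : W}
  {H : W → W} {τ : V → V} {τ' : V' → V'} {h h' : V → V'}

theorem udich_gen {Z : Type} [TopologicalSpace Z] {T : Set Z} (p : IsPreconnected T)
    {E₁ E₂ : Z → Prop} (loc : ∀ x ∈ T, (∀ᶠ y in 𝓝[T] x, E₁ y) ∨ ∀ᶠ y in 𝓝[T] x, E₂ y)
    (ex : ∀ x ∈ T, ∃ᶠ y in 𝓝[T] x, ¬(E₁ y ∧ E₂ y)) : (∀ x ∈ T, E₁ x) ∨ ∀ x ∈ T, E₂ x := by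
  by_cases k : ∃ x ∈ T, ∀ᶠ y in 𝓝[T] x, E₁ y
  · obtain ⟨x, hx, k⟩ := k
    refine .inl fun y hy => ((p.induction₂ (fun x y => (∀ᶠ z in 𝓝[T] x, E₁ z) ↔
      ∀ᶠ z in 𝓝[T] y, E₁ z) (fun x hx => ?_) (fun _ _ _ _ _ _ => Iff.trans)
      (fun _ _ _ _ => Iff.symm) hx hy).1 k).self_of_nhdsWithin hy
    rcases loc x hx with a | a
    · exact (eventually_eventually_nhdsWithin.2 a).mono fun y b => iff_of_true a b
    · filter_upwards [eventually_eventually_nhdsWithin.2 a, self_mem_nhdsWithin] with y b c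
      exact iff_of_false (fun d => ex x hx ((d.and a).mono fun _ => not_not_intro))
        fun d => ex y c ((d.and b).mono fun _ => not_not_intro)
  · exact .inr fun x hx =>
      ((loc x hx).resolve_left fun a => k ⟨x, hx, a⟩).self_of_nhdsWithin hx

omit [NormedSpace ℝ V] [NormedAddCommGroup W] [NormedSpace ℝ W] [FiniteDimensional ℝ V]
  [FiniteDimensional ℝ W] [FiniteDimensional ℝ V'] in
theorem udich_or (t' : Dk A' F π' τ') (l : Lf0 A A' π π' N h) (l' : Lf0 A A' π π' N h') {a : V}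
    (ha : a ∈ A) (n : π a ∈ N) : h a = h' a ∨ h a = τ' (h' a) :=
  t'.fib _ (l'.maps a ha n).1 _ (l.maps a ha n).1
    ((l.maps a ha n).2.trans (l'.maps a ha n).2.symm)

omit [NormedSpace ℝ V] [NormedAddCommGroup W] [NormedSpace ℝ W] [FiniteDimensional ℝ V]
  [FiniteDimensional ℝ W] [FiniteDimensional ℝ V'] in
theorem udich_fix (t' : Dk A' F π' τ') (l : Lf0 A A' π π' N h) {a : V} (ha : a ∈ A)
    (n : π a ∈ N) : τ' (h a) = h a ↔ π a ∈ F := by
  rw [t'.fix _ (l.maps a ha n).1, (l.maps a ha n).2]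

omit [FiniteDimensional ℝ V] [FiniteDimensional ℝ W] [FiniteDimensional ℝ V'] in
/-- A lift commutes with the deck transformations. -/
theorem udich_deck (t : Dk A F π τ) (t' : Dk A' F π' τ') (l : Lf0 A A' π π' N h) {a : V}
    (ha : a ∈ A) (n : π a ∈ N) : h (τ a) = τ' (h a) := by
  have e := t.ovr a ha
  have m := l.maps _ (t.maps ha) (e ▸ n)
  refine (t'.fib _ (l.maps a ha n).1 _ m.1 (m.2.trans (e.trans (l.maps a ha n).2.symm))).elim
    (fun k => ?_) id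
  exact k.trans ((udich_fix t' l ha n).2
    ((t.fix a ha).1 (l.inj a ha _ (t.maps ha) n e k))).symm

omit [FiniteDimensional ℝ V'] in
/-- The germ at a point off the branch set. -/
theorem udich_pt (c : Br P A B F π) (t' : Dk A' F π' τ') (l : Lf0 A A' π π' N h)
    (l' : Lf0 A A' π π' N h') {a : V} (ha : a ∈ A) (n : N ∈ 𝓝[B] π a) (k : π a ∉ F) :
    (∀ᶠ x in 𝓝[A] a, h x = h' x) ∨ ∀ᶠ x in 𝓝[A] a, h x = τ' (h' x) := by
  have m : π a ∈ N := mem_of_mem_nhdsWithin (c.mapsTo ha) n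
  have e : ∀ᶠ x in 𝓝[A] a, x ∈ A ∧ π x ∈ N := Filter.Eventually.and self_mem_nhdsWithin
    ((c.contOn.1.continuousOn a ha).tendsto_nhdsWithin c.mapsTo n)
  have c₁ := l.cont a ha m
  have c₂ := l'.cont a ha m
  by_cases q : h a = h' a
  · have c₃ : ContinuousWithinAt (τ' ∘ h') A a :=
      (t'.sm.continuousOn _ (l'.maps a ha m).1).comp_of_preimage_mem_nhdsWithin c₂
        (e.mono fun x u => (l'.maps x u.1 u.2).1)
    have d : h a ≠ τ' (h' a) := fun d => k ((udich_fix t' l' ha m).1 (d.symm.trans q))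
    refine .inl ?_
    filter_upwards [e, (c₁.prodMk c₃).eventually (isOpen_ne_fun continuous_fst
      continuous_snd |>.mem_nhds d)] with x u v using (udich_or t' l l' u.1 u.2).resolve_right v
  · refine .inr ?_
    filter_upwards [e, (c₁.prodMk c₂).eventually (isOpen_ne_fun continuous_fst
      continuous_snd |>.mem_nhds q)] with x u v using (udich_or t' l l' u.1 u.2).resolve_left v

theorem Lf0.loc (c : Br P A B F π) (t' : Dk A' F π' τ') (l : Lf0 A A' π π' N h)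
    (l' : Lf0 A A' π π' N h') (hb : b ∈ B) (n : N ∈ 𝓝[B] b) :
    (∀ᶠ y in 𝓝[B] b, ∀ a ∈ A, π a = y → h a = h' a) ∨
      ∀ᶠ y in 𝓝[B] b, ∀ a ∈ A, π a = y → h a = τ' (h' a) := by
  obtain ⟨τ, t⟩ := c.deck
  by_cases k : b ∈ F
  · obtain ⟨φ, ψ, w, r, s, rfl⟩ := c.sq k
    obtain ⟨ρ, s, -, q⟩ := (s.small (M := univ) Filter.univ_mem
      (eventually_mem_nhdsWithin_iff.2 n)).exists
    have p := s.pos
    let T : Set (P × ℂ) := ball w ρ ×ˢ {z | z.re < Real.log ρ}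
    let σ : P × ℂ → P × ℂ := fun u => (u.1, Complex.exp u.2)
    have m : MapsTo σ T (Pd w ρ ρ) := fun u hu => ⟨hu.1, by
      rw [mem_ball_zero_iff, Complex.norm_exp]
      exact (Real.lt_log_iff_exp_lt p).1 hu.2⟩
    have a : ∀ u ∈ Pd w ρ ρ, φ u ∈ A ∧ N ∈ 𝓝[B] π (φ u) := fun u hu =>
      ⟨s.up.2.2.2.1 hu, s.eq u hu ▸ q ⟨_, sq2_mem hu, rfl⟩⟩
    have a' : ∀ u ∈ Pd w ρ ρ, π (φ u) ∈ N := fun u hu =>
      mem_of_mem_nhdsWithin (c.mapsTo (a u hu).1) (a u hu).2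
    have f : ∀ u ∈ Pd w ρ ρ, π (φ u) ∈ F ↔ u.2 = 0 := fun u hu => by
      rw [s.eq u hu, s.mem _ (sq2_mem hu)]
      exact pow_eq_zero_iff two_ne_zero
    have f' : ∀ u ∈ T, π (φ (σ u)) ∉ F := fun u hu e =>
      Complex.exp_ne_zero _ ((f _ (m hu)).1 e)
    have cσ : ContinuousOn (φ ∘ σ) T := s.up.2.1.continuousOn.comp (by fun_prop) m
    have g := udich_gen (T := T)
      (isPreconnected_ball.prod (convex_halfSpace_re_lt _).isPreconnected)
      (E₁ := fun u => h (φ (σ u)) = h' (φ (σ u))) (E₂ := fun u => h (φ (σ u)) = τ' (h' (φ (σ u))))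
      (fun u hu => (udich_pt c t' l l' (a _ (m hu)).1 (a _ (m hu)).2 (f' u hu)).imp
        ((cσ u hu).tendsto_nhdsWithin fun v hv => (a _ (m hv)).1).eventually
        ((cσ u hu).tendsto_nhdsWithin fun v hv => (a _ (m hv)).1).eventually)
      fun u hu e => e.self_of_nhdsWithin hu fun d => f' u hu
        ((udich_fix t' l' (a _ (m hu)).1 (a' _ (m hu))).1 (d.2.symm.trans d.1))
    have o : ψ '' Pd w ρ (ρ ^ 2) ∈ 𝓝[B] ψ (w, 0) :=
      s.dn.opn.2 _ ⟨_, ⟨mem_ball_self p, mem_ball_self (pow_pos p 2)⟩, rfl⟩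
    have z : ∀ u ∈ Pd w ρ ρ, u.2 ≠ 0 → ∃ v ∈ T, σ v = u := fun u hu e =>
      ⟨(u.1, Complex.log u.2), ⟨hu.1, by
        show (Complex.log u.2).re < _
        rw [Complex.log_re]
        exact Real.log_lt_log (norm_pos_iff.2 e) (mem_ball_zero_iff.1 hu.2)⟩,
        Prod.ext rfl (Complex.exp_log e)⟩
    have z0 : ∀ u ∈ Pd w ρ ρ, u.2 = 0 → h (φ u) = h' (φ u) ∧ h (φ u) = τ' (h' (φ u)) :=
      fun u hu e => by
        have i := (udich_fix t' l' (a u hu).1 (a' u hu)).2 ((f u hu).2 e)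
        have j := udich_or t' l l' (a u hu).1 (a' u hu)
        rw [i, or_self] at j
        exact ⟨j, j.trans i.symm⟩
    refine g.imp (fun g => Filter.mem_of_superset o fun y hy x hx e => ?_)
      fun g => Filter.mem_of_superset o fun y hy x hx e => ?_
    all_goals
      obtain ⟨u, hu, rfl⟩ := s.fib x hx (e ▸ hy)
      by_cases e : u.2 = 0
      · first | exact (z0 u hu e).1 | exact (z0 u hu e).2
      · obtain ⟨v, hv, rfl⟩ := z u hu e
        exact g v hv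
  · obtain ⟨a, ha, rfl⟩ := c.surj hb
    obtain ⟨M, σ, o, m, -, d, e, s⟩ := c.sec ha k
    have o' := o.2 _ m
    have T : Filter.Tendsto σ (𝓝[B] π a) (𝓝[A] a) := by
      have := (d.continuousOn _ m).tendsto_nhdsWithin fun y hy => (s y hy).1
      rw [e] at this
      exact this.mono_left (nhdsWithin_le_of_mem o')
    refine (udich_pt c t' l l' ha n k).imp (fun g => ?_) fun g => ?_
    all_goals
      filter_upwards [T.eventually g, o', n] with y u v z x hx e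
      obtain ⟨i, j⟩ := s y v
      rcases t.fib _ i x hx (e.trans j.symm) with rfl | rfl
      · exact u
      · rw [udich_deck t t' l i (j.symm ▸ z), udich_deck t t' l' i (j.symm ▸ z), u]

theorem Lf0.dich (c : Br P A B F π) (t' : Dk A' F π' τ') (l : Lf0 A A' π π' N h)
    (l' : Lf0 A A' π π' N h') (o : Opn N B) (p : IsPreconnected N) :
    (∀ a ∈ A, π a ∈ N → h a = h' a) ∨ ∀ a ∈ A, π a ∈ N → h a = τ' (h' a) := by
  have e : ∀ y ∈ N, 𝓝[N] y = 𝓝[B] y := fun y hy =>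
    le_antisymm (nhdsWithin_mono _ o.1) (nhdsWithin_le_of_mem (o.2 y hy))
  refine (udich_gen p (E₁ := fun y => ∀ a ∈ A, π a = y → h a = h' a)
    (E₂ := fun y => ∀ a ∈ A, π a = y → h a = τ' (h' a))
    (fun y hy => e y hy ▸ l.loc c t' l' (o.1 hy) (o.2 y hy)) fun y hy => ?_).imp
    (fun g a ha n => g _ n a ha rfl) fun g a ha n => g _ n a ha rfl
  rw [e y hy]
  refine ((c.freq (o.1 hy)).and_eventually (o.2 y hy)).mono fun x u v => ?_
  obtain ⟨a, ha, rfl⟩ := c.surj (o.1 u.2)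
  exact u.1 ((udich_fix t' l' ha u.2).1 ((v.2 a ha rfl).symm.trans (v.1 a ha rfl)))

end Pool.Agent.Lib.MP_b2e238_gt
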