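import Pool.Agent.Lib.MP_b2e238_gt.U.Dich

/-! Calculus of lifts. -/

open scoped ContDiff Topology
open Set Metric

noncomputable section

namespace Pool.Agent.Lib.MP_b2e238_gt

variable {P V W V' : Type} [NormedAddCommGroup P] [NormedSpace ℝ P] [NormedAddCommGroup V]
  [NormedSpace ℝ V] [NormedAddCommGroup W] [NormedSpace ℝ W] [NormedAddCommGroup V']
  [NormedSpace ℝ V'] [FiniteDimensional ℝ P] [FiniteDimensional ℝ V] [FiniteDimensional ℝ W]
  [FiniteDimensional ℝ V']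
  {A : Set V} {A' : Set V'} {B F N N' : Set W} {π : V → W} {π' : V' → W} {φ : P × ℂ → V}
  {φ' : P × ℂ → V'} {ψ ψ' : P × ℂ → W} {w w' : P} {r r' : ℝ} {θ : P × ℂ → P × ℂ} {b : W}
  {H : W → W} {τ : V → V} {τ' : V' → V'} {h h' : V → V'}

theorem uglue_ev (c : Br P A B F π) (n : Opn N B) {a : V} (ha : a ∈ A) (m : π a ∈ N) :
    ∀ᶠ y in 𝓝[A] a, y ∈ A ∧ π y ∈ N :=
  Filter.Eventually.and self_mem_nhdsWithin
    ((c.contOn.1.continuousOn a ha).tendsto_nhdsWithin c.mapsTo (n.2 _ m))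

theorem Lf.lf0 (l : Lf A A' F π π' N h) : Lf0 A A' π π' N h :=
  ⟨fun a ha m => (l.one a ha m).continuousWithinAt, l.maps, l.inj⟩

theorem Lf.mono (l : Lf A A' F π π' N h) (s : N' ⊆ N) : Lf A A' F π π' N' h :=
  ⟨fun a ha m => l.one a ha (s m), fun a ha m => l.top a ha (s m), fun a ha m => l.maps a ha (s m),
    fun a ha a' ha' m => l.inj a ha a' ha' (s m)⟩

theorem Lf.deck (l : Lf A A' F π π' N h) (t' : Dk A' F π' τ') (c : Br P A B F π)
    (n : Opn N B) : Lf A A' F π π' N (τ' ∘ h) := by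
  have e : ∀ a ∈ A, π a ∈ N → h ⁻¹' A' ∈ 𝓝[A] a := fun a ha m =>
    (uglue_ev c n ha m).mono fun y k => (l.maps y k.1 k.2).1
  refine ⟨fun a ha m => ?_, fun a ha m k => ?_, fun a ha m => ?_, fun a ha a' ha' m k q => ?_⟩
  · exact ((t'.sm _ (l.maps a ha m).1).of_le (by exact_mod_cast le_top)).comp_of_preimage_mem_nhdsWithin
      a (l.one a ha m) (e a ha m)
  · exact (t'.sm _ (l.maps a ha m).1).comp_of_preimage_mem_nhdsWithin a (l.top a ha m k) (e a ha m)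
  · exact ⟨t'.maps (l.maps a ha m).1, (t'.ovr _ (l.maps a ha m).1).trans (l.maps a ha m).2⟩
  · refine l.inj a ha a' ha' m k ?_
    rw [← t'.inv _ (l.maps a ha m).1, ← t'.inv _ (l.maps a' ha' (k ▸ m)).1]
    exact congrArg τ' q

theorem uglue_eq (c : Br P A B F π) (l : Lf A A' F π π' N h) (l' : Lf A A' F π π' N' h')
    (o : Opn N B) (o' : Opn N' B) (e : ∀ a ∈ A, π a ∈ N ∩ N' → h a = h' a) :
    ∃ g, Lf A A' F π π' (N ∪ N') g := by
  classical
  let g : V → V' := fun a => if π a ∈ N then h a else h' a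
  have e1 : ∀ a, π a ∈ N → g a = h a := fun a m => if_pos m
  have e2 : ∀ a ∈ A, π a ∈ N' → g a = h' a := fun a ha m => by
    by_cases k : π a ∈ N
    exacts [(e1 a k).trans (e a ha ⟨k, m⟩), if_neg k]
  have v1 : ∀ a ∈ A, π a ∈ N → g =ᶠ[𝓝[A] a] h := fun a ha m =>
    (uglue_ev c o ha m).mono fun y k => e1 y k.2
  have v2 : ∀ a ∈ A, π a ∈ N' → g =ᶠ[𝓝[A] a] h' := fun a ha m =>
    (uglue_ev c o' ha m).mono fun y k => e2 y k.1 k.2
  refine ⟨g, fun a ha m => ?_, fun a ha m k => ?_, fun a ha m => ?_, fun a ha a' ha' m k q => ?_⟩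
  · rcases m with m | m
    exacts [(l.one a ha m).congr_of_eventuallyEq (v1 a ha m) (e1 a m),
      (l'.one a ha m).congr_of_eventuallyEq (v2 a ha m) (e2 a ha m)]
  · rcases m with m | m
    exacts [(l.top a ha m k).congr_of_eventuallyEq (v1 a ha m) (e1 a m),
      (l'.top a ha m k).congr_of_eventuallyEq (v2 a ha m) (e2 a ha m)]
  · rcases m with m | m
    exacts [(e1 a m).symm ▸ l.maps a ha m, (e2 a ha m).symm ▸ l'.maps a ha m]
  · rcases m with m | m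
    · exact l.inj a ha a' ha' m k (by rwa [e1 a m, e1 a' (k ▸ m)] at q)
    · exact l'.inj a ha a' ha' m k (by rwa [e2 a ha m, e2 a' ha' (k ▸ m)] at q)

theorem Lf.union (c : Br P A B F π) (c' : Br P A' B F π') (l : Lf A A' F π π' N h)
    (l' : Lf A A' F π π' N' h') (o : Opn N B) (o' : Opn N' B) (p : IsPreconnected (N ∩ N')) :
    ∃ g, Lf A A' F π π' (N ∪ N') g := by
  obtain ⟨τ', t'⟩ := c'.deck
  rcases Lf0.dich c t' (l.mono inter_subset_left).lf0 (l'.mono inter_subset_right).lf0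
    (o.inter o') p with e | e
  exacts [uglue_eq c l l' o o' e, uglue_eq c l (l'.deck t' c o') o o' e]

theorem uglue_dn (c : Br P A B F π) (c' : Br P A' B F π') (l : Lf A A' F π π' B h) {g : V' → V}
    (l' : Lf A' A F π' π B g) (e : ∀ a ∈ A, g (h a) = a) : Dn 1 A A' h g := by
  have m : ∀ a ∈ A, h a ∈ A' ∧ π' (h a) = π a := fun a ha => l.maps a ha (c.mapsTo ha)
  have m' : ∀ a ∈ A', g a ∈ A ∧ π (g a) = π' a := fun a ha => l'.maps a ha (c'.mapsTo ha)
  exact ⟨fun a ha => l.one a ha (c.mapsTo ha), fun a ha => l'.one a ha (c'.mapsTo ha),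
    fun a ha => (m a ha).1, fun a ha => (m' a ha).1, e, fun a ha =>
      l'.inj a ha _ (m _ (m' a ha).1).1 (c'.mapsTo ha) ((m _ (m' a ha).1).2.trans (m' a ha).2)
        (e _ (m' a ha).1)⟩

/-- `g ∘ h` and `id` are lifts from `A` to `A`. -/
theorem Lf.dn (c : Br P A B F π) (c' : Br P A' B F π') (l : Lf A A' F π π' B h) {g : V' → V}
    (l' : Lf A' A F π' π B g) (p : IsPreconnected B) : ∃ g', Dn 1 A A' h g' := by
  obtain ⟨τ, t⟩ := c.deck
  have m : ∀ a ∈ A, h a ∈ A' ∧ π' (h a) = π a := fun a ha => l.maps a ha (c.mapsTo ha)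
  have m' : ∀ a ∈ A', g a ∈ A ∧ π (g a) = π' a := fun a ha => l'.maps a ha (c'.mapsTo ha)
  have a1 : Lf0 A A π π B (g ∘ h) := ⟨fun a ha k =>
    (l'.lf0.cont _ (m a ha).1 (c'.mapsTo (m a ha).1)).comp (l.lf0.cont a ha k) fun y hy => (m y hy).1,
    fun a ha _ => ⟨(m' _ (m a ha).1).1, (m' _ (m a ha).1).2.trans (m a ha).2⟩,
    fun a ha a' ha' k e q => l.inj a ha a' ha' k e (l'.inj _ (m a ha).1 _ (m a' ha').1
      (c'.mapsTo (m a ha).1) ((m a' ha').2.trans (e.trans (m a ha).2.symm)) q)⟩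
  have a2 : Lf0 A A π π B id :=
    ⟨fun _ _ _ => continuousWithinAt_id, fun _ ha _ => ⟨ha, rfl⟩, fun _ _ _ _ _ _ q => q⟩
  rcases Lf0.dich c t a1 a2 (Opn.refl B) p with e | e
  · exact ⟨g, uglue_dn c c' l l' fun a ha => e a ha (c.mapsTo ha)⟩
  · exact ⟨τ ∘ g, uglue_dn c c' l (l'.deck t c' (Opn.refl B)) fun a ha =>
      (congrArg τ (e a ha (c.mapsTo ha))).trans (t.inv a ha)⟩

end Pool.Agent.Lib.MP_b2e238_gt
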