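import Pool.Agent.Lib.MP_b2e238_gt.U.Defs

open scoped ContDiff Topology
open Set Metric

noncomputable section

namespace Pool.Agent.Lib.MP_b2e238_gt

variable {P V W V' : Type} [NormedAddCommGroup P] [NormedSpace ℝ P] [NormedAddCommGroup V]
  [NormedSpace ℝ V] [NormedAddCommGroup W] [NormedSpace ℝ W] [NormedAddCommGroup V']
  [NormedSpace ℝ V'] [FiniteDimensional ℝ P] [FiniteDimensional ℝ V] [FiniteDimensional ℝ W]
  [FiniteDimensional ℝ V']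
  {A : Set V} {A' : Set V'} {B F N N' : Set W} {π : V → W} {π' : V' → W} {φ : P × ℂ → V}
  {φ' : P × ℂ → V'} {ψ ψ' : P × ℂ → W} {w w' : P} {r r' : ℝ} {θ : P × ℂ → P × ℂ} {b : W}
  {H : W → W} {τ : V → V} {τ' : V' → V'} {h h' : V → V'}

/-! The square root is of class `C ^ 1`. -/

section
omit [FiniteDimensional ℝ P]

theorem uroot_sq : ContDiff ℝ ∞ (sq2 : P × ℂ → P × ℂ) := contDiff_fst.prodMk (contDiff_snd.pow 2)

theorem uroot_zero {f : P × ℂ → ℂ} {x : P} (k : ContinuousAt f (x, 0)) :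
    HasFDerivAt (fun u : P × ℂ => u.2 * f u) (f (x, 0) • ContinuousLinearMap.snd ℝ P ℂ) (x, 0) := by
  rw [hasFDerivAt_iff_isLittleO]
  have a : (fun u : P × ℂ => u.2) =O[𝓝 (x, 0)] fun u => u - (x, 0) :=
    .of_bound 1 (.of_forall fun u => by
      have := norm_snd_le (u - (x, 0))
      rwa [Prod.snd_sub, sub_zero, ← one_mul ‖u - _‖] at this)
  have b : (fun u => f u - f (x, 0)) =o[𝓝 (x, 0)] fun _ => (1 : ℝ) :=
    (Asymptotics.isLittleO_one_iff ℝ).2 (tendsto_sub_nhds_zero_iff.2 k)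
  refine ((a.norm_right.mul_isLittleO b).congr (fun u => ?_) fun u => mul_one _).of_norm_right
  simp only [smul_apply, ContinuousLinearMap.coe_snd', Prod.snd_sub, smul_eq_mul]
  ring

/-- the derivative along the zero set -/
theorem uroot_lin {c : P × ℂ → ℂ} {x : P} (d : DifferentiableAt ℝ c (x, 0))
    (z : ∀ᶠ y in 𝓝 x, c (y, 0) = 0)
    (k : fderiv ℝ c (x, 0) (0, .I) = .I * fderiv ℝ c (x, 0) (0, 1)) (v : P × ℂ) :
    fderiv ℝ c (x, 0) v = v.2 * fderiv ℝ c (x, 0) (0, 1) := by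
  have a : HasFDerivAt (fun y : P => c (y, 0)) (fderiv ℝ c (x, 0) ∘L .inl ℝ P ℂ) x :=
    d.hasFDerivAt.comp x (hasFDerivAt_prodMk_left x 0)
  have b : fderiv ℝ c (x, 0) (v.1, 0) = 0 :=
    DFunLike.congr_fun (a.unique ((hasFDerivAt_const (0 : ℂ) x).congr_of_eventuallyEq z)) v.1
  have e : v = (v.1, 0) + v.2.re • ((0 : P), (1 : ℂ)) + v.2.im • ((0 : P), Complex.I) := by
    ext <;> simp
  conv_lhs => rw [e]
  rw [map_add, map_add, map_smul, map_smul, b, k]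
  conv_rhs => rw [← Complex.re_add_im v.2]
  simp only [Complex.real_smul]
  ring

open Classical in
/-- the quotient by the normal coordinate -/
def urootQ (c : P × ℂ → ℂ) (u : P × ℂ) : ℂ := if u.2 = 0 then fderiv ℝ c u (0, 1) else c u / u.2

theorem uroot_pr (x : P) :
    Filter.Tendsto (fun u : P × ℂ => (u.1, (0 : ℂ))) (𝓝 (x, 0)) (𝓝 (x, 0)) :=
  (continuous_fst.prodMk continuous_const).tendsto' _ _ rfl

theorem uroot_sqt (x : P) : Filter.Tendsto (sq2 : P × ℂ → P × ℂ) (𝓝 (x, 0)) (𝓝 (x, 0)) :=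
  uroot_sq.continuous.tendsto' _ _ (by simp [sq2])

theorem uroot_Q {c : P × ℂ → ℂ} {x : P} (d : ContDiffAt ℝ ∞ c (x, 0))
    (z : ∀ᶠ y in 𝓝 x, c (y, 0) = 0)
    (k : ∀ v, fderiv ℝ c (x, 0) v = v.2 * fderiv ℝ c (x, 0) (0, 1)) :
    ContinuousAt (urootQ c) (x, 0) := by
  refine Metric.tendsto_nhds.2 fun ε p => ?_
  have a : ContinuousAt (fun u => fderiv ℝ c u (0, 1)) (x, 0) :=
    (d.continuousAt_fderiv (by simp)).clm_apply continuousAt_const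
  have b := (Filter.tendsto_id.prodMk_nhds (uroot_pr x)).eventually
    ((d.hasStrictFDerivAt (by simp)).isLittleO.bound (half_pos p))
  filter_upwards [Metric.tendsto_nhds.1 a ε p, b,
    (continuous_fst.tendsto ((x, 0) : P × ℂ)).eventually z] with u a b z
  simp only [urootQ, if_true]
  split_ifs with e
  · exact a
  have n : 0 < ‖u.2‖ := norm_pos_iff.2 e
  have f : u - (u.1, 0) = (0, u.2) := by ext <;> simp
  simp only [id, z, sub_zero, f, k (0, u.2), Prod.norm_mk, norm_zero, norm_nonneg,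
    max_eq_right] at b
  rw [dist_eq_norm, div_sub' e, norm_div, div_lt_iff₀ n]
  nlinarith

/-- the derivative off the zero set is close to the model -/
theorem uroot_est {c R : P × ℂ → ℂ} {u : P × ℂ} {α : ℂ} {K : ℝ} (n : u.2 ≠ 0) (nR : R u ≠ 0)
    (dc : DifferentiableAt ℝ c (sq2 u)) (ds : DifferentiableAt ℝ (fun v : P × ℂ => v.2 * R v) u)
    (e : ∀ᶠ v in 𝓝 u, (v.2 * R v) ^ 2 = c (sq2 v)) {D : P × ℂ →L[ℝ] ℂ} (k : ∀ v, D v = v.2 * α)
    (b : ‖fderiv ℝ c (sq2 u) - D‖ ≤ K * ‖u.2‖ ^ 2) (s : ‖u.2‖ ≤ 1 / 2) :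
    ‖fderiv ℝ (fun v : P × ℂ => v.2 * R v) u - (α / R u) • ContinuousLinearMap.snd ℝ P ℂ‖ ≤
      K * ‖u.2‖ / ‖R u‖ := by
  have n0 : 0 < ‖u.2‖ := norm_pos_iff.2 n
  have r0 : 0 < ‖R u‖ := norm_pos_iff.2 nR
  have K0 : 0 ≤ K := nonneg_of_mul_nonneg_left ((norm_nonneg _).trans b) (by positivity)
  have h1 : HasFDerivAt (sq2 : P × ℂ → P × ℂ) _ u :=
    hasFDerivAt_fst.prodMk ((hasFDerivAt_snd (𝕜 := ℝ)).pow 2)
  have h2 := (ds.hasFDerivAt.pow 2).unique ((dc.hasFDerivAt.comp u h1).congr_of_eventuallyEq e)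
  refine ContinuousLinearMap.opNorm_le_bound _ (by positivity) fun v => ?_
  have h3 : 2 * (u.2 * R u) * fderiv ℝ (fun v : P × ℂ => v.2 * R v) u v =
      fderiv ℝ c (sq2 u) (v.1, 2 * u.2 * v.2) := by
    simpa using DFunLike.congr_fun h2 v
  have h4 : (fderiv ℝ (fun v : P × ℂ => v.2 * R v) u -
      (α / R u) • ContinuousLinearMap.snd ℝ P ℂ) v =
      (fderiv ℝ c (sq2 u) - D) (v.1, 2 * u.2 * v.2) / (2 * (u.2 * R u)) := by
    simp only [sub_apply, ← h3, k, smul_apply,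
      ContinuousLinearMap.coe_snd', smul_eq_mul]
    field_simp
  have h5 : ‖((v.1, 2 * u.2 * v.2) : P × ℂ)‖ ≤ ‖v‖ := by
    refine max_le (norm_fst_le v) (le_trans ?_ (norm_snd_le v))
    rw [norm_mul, norm_mul, Complex.norm_two]
    nlinarith [norm_nonneg v.2]
  have h6 := (fderiv ℝ c (sq2 u) - D).le_of_opNorm_le_of_le b h5
  rw [h4, norm_div, norm_mul, norm_mul, Complex.norm_two, div_le_iff₀ (by positivity)]
  refine h6.trans ?_
  have : K * ‖u.2‖ / ‖R u‖ * ‖v‖ * (2 * (‖u.2‖ * ‖R u‖)) = 2 * (K * ‖u.2‖ ^ 2 * ‖v‖) := by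
    field_simp
  rw [this]
  have : 0 ≤ K * ‖u.2‖ ^ 2 * ‖v‖ := by positivity
  linarith

theorem uroot_core {c : P × ℂ → ℂ} {O : Set (P × ℂ)} (o : IsOpen O) (m : (w, (0 : ℂ)) ∈ O)
    (d : ContDiffOn ℝ ∞ c O) (z0 : ∀ u ∈ O, c u = 0 ↔ u.2 = 0)
    (k : ∀ x, (x, (0 : ℂ)) ∈ O → fderiv ℝ c (x, 0) (0, .I) = .I * fderiv ℝ c (x, 0) (0, 1) ∨
      fderiv ℝ c (x, 0) (0, .I) = -(.I * fderiv ℝ c (x, 0) (0, 1)))
    (n : fderiv ℝ c (w, 0) (0, 1) ≠ 0)
    (pl : fderiv ℝ c (w, 0) (0, .I) = .I * fderiv ℝ c (w, 0) (0, 1)) :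
    ∀ᶠ ρ in 𝓝[>] (0 : ℝ), ∃ s : P × ℂ → ℂ,
      ContDiffOn ℝ 1 s (Pd w ρ ρ) ∧ ∀ u ∈ Pd w ρ ρ, sq2 u ∈ O ∧ s u ^ 2 = c (sq2 u) ∧
        s (u.1, -u.2) = -s u ∧ (u.2 ≠ 0 → ContDiffAt ℝ ∞ s u) := by
  have da : ∀ u ∈ O, ContDiffAt ℝ ∞ c u := fun u hu => d.contDiffAt (o.mem_nhds hu)
  have zz : ∀ x, (x, (0 : ℂ)) ∈ O → ∀ᶠ y in 𝓝 x, c (y, 0) = 0 := fun x hx =>
    (((continuous_id.prodMk continuous_const).tendsto x).eventually (o.mem_nhds hx)).mono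
      fun y hy => (z0 _ hy).2 rfl
  have cα : ∀ x, (x, (0 : ℂ)) ∈ O → ∀ v,
      ContinuousAt (fun u : P × ℂ => fderiv ℝ c (u.1, 0) v) (x, 0) := fun x hx v =>
    Filter.Tendsto.comp (((da _ hx).continuousAt_fderiv (by simp)).clm_apply
      (continuousAt_const (y := v))) (uroot_pr x)
  obtain ⟨α, hα⟩ : ∃ α, α = fderiv ℝ c (w, 0) (0, 1) := ⟨_, rfl⟩
  obtain ⟨β, hβ⟩ := IsAlgClosed.exists_pow_nat_eq α two_pos
  have α0 : α ≠ 0 := hα ▸ n
  have β0 : β ≠ 0 := fun e => α0 (by rw [← hβ, e]; simp)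
  have e1 : ∀ᶠ u in 𝓝 ((w, 0) : P × ℂ), urootQ c (sq2 u) / α ∈ Complex.slitPlane :=
    ((Filter.Tendsto.comp (uroot_Q (da _ m) (zz w m) (uroot_lin ((da _ m).differentiableAt
      (by simp)) (zz w m) pl)) (uroot_sqt w)).div_const α).eventually
      (Complex.isOpen_slitPlane.mem_nhds (by simp [urootQ, ← hα, α0]))
  have e2 : ∀ᶠ u in 𝓝 ((w, 0) : P × ℂ),
      fderiv ℝ c (u.1, 0) (0, .I) + .I * fderiv ℝ c (u.1, 0) (0, 1) ≠ 0 :=
    ((cα w m _).add (continuousAt_const.mul (cα w m _))).eventually_ne (by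
      change fderiv ℝ c (w, 0) (0, .I) + .I * fderiv ℝ c (w, 0) (0, 1) ≠ 0
      rw [pl, ← two_mul]
      exact mul_ne_zero two_ne_zero (mul_ne_zero Complex.I_ne_zero n))
  obtain ⟨ε, p, hε⟩ := Metric.eventually_nhds_iff_ball.1 (e1.and (e2.and
    (((uroot_sqt w).eventually (o.mem_nhds m)).and ((uroot_pr w).eventually (o.mem_nhds m)))))
  filter_upwards [Ioc_mem_nhdsGT p] with ρ hρ
  have oU : IsOpen (Pd w ρ ρ) := isOpen_ball.prod isOpen_ball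
  have U : ∀ u ∈ Pd w ρ ρ, _ := fun u hu =>
    hε u (ball_subset_ball hρ.2 (ball_prod_same w (0 : ℂ) ρ ▸ hu))
  have lin : ∀ u ∈ Pd w ρ ρ, ∀ v, fderiv ℝ c (u.1, 0) v = v.2 * fderiv ℝ c (u.1, 0) (0, 1) :=
    fun u hu => uroot_lin ((da _ (U u hu).2.2.2).differentiableAt (by simp)) (zz _ (U u hu).2.2.2)
      ((k _ (U u hu).2.2.2).resolve_right fun e => (U u hu).2.1 (by rw [e, neg_add_cancel]))
  obtain ⟨R, hR⟩ : ∃ R : P × ℂ → ℂ,
    R = fun u => β * Complex.exp (Complex.log (urootQ c (sq2 u) / α) / 2) := ⟨_, rfl⟩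
  have R0 : ∀ u, R u ≠ 0 := fun u => hR ▸ mul_ne_zero β0 (Complex.exp_ne_zero _)
  have R2 : ∀ u ∈ Pd w ρ ρ, R u ^ 2 = urootQ c (sq2 u) := fun u hu => by
    rw [hR, mul_pow, hβ, ← Complex.exp_nat_mul, Nat.cast_ofNat, mul_div_cancel₀ _ two_ne_zero,
      Complex.exp_log (Complex.slitPlane_ne_zero (U u hu).1), mul_div_cancel₀ _ α0]
  have s2 : ∀ u ∈ Pd w ρ ρ, (u.2 * R u) ^ 2 = c (sq2 u) := fun u hu => by
    by_cases e : u.2 = 0
    · rw [(z0 _ (U u hu).2.2.1).2 (by simp [sq2, e]), e]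
      simp
    · have : (sq2 u).2 ≠ 0 := pow_ne_zero 2 e
      rw [mul_pow, R2 u hu, urootQ, if_neg this]
      exact mul_div_cancel₀ _ this
  have sm : ∀ u ∈ Pd w ρ ρ, u.2 ≠ 0 → ContDiffAt ℝ ∞ (fun v : P × ℂ => v.2 * R v) u := by
    intro u hu e
    have q : ContDiffAt ℝ ∞ (fun v => urootQ c (sq2 v)) u := by
      refine (((da _ (U u hu).2.2.1).comp u uroot_sq.contDiffAt).mul
        ((contDiffAt_snd.pow 2).inv (pow_ne_zero 2 e))).congr_of_eventuallyEq ?_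
      filter_upwards [continuous_snd.continuousAt.eventually_ne e] with v hv
      exact (if_neg (pow_ne_zero 2 hv)).trans (div_eq_mul_inv _ _)
    have l : ContDiffAt ℝ ∞ (fun v => Complex.log (urootQ c (sq2 v) / α)) u :=
      ContDiffAt.comp (g := Complex.log) u
        ((Complex.contDiffAt_log (U u hu).1).restrict_scalars ℝ) (q.div_const α)
    rw [hR]
    exact contDiffAt_snd.mul (contDiffAt_const.mul (l.div_const 2).cexp)
  have cR : ∀ x, (x, (0 : ℂ)) ∈ Pd w ρ ρ → ContinuousAt R (x, 0) := fun x hx => by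
    have q : ContinuousAt (fun v => urootQ c (sq2 v)) (x, 0) := by
      have := (uroot_Q (da _ (U _ hx).2.2.2) (zz _ (U _ hx).2.2.2) (lin _ hx)).tendsto.comp
        (uroot_sqt x)
      have e : sq2 ((x, 0) : P × ℂ) = (x, 0) := by simp [sq2]
      rw [ContinuousAt, e]
      exact this
    rw [hR]
    exact continuousAt_const.mul (((q.div_const α).clog (U _ hx).1).div_const 2).cexp
  have f0 : ∀ x, (x, (0 : ℂ)) ∈ Pd w ρ ρ → fderiv ℝ (fun v : P × ℂ => v.2 * R v) (x, 0) =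
      (fderiv ℝ c (x, 0) (0, 1) / R (x, 0)) • ContinuousLinearMap.snd ℝ P ℂ := fun x hx => by
    have e := R2 _ hx
    simp only [urootQ, sq2, ne_eq, OfNat.ofNat_ne_zero, not_false_eq_true, zero_pow, if_true] at e
    rw [(uroot_zero (cR x hx)).fderiv, ← e, sq, mul_div_cancel_right₀ _ (R0 _)]
  refine ⟨fun v => v.2 * R v, ?_, fun u hu => ⟨(U u hu).2.2.1, s2 u hu, ?_, sm u hu⟩⟩
  swap
  · simp only [hR, sq2, neg_sq, neg_mul]
  rw [show (1 : WithTop ℕ∞) = 0 + 1 from rfl, contDiffOn_succ_iff_fderiv_of_isOpen oU,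
    contDiffOn_zero]
  refine ⟨fun ⟨x, z⟩ hu => ?_, by simp, fun ⟨x, z⟩ hu => ContinuousAt.continuousWithinAt ?_⟩
  · by_cases e : z = 0
    · subst e
      exact (uroot_zero (cR x hu)).differentiableAt.differentiableWithinAt
    · exact ((sm _ hu e).differentiableAt (by simp)).differentiableWithinAt
  by_cases e : z = 0
  swap
  · exact (sm _ hu e).continuousAt_fderiv (by simp)
  subst e
  have xO := (U _ hu).2.2.2
  obtain ⟨K, hK⟩ := ((((da _ xO).fderiv_right (m := 1) (by norm_cast)).hasStrictFDerivAt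
    one_ne_zero).isBigO_sub).bound
  have b := ((uroot_sqt x).prodMk_nhds (uroot_pr x)).eventually hK
  have M : ContinuousAt (fun u : P × ℂ => (fderiv ℝ c (u.1, 0) (0, 1) / R u) •
      ContinuousLinearMap.snd ℝ P ℂ) (x, 0) :=
    ((cα x xO _).div (cR x hu) (R0 _)).smul continuousAt_const
  have t : Filter.Tendsto (fun u : P × ℂ => K * ‖u.2‖ / ‖R u‖) (𝓝 (x, 0)) (𝓝 0) := by
    have : ContinuousAt (fun u : P × ℂ => K * ‖u.2‖ / ‖R u‖) (x, 0) :=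
      (continuousAt_const.mul continuous_snd.norm.continuousAt).div (cR x hu).norm
        (norm_ne_zero_iff.2 (R0 _))
    simpa using this.tendsto
  rw [ContinuousAt, f0 x hu]
  refine M.tendsto.congr_dist (squeeze_zero' (.of_forall fun _ => dist_nonneg) ?_ t)
  have sn : ∀ᶠ u in 𝓝 ((x, 0) : P × ℂ), ‖u.2‖ < 1 / 2 :=
    continuous_snd.norm.continuousAt.eventually_lt continuousAt_const (by simp)
  filter_upwards [b, oU.mem_nhds hu, sn] with ⟨y, z⟩ b hv sn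
  by_cases e : z = 0
  · subst e
    rw [f0 y hv]
    simp
  rw [dist_comm, dist_eq_norm]
  refine uroot_est e (R0 _) ((da _ (U _ hv).2.2.1).differentiableAt (by simp))
    ((sm _ hv e).differentiableAt (by simp)) ((oU.eventually_mem hv).mono s2) (lin _ hv) ?_ sn.le
  simpa [sq2] using b

end

theorem exists_root {c : P × ℂ → ℂ} {O : Set (P × ℂ)} (o : IsOpen O) (m : (w, (0 : ℂ)) ∈ O)
    (d : ContDiffOn ℝ ∞ c O) (z0 : ∀ u ∈ O, c u = 0 ↔ u.2 = 0)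
    (k : ∀ x, (x, (0 : ℂ)) ∈ O → Cn2 (fderiv ℝ c (x, 0) ∘L ContinuousLinearMap.inr ℝ P ℂ))
    (n : fderiv ℝ c (w, 0) (0, 1) ≠ 0) : ∀ᶠ ρ in 𝓝[>] (0 : ℝ), ∃ s : P × ℂ → ℂ,
      ContDiffOn ℝ 1 s (Pd w ρ ρ) ∧ ∀ u ∈ Pd w ρ ρ, sq2 u ∈ O ∧ s u ^ 2 = c (sq2 u) ∧
        s (u.1, -u.2) = -s u ∧ (u.2 ≠ 0 → ContDiffAt ℝ ∞ s u) := by
  rcases k w m with pl | mi
  · exact uroot_core o m d z0 k n pl
  have fd : ∀ x, (x, (0 : ℂ)) ∈ O → ∀ v, fderiv ℝ (Complex.conjCLE ∘ c) (x, 0) v =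
      starRingEnd ℂ (fderiv ℝ c (x, 0) v) := fun x _ v => by
    rw [Complex.conjCLE.comp_fderiv]
    rfl
  have key : ∀ x, (x, (0 : ℂ)) ∈ O → ∀ e : ℂ, (starRingEnd ℂ) e = -e →
      fderiv ℝ c (x, 0) (0, .I) = e * fderiv ℝ c (x, 0) (0, 1) →
      fderiv ℝ (Complex.conjCLE ∘ c) (x, 0) (0, .I) =
        -(e * fderiv ℝ (Complex.conjCLE ∘ c) (x, 0) (0, 1)) := fun x hx e a b => by
    rw [fd x hx, fd x hx, b, map_mul, a, neg_mul]
  have mn : ∀ x, (x, (0 : ℂ)) ∈ O → fderiv ℝ c (x, 0) (0, .I) = -(.I * fderiv ℝ c (x, 0) (0, 1)) →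
      fderiv ℝ (Complex.conjCLE ∘ c) (x, 0) (0, .I) =
        .I * fderiv ℝ (Complex.conjCLE ∘ c) (x, 0) (0, 1) := fun x hx b => by
    rw [key x hx (-.I) (by simp) (by rw [b, neg_mul]), neg_mul, neg_neg]
  filter_upwards [uroot_core (c := Complex.conjCLE ∘ c) o m
    (Complex.conjCLE.contDiff.comp_contDiffOn d) (fun u hu => by simpa using z0 u hu)
    (fun x hx => (k x hx).symm.imp (mn x hx) (key x hx .I Complex.conj_I))
    (by rw [fd w m]; simpa using n) (mn w m mi)] with ρ ⟨s, a, b⟩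
  refine ⟨Complex.conjCLE ∘ s, Complex.conjCLE.contDiff.comp_contDiffOn a, fun u hu =>
    ⟨(b u hu).1, ?_, ?_, fun e => Complex.conjCLE.contDiff.contDiffAt.comp u ((b u hu).2.2.2 e)⟩⟩
  · have := congrArg (starRingEnd ℂ) (b u hu).2.1
    simpa using this
  · simp only [Function.comp_apply, (b u hu).2.2.1, map_neg]

end Pool.Agent.Lib.MP_b2e238_gt
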