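import Pool.Agent.Lib.MP_b2e238_gt.U.Sec
import Pool.Agent.Lib.MP_b2e238_gt.U.Conf
import Pool.Agent.Lib.MP_b2e238_gt.U.Root

/-! Local lifts of the identity between two branched double covers. -/

open scoped ContDiff Topology
open Set Metric

noncomputable section

namespace Pool.Agent.Lib.MP_b2e238_gt

variable {P V W V' : Type} [NormedAddCommGroup P] [NormedSpace ℝ P] [NormedAddCommGroup V]
  [NormedSpace ℝ V] [NormedAddCommGroup W] [NormedSpace ℝ W] [NormedAddCommGroup V']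
  [NormedSpace ℝ V'] [FiniteDimensional ℝ P] [FiniteDimensional ℝ V] [FiniteDimensional ℝ W]
  [FiniteDimensional ℝ V']
  {A : Set V} {A' : Set V'} {B F N N' : Set W} {π : V → W} {π' : V' → W} {φ : P × ℂ → V}
  {φ' : P × ℂ → V'} {ψ ψ' : P × ℂ → W} {w w' : P} {r r' : ℝ} {θ : P × ℂ → P × ℂ} {b : W}
  {H : W → W} {τ : V → V} {τ' : V' → V'} {h h' : V → V'}

omit [NormedSpace ℝ V] [NormedSpace ℝ V'] [FiniteDimensional ℝ V] [FiniteDimensional ℝ V'] in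
theorem uloc_ne {f g : V → V'} {a : V} (hf : ContinuousWithinAt f A a)
    (hg : ContinuousWithinAt g A a) (k : f a ≠ g a) : ∀ᶠ x in 𝓝[A] a, f x ≠ g x :=
  (hf.prodMk hg).eventually (isClosed_diagonal.isOpen_compl.mem_nhds k)

theorem lf_off (c : Br P A B F π) (c' : Br P A' B F π') (hb : b ∈ B) (k : b ∉ F) :
    ∃ N ∈ 𝓝[B] b, ∃ h, Lf A A' F π π' N h := by
  classical
  obtain ⟨a₀, ha₀, rfl⟩ := c.surj hb
  obtain ⟨a₁, ha₁, e₁⟩ := c'.surj hb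
  obtain ⟨N, σ, o, m, dj, sm, -, sec⟩ := c.sec ha₀ k
  obtain ⟨N', σ', o', m', -, sm', -, sec'⟩ := c'.sec ha₁ (e₁ ▸ k)
  obtain ⟨τ, t⟩ := c.deck
  obtain ⟨τ', t'⟩ := c'.deck
  have top : ∀ a ∈ A, π a ∈ N ∩ N' → ContDiffWithinAt ℝ ∞
      (fun x => if σ (π x) = x then σ' (π x) else τ' (σ' (π x))) A a := fun a ha n => by
    have cπ := c.contOn.1 a ha
    have ev : ∀ᶠ x in 𝓝[A] a, π x ∈ N ∩ N' :=
      cπ.continuousWithinAt.tendsto_nhdsWithin c.mapsTo ((o.inter o').2 _ n)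
    have c1 : ContDiffWithinAt ℝ ∞ (σ ∘ π) A a :=
      ((sm _ n.1).mono_of_mem_nhdsWithin (o.2 _ n.1)).comp a cπ c.mapsTo
    have c2 : ContDiffWithinAt ℝ ∞ (σ' ∘ π) A a :=
      ((sm' _ n.2).mono_of_mem_nhdsWithin (o'.2 _ n.2)).comp a cπ c.mapsTo
    by_cases e : σ (π a) = a
    · have ne : (σ ∘ π) a ≠ τ a := fun q =>
        disjoint_left.1 dj n.1 ((t.fix a ha).1 (q.symm.trans e))
      refine c2.congr_of_eventuallyEq ?_ (if_pos e)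
      filter_upwards [ev, uloc_ne c1.continuousWithinAt (t.sm a ha).continuousWithinAt ne,
        self_mem_nhdsWithin] with x h1 h2 h3
      exact if_pos ((t.fib x h3 _ (sec _ h1.1).1 (sec _ h1.1).2).resolve_right h2)
    · have c3 : ContDiffWithinAt ℝ ∞ (τ' ∘ σ' ∘ π) A a :=
        (t'.sm _ (sec' _ n.2).1).comp_of_preimage_mem_nhdsWithin a c2
          (ev.mono fun x hx => (sec' _ hx.2).1)
      refine c3.congr_of_eventuallyEq ?_ (if_neg e)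
      filter_upwards [uloc_ne c1.continuousWithinAt continuousWithinAt_id e] with x h2
      exact if_neg h2
  refine ⟨N ∩ N', (o.inter o').2 _ ⟨m, e₁ ▸ m'⟩, _, fun a ha n => (top a ha n).of_le (by simp),
    fun a ha n _ => top a ha n, fun a _ n => ?_, fun a ha a' ha' n e q => ?_⟩
  · obtain ⟨s1, s2⟩ := sec' _ n.2
    split_ifs
    exacts [⟨s1, s2⟩, ⟨t'.maps s1, (t'.ovr _ s1).trans s2⟩]
  · obtain ⟨s1, s2⟩ := sec' _ n.2
    obtain ⟨s3, s4⟩ := sec _ n.1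
    have ne : τ' (σ' (π a)) ≠ σ' (π a) := fun q =>
      disjoint_left.1 dj n.1 (s2 ▸ (t'.fix _ s1).1 q)
    simp only [e] at q
    split_ifs at q with h1 h2 h2
    · exact h1.symm.trans h2
    · exact absurd q.symm ne
    · exact absurd q ne
    · exact ((t.fib _ s3 a' ha' (e.trans s4.symm)).resolve_left fun x => h1 x.symm).trans
        ((t.fib _ s3 a ha s4.symm).resolve_left fun x => h2 x.symm).symm

theorem lf_on (c : Br P A B F π) (c' : Br P A' B F π') (m : ∀ b ∈ F, Mt P A A' B F π π' b)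
    (hb : b ∈ F) : ∃ N ∈ 𝓝[B] b, ∃ h, Lf A A' F π π' N h := by
  obtain ⟨φ, ψ, w, r, s, rfl⟩ := c.sq hb
  obtain ⟨φ', ψ', w', r', s', e'⟩ := c'.sq hb
  obtain ⟨θ, o, sm, eq⟩ := par_tr s.dn s'.dn
  set O := Pd w r (r ^ 2) ∩ ψ ⁻¹' (ψ' '' Pd w' r' (r' ^ 2)) with hO
  have w0 : (w, (0 : ℂ)) ∈ O := ⟨⟨mem_ball_self s.pos, mem_ball_self (pow_pos s.pos 2)⟩, _,
    ⟨mem_ball_self s'.pos, mem_ball_self (pow_pos s'.pos 2)⟩, e'⟩
  have z0 : ∀ u ∈ O, (θ u).2 = 0 ↔ u.2 = 0 := fun u hu => by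
    rw [← s'.mem _ (eq u hu).1, (eq u hu).2, s.mem u hu.1]
  have key : ∀ x, (x, (0 : ℂ)) ∈ O →
      Cn2 (fderiv ℝ (fun u => (θ u).2) (x, 0) ∘L ContinuousLinearMap.inr ℝ P ℂ) ∧
        fderiv ℝ (fun u => (θ u).2) (x, 0) (0, 1) ≠ 0 := fun x hx => by
    have d : DifferentiableAt ℝ θ (x, 0) :=
      (sm.contDiffAt (o.mem_nhds hx)).differentiableAt (by simp)
    have t : Tr ψ ψ' θ x (θ (x, 0)).1 := ⟨d, Prod.ext rfl ((z0 _ hx).2 rfl),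
      Filter.eventually_of_mem (o.mem_nhds hx) fun v hv => (eq v hv).2⟩
    obtain ⟨ρ, s₁⟩ := (s.at hx.1.1).exists
    obtain ⟨ρ', s₂⟩ := (s'.at (eq _ hx).1.1).exists
    have e : fderiv ℝ (fun u => (θ u).2) (x, 0) ∘L ContinuousLinearMap.inr ℝ P ℂ = nd θ x := by
      rw [d.hasFDerivAt.snd.fderiv]; rfl
    refine ⟨e ▸ m _ ((s.mem _ hx.1).2 rfl) _ _ _ _ _ _ _ _ θ s₁ s₂ rfl t, fun q => ?_⟩
    have : nd θ x 1 = nd θ x 0 := by rw [← e, map_zero]; exact q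
    exact one_ne_zero (t.inj s₁ s₂ this)
  obtain ⟨ρ, ⟨g, g1, g2⟩, s₁⟩ := ((exists_root o w0 sm.snd z0 (fun x hx => (key x hx).1)
    (key w w0).2).and (s.at (mem_ball_self s.pos))).exists
  obtain ⟨χ, dχ⟩ := s₁.up.dif
  let G : P × ℂ → P × ℂ := fun u => ((θ (sq2 u)).1, g u)
  have G2 : ∀ u ∈ Pd w ρ ρ, sq2 (G u) = θ (sq2 u) := fun u hu => Prod.ext rfl (g2 u hu).2.1
  have Gm : ∀ u ∈ Pd w ρ ρ, G u ∈ Pd w' r' r' := fun u hu => by
    have a := (eq _ (g2 u hu).1).1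
    refine ⟨a.1, mem_ball_zero_iff.2 (lt_of_pow_lt_pow_left₀ 2 s'.pos.le ?_)⟩
    rw [← norm_pow, (g2 u hu).2.1]
    exact mem_ball_zero_iff.1 a.2
  have sm' : ∀ (n : ℕ∞), ∀ u ∈ Pd w ρ ρ, ContDiffAt ℝ n g u →
      ContDiffWithinAt ℝ n (φ' ∘ G ∘ χ) A (φ u) := fun n u hu hg => by
    have le : (n : WithTop ℕ∞) ≤ ∞ := by exact_mod_cast le_top
    have c1 : ContDiffWithinAt ℝ n χ A (φ u) :=
      ((dχ.cG _ ⟨u, hu, rfl⟩).mono_of_mem_nhdsWithin (s₁.up.opn.2 _ ⟨u, hu, rfl⟩)).of_le le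
    have c0 : ContDiffAt ℝ ∞ (sq2 : P × ℂ → P × ℂ) u :=
      contDiffAt_fst.prodMk (contDiffAt_snd.pow 2)
    have c2 : ContDiffAt ℝ n G u :=
      (((sm.contDiffAt (o.mem_nhds (g2 u hu).1)).comp u c0).fst.of_le le).prodMk hg
    have c3 : ContDiffAt ℝ n φ' (G u) :=
      (s'.up.2.1.contDiffAt (s'.up.1.mem_nhds (Gm u hu))).of_le le
    have c4 : ContDiffAt ℝ n (φ' ∘ G) (χ (φ u)) := by
      rw [dχ.gf u hu]; exact c3.comp u c2
    exact c4.comp_contDiffWithinAt _ c1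
  refine ⟨ψ '' Pd w ρ (ρ ^ 2), s₁.dn.opn.2 _
    ⟨_, ⟨mem_ball_self s₁.pos, mem_ball_self (pow_pos s₁.pos 2)⟩, rfl⟩, φ' ∘ G ∘ χ,
    fun a ha n => ?_, fun a ha n k => ?_, fun a ha n => ?_, fun a ha a' ha' n e q => ?_⟩ <;>
    obtain ⟨u, hu, rfl⟩ := s₁.fib a ha n
  · exact sm' 1 u hu (g1.contDiffAt ((isOpen_Pd _ _ _).mem_nhds hu))
  · refine sm' ⊤ u hu ((g2 u hu).2.2.2 fun z => k ?_)
    rw [s₁.eq u hu, s₁.mem _ (sq2_mem hu)]
    simp [sq2, z]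
  · simp only [Function.comp, dχ.gf u hu]
    exact ⟨s'.up.2.2.2.1 (Gm u hu), by
      rw [s'.eq _ (Gm u hu), G2 u hu, (eq _ (g2 u hu).1).2, s₁.eq u hu]⟩
  · obtain ⟨v, hv, rfl⟩ := s₁.fib a' ha' (e ▸ n)
    simp only [Function.comp, dχ.gf u hu, dχ.gf v hv] at q
    rw [s₁.eq u hu, s₁.eq v hv] at e
    have e1 := s₁.dn.2.2.1 (sq2_mem hv) (sq2_mem hu) e
    have e2 : v.1 = u.1 := (Prod.ext_iff.1 e1).1
    have e3 : g v = g u := congrArg Prod.snd (s'.up.2.2.1 (Gm v hv) (Gm u hu) q)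
    rcases sq_eq_sq_iff_eq_or_eq_neg.1 (show v.2 ^ 2 = u.2 ^ 2 from congrArg Prod.snd e1) with y | y
    · exact congrArg φ (Prod.ext e2 y)
    · have e4 : v = (u.1, -u.2) := Prod.ext e2 y
      rw [e4, (g2 u hu).2.2.1] at e3
      have e5 : g u = 0 := by linear_combination (-1 / 2 : ℂ) * e3
      have e6 := (z0 _ (g2 u hu).1).1 (by rw [← (g2 u hu).2.1, e5]; simp)
      have e7 : u.2 = 0 := pow_eq_zero_iff two_ne_zero |>.1 e6
      exact congrArg φ (Prod.ext e2 (by rw [y, e7, neg_zero]))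

end Pool.Agent.Lib.MP_b2e238_gt
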