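import Pool.Agent.Lib.MP_b2e238_gt.U.SmC
import Pool.Agent.Lib.MP_b2e238_gt.U.Push

/-! Smoothing on the manifold. -/

open scoped ContDiff Topology
open Set Metric

noncomputable section

namespace Pool.Agent.Lib.MP_b2e238_gt

variable {P V W V' : Type} [NormedAddCommGroup P] [NormedSpace ℝ P] [NormedAddCommGroup V]
  [NormedSpace ℝ V] [NormedAddCommGroup W] [NormedSpace ℝ W] [NormedAddCommGroup V']
  [NormedSpace ℝ V'] [FiniteDimensional ℝ P] [FiniteDimensional ℝ V] [FiniteDimensional ℝ W]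
  [FiniteDimensional ℝ V']
  {A : Set V} {A' : Set V'} {B F N N' : Set W} {π : V → W} {π' : V' → W} {φ : P × ℂ → V}
  {φ' : P × ℂ → V'} {ψ ψ' : P × ℂ → W} {w w' : P} {r r' : ℝ} {θ : P × ℂ → P × ℂ} {b : W}
  {H : W → W} {τ : V → V} {τ' : V' → V'} {h h' : V → V'}

/-- One half of the chart form of a `C ^ 1` diffeomorphism. -/
theorem usms_half {Q : Type} [NormedAddCommGroup Q] [NormedSpace ℝ Q] {X Y : Type}
    [NormedAddCommGroup X] [NormedSpace ℝ X] [NormedAddCommGroup Y] [NormedSpace ℝ Y]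
    {A : Set X} {A' : Set Y} {χ : Q → X} {χ' : Q → Y} {U U' : Set Q} {ψ : X → Q} {ψ' : Y → Q}
    (p : Par A χ U) (p' : Par A' χ' U') (k : Dif U (χ '' U) χ ψ) (k' : Dif U' (χ' '' U') χ' ψ')
    {Φ : X → Y} {Ψ : Y → X} (c : ContDiffOn ℝ (1 : ℕ∞) Φ A) (m : MapsTo Φ A A')
    (e : ∀ a ∈ A, Ψ (Φ a) = a) :
    IsOpen (U ∩ (Φ ∘ χ) ⁻¹' (χ' '' U')) ∧
      ContDiffOn ℝ (1 : ℕ∞) (ψ' ∘ Φ ∘ χ) (U ∩ (Φ ∘ χ) ⁻¹' (χ' '' U')) ∧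
      MapsTo (ψ' ∘ Φ ∘ χ) (U ∩ (Φ ∘ χ) ⁻¹' (χ' '' U')) (U' ∩ (Ψ ∘ χ') ⁻¹' (χ '' U)) ∧
      ∀ x ∈ U ∩ (Φ ∘ χ) ⁻¹' (χ' '' U'), (ψ ∘ Ψ ∘ χ') ((ψ' ∘ Φ ∘ χ) x) = x := by
  have l : ((1 : ℕ∞) : WithTop ℕ∞) ≤ ∞ := by exact_mod_cast le_top
  have c1 : ContDiffOn ℝ (1 : ℕ∞) (Φ ∘ χ) U := c.comp (p.2.1.of_le l) p.2.2.2.1
  have e1 : ∀ x ∈ U ∩ (Φ ∘ χ) ⁻¹' (χ' '' U'), Ψ (χ' (ψ' (Φ (χ x)))) = χ x := fun x hx =>
    (congrArg Ψ (k'.fg _ hx.2)).trans (e _ (p.2.2.2.1 hx.1))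
  exact ⟨par_pre c1.continuousOn p.1 p'.opn (m.comp p.2.2.2.1),
    (k'.cG.of_le l).comp (c1.mono inter_subset_left) fun x hx => hx.2,
    fun x hx => ⟨k'.mG hx.2, x, hx.1, (e1 x hx).symm⟩,
    fun x hx => (congrArg ψ (e1 x hx)).trans (k.gf x hx.1)⟩

theorem pz_loc {Q : Type} [NormedAddCommGroup Q] [NormedSpace ℝ Q] [FiniteDimensional ℝ Q]
    (m : Mf Q A) (m' : Mf Q A') {g : V' → V} (d : Dn 1 A A' h g) {a : V} (ha : a ∈ A) :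
    ∃ S ∈ 𝓝[A] a, Pz A A' h S := by
  have := FiniteDimensional.proper_real Q
  obtain ⟨χ, U, p, u, hu, rfl⟩ := m a ha
  obtain ⟨χ', U', p', hu'⟩ := m' _ (d.mF ha)
  obtain ⟨ψ, k⟩ := p.dif
  obtain ⟨ψ', k'⟩ := p'.dif
  obtain ⟨O₀, o₀, e₀⟩ := p'.open
  obtain ⟨r, r0, hr⟩ := nhds_basis_closedBall.mem_iff.1
    ((usms_half p p' k k' d.cF d.mF d.gf).1.mem_nhds ⟨hu, hu'⟩)
  obtain ⟨ρ, ρ0, rfl⟩ : ∃ ρ : ℝ, 0 < ρ ∧ r = 3 * ρ := ⟨r / 3, by positivity, by ring⟩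
  have sU : closedBall u (3 * ρ) ⊆ U := fun x hx => (hr hx).1
  obtain ⟨δ, δ0, hδ⟩ := ((isCompact_closedBall u (3 * ρ)).image_of_continuousOn
    ((d.cF.continuousOn.comp p.2.1.continuousOn p.2.2.2.1).mono sU)).exists_thickening_subset_open
    o₀ (by rintro _ ⟨x, hx, rfl⟩; exact (e₀.subset (hr hx).2).1)
  refine ⟨χ '' ball u ρ, (p.2.2.2.2 u hu).2 _ (ball_mem_nhds u ρ0), δ, δ0,
    fun Φ Ψ D nr ε ε0 => ?_⟩
  obtain ⟨o, c, mf, gf⟩ := usms_half p p' k k' D.cF D.mF D.gf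
  obtain ⟨o', c', mg, fg⟩ := usms_half p' p k' k D.cG D.mG D.fg
  have s : closedBall u (3 * ρ) ⊆ U ∩ (Φ ∘ χ) ⁻¹' (χ' '' U') := fun x hx =>
    ⟨sU hx, e₀.superset ⟨hδ (mem_thickening_iff.2 ⟨_, ⟨x, hx, rfl⟩, nr _ (p.2.2.2.1 (sU hx))⟩),
      D.mF (p.2.2.2.1 (sU hx))⟩⟩
  have s2 := (closedBall_subset_closedBall (show 2 * ρ ≤ 3 * ρ by linarith)).trans s
  have kK := (isCompact_closedBall u (2 * ρ)).image_of_continuousOn (c.continuousOn.mono s2)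
  have sK : (ψ' ∘ Φ ∘ χ) '' closedBall u (2 * ρ) ⊆ U' := by
    rintro _ ⟨x, hx, rfl⟩
    exact (mf (s2 hx)).1
  obtain ⟨η, η0, hη⟩ := uniformContinuousOn_iff.1
    (kK.uniformContinuousOn_of_continuous (p'.2.1.continuousOn.mono sK)) ε ε0
  obtain ⟨E, E', dE, e1, e2, e3⟩ := sm_chart o o' ⟨c, c', mf, mg, gf, fg⟩ ρ0 s η0
  obtain ⟨H, H', dH, h1, h2, h3⟩ := p'.push kK sK dE e1
  refine ⟨H ∘ Φ, Ψ ∘ H', D.trans dH, fun x hx => ⟨?_, fun q => ?_⟩⟩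
  · by_cases z : Φ x ∈ χ' '' ((ψ' ∘ Φ ∘ χ) '' closedBall u (2 * ρ))
    · obtain ⟨y, hy, e⟩ := z
      rw [Function.comp_apply, ← e, (h1 y (sK hy)).2]
      exact hη _ (h2 y hy) _ hy (e2 y)
    · rwa [Function.comp_apply, h3 _ z, dist_self]
  by_cases z : x ∈ χ '' (U ∩ (Φ ∘ χ) ⁻¹' (χ' '' U'))
  · obtain ⟨v, hv, rfl⟩ := z
    have a1 : ContDiffAt ℝ ∞ (E ∘ ψ' ∘ Φ ∘ χ) v := e3 v hv (q.imp
      (fun ⟨v', b, e⟩ => p.2.2.1 (sU (ball_subset_closedBall.trans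
        (closedBall_subset_closedBall (by linarith)) b)) hv.1 e ▸ b)
      fun b => ((k'.cG _ hv.2).comp v ((b.comp v (p.2.1 v hv.1) p.2.2.2.1).mono
        inter_subset_left) fun y hy => hy.2).contDiffAt (o.mem_nhds hv))
    have a2 : ContDiffAt ℝ ∞ (χ' ∘ E ∘ ψ' ∘ Φ ∘ χ) (ψ (χ v)) := by
      rw [k.gf v hv.1]
      exact (p'.2.1.contDiffAt (p'.1.mem_nhds (h1 _ (mf hv).1).1)).comp v a1
    have e : ∀ y ∈ χ '' (U ∩ (Φ ∘ χ) ⁻¹' (χ' '' U')),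
        (H ∘ Φ) y = ((χ' ∘ E ∘ ψ' ∘ Φ ∘ χ) ∘ ψ) y := by
      rintro _ ⟨y, hy, rfl⟩
      rw [Function.comp_apply (g := ψ), k.gf y hy.1]
      exact (congrArg H (k'.fg _ hy.2).symm).trans (h1 _ (mf hy).1).2
    exact (a2.comp_contDiffWithinAt _ ((k.cG _ ⟨v, hv.1, rfl⟩).mono_of_mem_nhdsWithin
      (p.opn.2 _ ⟨v, hv.1, rfl⟩))).congr_of_eventuallyEq_of_mem
      (Filter.mem_of_superset ((p.2.2.2.2 v hv.1).2 _ (o.mem_nhds hv)) e) hx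
  · have b := q.resolve_left fun ⟨v, hv, e⟩ => z ⟨v, s (ball_subset_closedBall.trans
      (closedBall_subset_closedBall (by linarith)) hv), e⟩
    have n : Φ x ∉ χ' '' ((ψ' ∘ Φ ∘ χ) '' closedBall u (2 * ρ)) := by
      rintro ⟨_, ⟨v, hv, rfl⟩, e⟩
      refine z ⟨v, s2 hv, ?_⟩
      rw [← D.gf x hx, ← e]
      exact ((congrArg Ψ (k'.fg _ (s2 hv).2)).trans (D.gf _ (p.2.2.2.1 (s2 hv).1))).symm
    refine b.congr_of_eventuallyEq_of_mem (Filter.mem_of_superset (b.continuousWithinAt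
      ((kK.image_of_continuousOn (p'.2.1.continuousOn.mono sK)).isClosed.isOpen_compl.mem_nhds n))
      fun y hy => h3 _ hy) hx

end Pool.Agent.Lib.MP_b2e238_gt
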