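import Pool.Agent.Lib.MP_b2e238_gt.U.Cube
import Pool.Agent.Lib.MP_b2e238_gt.K.Sph

/-! Monodromy on the four-sphere. -/

open scoped ContDiff Topology
open Set Metric

noncomputable section

namespace Pool.Agent.Lib.MP_b2e238_gt

/-- Bands of the sphere are preconnected. -/
theorem usph_band {I : Set ℝ} (p : IsPreconnected I) (s : I ⊆ Icc (-1) 1) :
    IsPreconnected (Sph ℂ ∩ {b | b.1.1 ∈ I}) := by
  have h0 : IsPreconnected ({0}ᶜ : Set (ℂ × ℂ)) :=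
    (isConnected_compl_singleton_of_one_lt_rank (by
      rw [← Module.finrank_eq_rank]; simp) 0).isPreconnected
  have q0 : ∀ v : ℂ × ℂ, v ≠ 0 → 0 < ‖v.1‖ ^ 2 + ‖v.2‖ ^ 2 := fun v hv => by
    by_contra k
    have a := sq_nonneg ‖v.1‖
    have b := sq_nonneg ‖v.2‖
    have a' : ‖v.1‖ ^ 2 = 0 := by linarith
    have b' : ‖v.2‖ ^ 2 = 0 := by linarith
    exact hv (Prod.ext (by simpa using a') (by simpa using b'))
  let c : ℝ × ℂ × ℂ → ℝ := fun u => √(1 - u.1 ^ 2) / √(‖u.2.1‖ ^ 2 + ‖u.2.2‖ ^ 2)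
  let f : ℝ × ℂ × ℂ → (ℝ × ℂ) × ℂ := fun u => ((u.1, c u • u.2.1), c u • u.2.2)
  have hc : ContinuousOn c (I ×ˢ {0}ᶜ) :=
    ContinuousOn.div (by fun_prop) (by fun_prop) fun u hu =>
      (Real.sqrt_pos.2 (q0 u.2 hu.2)).ne'
  have hf : ContinuousOn f (I ×ˢ {0}ᶜ) :=
    (continuousOn_fst.prodMk (hc.smul (by fun_prop))).prodMk (hc.smul (by fun_prop))
  have e : Sph ℂ ∩ {b | b.1.1 ∈ I} = f '' (I ×ˢ {0}ᶜ) := by
    ext b
    constructor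
    · rintro ⟨hb, hi⟩
      have hb' : b.1.1 ^ 2 + ‖b.1.2‖ ^ 2 + ‖b.2‖ ^ 2 = 1 := hb
      by_cases k : (b.1.2, b.2) = (0 : ℂ × ℂ)
      · have k1 : b.1.2 = 0 := congrArg Prod.fst k
        have k2 : b.2 = 0 := congrArg Prod.snd k
        have k3 : 1 - b.1.1 ^ 2 = 0 := by
          rw [k1, k2] at hb'
          simp only [norm_zero] at hb'
          linarith
        refine ⟨(b.1.1, 1, 0), ⟨hi, by simp⟩, ?_⟩
        have : c (b.1.1, 1, 0) = 0 := by simp only [c, k3, Real.sqrt_zero, zero_div]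
        simp only [f, this, zero_smul]
        exact Prod.ext (Prod.ext rfl k1.symm) k2.symm
      · refine ⟨(b.1.1, b.1.2, b.2), ⟨hi, k⟩, ?_⟩
        have k3 : 1 - b.1.1 ^ 2 = ‖b.1.2‖ ^ 2 + ‖b.2‖ ^ 2 := by linarith
        have : c (b.1.1, b.1.2, b.2) = 1 := by
          simp only [c, k3]
          exact div_self (Real.sqrt_pos.2 (q0 _ k)).ne'
        simp only [f, this, one_smul]
    · rintro ⟨u, ⟨hi, hu⟩, rfl⟩
      refine ⟨?_, hi⟩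
      have a := q0 u.2 hu
      have t : 0 ≤ 1 - u.1 ^ 2 := by nlinarith [(s hi).1, (s hi).2]
      have e : c u ^ 2 * (‖u.2.1‖ ^ 2 + ‖u.2.2‖ ^ 2) = 1 - u.1 ^ 2 := by
        simp only [c, div_pow, Real.sq_sqrt t, Real.sq_sqrt a.le]
        exact div_mul_cancel₀ _ a.ne'
      show u.1 ^ 2 + ‖c u • u.2.1‖ ^ 2 + ‖c u • u.2.2‖ ^ 2 = 1
      simp only [norm_smul, mul_pow, Real.norm_eq_abs, sq_abs]
      linarith
  rw [e]
  exact (p.prod h0).image f hf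

theorem usph_le {b : (ℝ × ℂ) × ℂ} (hb : b ∈ Sph ℂ) :
    b.1.1 ∈ Icc (-1 : ℝ) 1 ∧ ‖b.1.2‖ ≤ 1 ∧ ‖b.2‖ ≤ 1 := by
  have e : b.1.1 ^ 2 + ‖b.1.2‖ ^ 2 + ‖b.2‖ ^ 2 = 1 := hb
  have p := sq_nonneg b.1.1
  have q := sq_nonneg ‖b.1.2‖
  have r := sq_nonneg ‖b.2‖
  exact ⟨abs_le.1 (abs_le_one_iff_mul_self_le_one.2 (by nlinarith)),
    (pow_le_one_iff_of_nonneg (norm_nonneg _) two_ne_zero).1 (by linarith),
    (pow_le_one_iff_of_nonneg (norm_nonneg _) two_ne_zero).1 (by linarith)⟩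

theorem preconn_S4 : IsPreconnected (Sph ℂ) := by
  have h := usph_band (I := Icc (-1) 1) isPreconnected_Icc subset_rfl
  have e : Sph ℂ ∩ {b | b.1.1 ∈ Icc (-1 : ℝ) 1} = Sph ℂ :=
    inter_eq_left.2 fun b hb => (usph_le hb).1
  rwa [e] at h

/-- The inverse of the stereographic projection. -/
def usphSt (u : ℂ × ℂ) : (ℝ × ℂ) × ℂ :=
  ((1 - 2 / (‖u.1‖ ^ 2 + ‖u.2‖ ^ 2 + 1), (2 / (‖u.1‖ ^ 2 + ‖u.2‖ ^ 2 + 1)) • u.1),
    (2 / (‖u.1‖ ^ 2 + ‖u.2‖ ^ 2 + 1)) • u.2)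

/-- The stereographic projection. -/
def usphSi (b : (ℝ × ℂ) × ℂ) : ℂ × ℂ := ((1 - b.1.1)⁻¹ • b.1.2, (1 - b.1.1)⁻¹ • b.2)

theorem usph_cont : Continuous usphSt := by
  have h : Continuous fun u : ℂ × ℂ => 2 / (‖u.1‖ ^ 2 + ‖u.2‖ ^ 2 + 1) :=
    Continuous.div (by fun_prop) (by fun_prop) fun u => by positivity
  exact ((continuous_const.sub h).prodMk (h.smul continuous_fst)).prodMk (h.smul continuous_snd)

theorem usph_mem (u : ℂ × ℂ) : usphSt u ∈ Sph ℂ := by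
  have a : 0 < ‖u.1‖ ^ 2 + ‖u.2‖ ^ 2 + 1 := by positivity
  show (1 - 2 / (‖u.1‖ ^ 2 + ‖u.2‖ ^ 2 + 1)) ^ 2 + ‖(2 / (‖u.1‖ ^ 2 + ‖u.2‖ ^ 2 + 1)) • u.1‖ ^ 2 +
    ‖(2 / (‖u.1‖ ^ 2 + ‖u.2‖ ^ 2 + 1)) • u.2‖ ^ 2 = 1
  simp only [norm_smul, mul_pow, Real.norm_eq_abs, sq_abs]
  field_simp
  ring

theorem usph_lt (u : ℂ × ℂ) : (usphSt u).1.1 < 1 := by
  have a : 0 < 2 / (‖u.1‖ ^ 2 + ‖u.2‖ ^ 2 + 1) := by positivity
  show 1 - 2 / (‖u.1‖ ^ 2 + ‖u.2‖ ^ 2 + 1) < 1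
  linarith

theorem usph_left (u : ℂ × ℂ) : usphSi (usphSt u) = u := by
  have a : 2 / (‖u.1‖ ^ 2 + ‖u.2‖ ^ 2 + 1) ≠ 0 := by positivity
  simp only [usphSi, usphSt, sub_sub_cancel, inv_smul_smul₀ a]

theorem usph_right {b : (ℝ × ℂ) × ℂ} (hb : b ∈ Sph ℂ) (k : b.1.1 < 1) :
    usphSt (usphSi b) = b := by
  have e : b.1.1 ^ 2 + ‖b.1.2‖ ^ 2 + ‖b.2‖ ^ 2 = 1 := hb
  have a : 1 - b.1.1 ≠ 0 := (sub_pos.2 k).ne'
  have q : 2 / (‖(usphSi b).1‖ ^ 2 + ‖(usphSi b).2‖ ^ 2 + 1) = 1 - b.1.1 := by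
    have e' : ‖b.2‖ ^ 2 = 1 - b.1.1 ^ 2 - ‖b.1.2‖ ^ 2 := by linarith
    have : ‖(usphSi b).1‖ ^ 2 + ‖(usphSi b).2‖ ^ 2 + 1 = 2 / (1 - b.1.1) := by
      simp only [usphSi, norm_smul, mul_pow, Real.norm_eq_abs, sq_abs, e']
      field_simp
      ring
    rw [this]
    field_simp
  unfold usphSt
  rw [q]
  simp only [usphSi, sub_sub_cancel, smul_inv_smul₀ a]

theorem usph_opn {S : Set (ℂ × ℂ)} (o : IsOpen S) : Opn (usphSt '' S) (Sph ℂ) := by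
  have o1 : IsOpen {b : (ℝ × ℂ) × ℂ | b.1.1 < 1} := isOpen_lt (by fun_prop) continuous_const
  have h : ContinuousOn (fun b : (ℝ × ℂ) × ℂ => (1 - b.1.1)⁻¹) {b | b.1.1 < 1} :=
    ContinuousOn.inv₀ (by fun_prop) fun b hb => (sub_pos.2 hb).ne'
  have c : ContinuousOn usphSi {b | b.1.1 < 1} :=
    (h.smul (by fun_prop)).prodMk (h.smul (by fun_prop))
  refine opn_iff.2 ⟨_, c.isOpen_inter_preimage o1 o, ?_⟩
  ext b
  constructor
  · rintro ⟨u, hu, rfl⟩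
    exact ⟨usph_mem u, usph_lt u, by rwa [mem_preimage, usph_left]⟩
  · rintro ⟨hb, k, m⟩
    exact ⟨_, m, usph_right hb k⟩

theorem sph_glue {G : Set ((ℝ × ℂ) × ℂ) → Prop} (mono : ∀ S T, G S → T ⊆ S → G T)
    (loc : ∀ x ∈ Sph ℂ, ∃ S ∈ 𝓝[Sph ℂ] x, G S)
    (un : ∀ S T, Opn S (Sph ℂ) → Opn T (Sph ℂ) → IsPreconnected (S ∩ T) → G S → G T → G (S ∪ T)) :
    G (Sph ℂ) := by
  have inj : Function.Injective usphSt := Function.LeftInverse.injective usph_left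
  obtain ⟨S₀, n₀, g₀⟩ := loc ((1, 0), 0) (by simp [Sph])
  obtain ⟨ε, p, s₀⟩ := Metric.mem_nhdsWithin_iff.1 n₀
  obtain ⟨δ, d0, d1, d2, d3⟩ : ∃ δ : ℝ, 0 < δ ∧ δ ≤ 1 ∧ δ ≤ ε ∧ 2 * δ ≤ ε ^ 2 :=
    ⟨min 1 (min ε (ε ^ 2 / 2)), by positivity, min_le_left _ _,
      (min_le_right _ _).trans (min_le_left _ _), by
        have : min 1 (min ε (ε ^ 2 / 2)) ≤ ε ^ 2 / 2 :=
          (min_le_right _ _).trans (min_le_right _ _)
        linarith⟩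
  obtain ⟨S, -, s, g⟩ := convex_glue (G := fun S => G (usphSt '' S))
    (fun S T g s => mono _ _ g (image_mono s))
    (fun x => by
      obtain ⟨S, n, g⟩ := loc _ (usph_mem x)
      exact ⟨usphSt ⁻¹' S, (tendsto_nhdsWithin_iff.2 ⟨usph_cont.continuousAt,
        .of_forall usph_mem⟩) n, mono _ _ g (image_preimage_subset _ _)⟩)
    (fun S T o o' p g g' => by
      rw [image_union]
      refine un _ _ (usph_opn o) (usph_opn o') ?_ g g'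
      rw [← image_inter inj]
      exact p.image _ usph_cont.continuousOn)
    (isCompact_closedBall (0 : ℂ × ℂ) (2 / δ)) (convex_closedBall _ _)
  have g₁ : G (Sph ℂ ∩ {b | b.1.1 < 1 - δ / 2}) := by
    refine mono _ _ g fun b hb => ?_
    have k : b.1.1 < 1 - δ / 2 := hb.2
    refine ⟨usphSi b, s ?_, usph_right hb.1 (by linarith)⟩
    have i : (1 - b.1.1)⁻¹ ≤ 2 / δ := by
      rw [← inv_div]
      exact inv_anti₀ (by positivity) (by linarith)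
    have i0 : 0 ≤ (1 - b.1.1)⁻¹ := inv_nonneg.2 (by linarith)
    obtain ⟨-, l1, l2⟩ := usph_le hb.1
    simp only [mem_closedBall_zero_iff, usphSi, Prod.norm_def, norm_smul, Real.norm_eq_abs,
      abs_of_nonneg i0, max_le_iff]
    exact ⟨(mul_le_of_le_one_right i0 l1).trans i, (mul_le_of_le_one_right i0 l2).trans i⟩
  have g₂ : G (Sph ℂ ∩ {b | 1 - δ < b.1.1}) := by
    refine mono _ _ g₀ fun b hb => s₀ ⟨?_, hb.1⟩
    have k : 1 - δ < b.1.1 := hb.2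
    have e : b.1.1 ^ 2 + ‖b.1.2‖ ^ 2 + ‖b.2‖ ^ 2 = 1 := hb.1
    have l := (usph_le hb.1).1.2
    have a1 := sq_nonneg ‖b.1.2‖
    have a2 := sq_nonneg ‖b.2‖
    have a3 : 1 - b.1.1 ^ 2 < ε ^ 2 := by nlinarith
    simp only [mem_ball, Prod.dist_eq, max_lt_iff, dist_zero_right, Real.dist_eq]
    exact ⟨⟨abs_lt.2 ⟨by linarith, by linarith⟩,
      lt_of_pow_lt_pow_left₀ 2 p.le (by linarith)⟩, lt_of_pow_lt_pow_left₀ 2 p.le (by linarith)⟩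
  have h := un _ _ (opn_iff.2 ⟨_, isOpen_lt (by fun_prop) continuous_const, rfl⟩)
    (opn_iff.2 ⟨_, isOpen_lt continuous_const (by fun_prop), rfl⟩) (by
      have := usph_band (I := Ioo (1 - δ) (1 - δ / 2)) isPreconnected_Ioo
        fun t ht => ⟨by linarith [ht.1], by linarith [ht.2]⟩
      convert this using 1
      ext b
      exact ⟨fun k => ⟨k.1.1, k.2.2, k.1.2⟩, fun k => ⟨⟨k.1, k.2.2⟩, k.1, k.2.1⟩⟩) g₁ g₂
  refine mono _ _ h fun b hb => ?_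
  by_cases k : b.1.1 < 1 - δ / 2
  · exact .inl ⟨hb, k⟩
  · exact .inr ⟨hb, show 1 - δ < b.1.1 by linarith [not_lt.1 k]⟩

end Pool.Agent.Lib.MP_b2e238_gt
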