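import Pool.Agent.Lib.MP_b2e238_gt.U.Match
import Pool.Agent.Lib.MP_b2e238_gt.U.Loc
import Pool.Agent.Lib.MP_b2e238_gt.U.Glue
import Pool.Agent.Lib.MP_b2e238_gt.U.Sph
import Pool.Agent.Lib.MP_b2e238_gt.U.SmS

/-! Uniqueness of smooth branched double covers of the four-sphere. -/

open scoped ContDiff Topology
open Set Metric

noncomputable section

namespace Pool.Agent.Lib.MP_b2e238_gt

variable {P V W V' : Type} [NormedAddCommGroup P] [NormedSpace ℝ P] [NormedAddCommGroup V]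
  [NormedSpace ℝ V] [NormedAddCommGroup W] [NormedSpace ℝ W] [NormedAddCommGroup V']
  [NormedSpace ℝ V'] [FiniteDimensional ℝ P] [FiniteDimensional ℝ V] [FiniteDimensional ℝ W]
  [FiniteDimensional ℝ V']
  {A : Set V} {A' : Set V'} {B F N N' : Set W} {π : V → W} {π' : V' → W} {φ : P × ℂ → V}
  {φ' : P × ℂ → V'} {ψ ψ' : P × ℂ → W} {w w' : P} {r r' : ℝ} {θ : P × ℂ → P × ℂ} {b : W}
  {H : W → W} {τ : V → V} {τ' : V' → V'} {h h' : V → V'}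

theorem Pz.mono {S T : Set V} (z : Pz A A' h S) (s : T ⊆ S) : Pz A A' h T := by
  obtain ⟨δ, p, z⟩ := z
  refine ⟨δ, p, fun Φ Ψ d k ε q => ?_⟩
  obtain ⟨Φ', Ψ', d', e⟩ := z Φ Ψ d k ε q
  exact ⟨Φ', Ψ', d', fun a ha => ⟨(e a ha).1, fun m => (e a ha).2 (m.imp_left fun x => s x)⟩⟩

theorem pz_empty : Pz A A' h ∅ :=
  ⟨1, one_pos, fun Φ Ψ d _ ε q => ⟨Φ, Ψ, d, fun a _ => ⟨by simpa using q, fun m => m.elim (·.elim) id⟩⟩⟩

theorem Pz.union {S T : Set V} (z : Pz A A' h S) (z' : Pz A A' h T) : Pz A A' h (S ∪ T) := by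
  obtain ⟨δ, p, z⟩ := z
  obtain ⟨δ', p', z'⟩ := z'
  refine ⟨min δ (δ' / 2), by positivity, fun Φ Ψ d k ε q => ?_⟩
  obtain ⟨Φ₁, Ψ₁, d₁, e₁⟩ := z Φ Ψ d (fun a ha => (k a ha).trans_le (min_le_left _ _))
    (min (ε / 2) (δ' / 2)) (by positivity)
  obtain ⟨Φ₂, Ψ₂, d₂, e₂⟩ := z' Φ₁ Ψ₁ d₁ (fun a ha => by
    have a1 := (e₁ a ha).1.trans_le (min_le_right _ _)
    have a2 := (k a ha).trans_le (min_le_right _ _)
    linarith [dist_triangle (Φ₁ a) (Φ a) (h a)]) (ε / 2) (by positivity)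
  refine ⟨Φ₂, Ψ₂, d₂, fun a ha => ⟨?_, fun m => (e₂ a ha).2 ?_⟩⟩
  · have a1 := (e₁ a ha).1.trans_le (min_le_left _ _)
    linarith [dist_triangle (Φ₂ a) (Φ₁ a) (Φ a), (e₂ a ha).1]
  · rcases m with (m | m) | m
    exacts [.inr ((e₁ a ha).2 (.inl m)), .inl m, .inr ((e₁ a ha).2 (.inr m))]

theorem lf_glob {F : Set ((ℝ × ℂ) × ℂ)} {π : V → (ℝ × ℂ) × ℂ} {π' : V' → (ℝ × ℂ) × ℂ}
    (c : Br P A (Sph ℂ) F π) (c' : Br P A' (Sph ℂ) F π')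
    (m : ∀ b ∈ F, Mt P A A' (Sph ℂ) F π π' b) : ∃ h, Lf A A' F π π' (Sph ℂ) h := by
  refine sph_glue (G := fun N => ∃ h, Lf A A' F π π' N h) (fun S T ⟨h, l⟩ s => ⟨h, l.mono s⟩)
    (fun x hx => ?_) fun S T o o' p ⟨h, l⟩ ⟨h', l'⟩ => l.union c c' l' o o' p
  by_cases k : x ∈ F
  exacts [lf_on c c' m k, lf_off c c' hx k]

theorem br_unique {F : Set ((ℝ × ℂ) × ℂ)} {π : V → (ℝ × ℂ) × ℂ} {π' : V' → (ℝ × ℂ) × ℂ}
    (c : Br P A (Sph ℂ) F π) (c' : Br P A' (Sph ℂ) F π') : ∃ Φ Ψ, Dif A A' Φ Ψ := by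
  have kB : IsCompact (Sph ℂ) := (sph_Sph (P := ℝ × E3) (by simp)).1
  obtain ⟨H, fx, m⟩ := exists_match c c' kB
  have c'' := c'.post fx
  obtain ⟨h, l⟩ := lf_glob c c'' fun b hb => (m b hb).symm
  obtain ⟨g, l'⟩ := lf_glob c'' c m
  obtain ⟨g', d⟩ := l.dn c c'' l' preconn_S4
  have z : Pz A A' h (A ∩ π ⁻¹' F) := by
    refine (c.compact kB).induction_on (p := fun S => Pz A A' h (A ∩ π ⁻¹' S)) (by simpa using pz_empty)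
      (fun S T s z => z.mono (inter_subset_inter_right _ (preimage_mono s)))
      (fun S T z z' => by simpa [inter_union_distrib_left] using z.union z') fun b hb => ?_
    obtain ⟨φ, ψ, w, r, s, rfl⟩ := c.sq hb
    have w0 : (w, (0 : ℂ)) ∈ Pd w r r := ⟨mem_ball_self s.pos, mem_ball_self s.pos⟩
    obtain ⟨S, n, z⟩ := pz_loc c.mf c'.mf d (s.up.2.2.2.1 w0)
    obtain ⟨ρ, s₁, a, -⟩ := (s.small n (N := univ) Filter.univ_mem).exists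
    have w1 : (w, (0 : ℂ)) ∈ Pd w ρ (ρ ^ 2) :=
      ⟨mem_ball_self s₁.pos, mem_ball_self (pow_pos s₁.pos 2)⟩
    exact ⟨ψ '' Pd w ρ (ρ ^ 2), nhdsWithin_mono _ c.sub (s₁.dn.opn.2 _ ⟨_, w1, rfl⟩),
      z.mono fun x hx => a (s₁.fib x hx.1 hx.2)⟩
  obtain ⟨δ, p, z⟩ := z
  obtain ⟨Φ, Ψ, d', e⟩ := z h g' d (fun a _ => by simpa using p) 1 one_pos
  refine ⟨Φ, Ψ, d'.smooth c.mf c'.mf fun a ha => (e a ha).2 ?_⟩
  by_cases k : π a ∈ F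
  exacts [.inl ⟨ha, k⟩, .inr (l.top a ha (c.mapsTo ha) k)]

end Pool.Agent.Lib.MP_b2e238_gt
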