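import Pool.Agent.Lib.MP_b2e238_gt.U.Step

/-! Matching the normal conformal structures of two branched covers. -/

open scoped ContDiff Topology
open Set Metric

noncomputable section

namespace Pool.Agent.Lib.MP_b2e238_gt

variable {P V W V' : Type} [NormedAddCommGroup P] [NormedSpace ℝ P] [NormedAddCommGroup V]
  [NormedSpace ℝ V] [NormedAddCommGroup W] [NormedSpace ℝ W] [NormedAddCommGroup V']
  [NormedSpace ℝ V'] [FiniteDimensional ℝ P] [FiniteDimensional ℝ V] [FiniteDimensional ℝ W]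
  [FiniteDimensional ℝ V']
  {A : Set V} {A' : Set V'} {B F N N' : Set W} {π : V → W} {π' : V' → W} {φ : P × ℂ → V}
  {φ' : P × ℂ → V'} {ψ ψ' : P × ℂ → W} {w w' : P} {r r' : ℝ} {θ : P × ℂ → P × ℂ} {b : W}
  {H : W → W} {τ : V → V} {τ' : V' → V'} {h h' : V → V'}

theorem exists_match (c : Br P A B F π) (c' : Br P A' B F π') (k : IsCompact B) :
    ∃ H, Fx B F H ∧ ∀ b ∈ F, Mt P A' A B F (H ∘ π') π b := by
  have z : ∀ H, Fx B F H → ∃ H₂, Fx B F H₂ ∧ ∀ b ∈ F, b ∈ F ∨ Mt P A' A B F (H ∘ π') π b →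
      Mt P A' A B F (H₂ ∘ π') π b := by
    refine (c.compact k).induction_on (p := fun S => ∀ H, Fx B F H → ∃ H₂, Fx B F H₂ ∧ ∀ b ∈ F,
      b ∈ S ∨ Mt P A' A B F (H ∘ π') π b → Mt P A' A B F (H₂ ∘ π') π b)
      (fun H f => ⟨H, f, fun b _ m => m.elim (·.elim) id⟩)
      (fun S T s z H f => (z H f).imp fun H₂ y => ⟨y.1, fun b hb m => y.2 b hb (m.imp_left fun x => s x)⟩)
      (fun S T z z' H f => ?_) fun b hb => ?_
    · obtain ⟨H₁, f₁, y₁⟩ := z H f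
      obtain ⟨H₂, f₂, y₂⟩ := z' H₁ f₁
      refine ⟨H₂, f₂, fun b hb m => y₂ b hb ?_⟩
      rcases m with (m | m) | m
      exacts [.inr (y₁ b hb (.inl m)), .inl m, .inr (y₁ b hb (.inr m))]
    · obtain ⟨φ, ψ, w, r, s, e⟩ := c.sq hb
      obtain ⟨φ', ψ', w', r₀, s₀, e'⟩ := c'.sq hb
      have w1 : (w, (0 : ℂ)) ∈ Pd w r (r ^ 2) :=
        ⟨mem_ball_self s.pos, mem_ball_self (pow_pos s.pos 2)⟩
      obtain ⟨r', s', -, a⟩ := (s₀.small (M := univ) (N := ψ '' Pd w r (r ^ 2)) Filter.univ_mem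
        (by rw [e', ← e]; exact s.dn.opn.2 _ ⟨_, w1, rfl⟩)).exists
      have p := s'.pos
      have s₂ := s'.mono (x := w') (half_pos p) (half_le_self p.le)
        (ball_subset_ball (half_le_self p.le))
      have m0 : ∀ x ∈ ball w' r', (x, (0 : ℂ)) ∈ Pd w' r' (r' ^ 2) := fun x hx =>
        ⟨hx, mem_ball_self (pow_pos p 2)⟩
      refine ⟨ψ' '' Pd w' (r' / 2) ((r' / 2) ^ 2), nhdsWithin_mono _ c.sub (s₂.dn.opn.2 _
        ⟨(w', 0), ⟨mem_ball_self (half_pos p), mem_ball_self (by positivity)⟩, e'⟩), fun H f => ?_⟩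
      have fx : ∀ x ∈ ball w' r', H (ψ' (x, 0)) = ψ' (x, 0) := fun x hx =>
        f.2 _ ((s'.mem _ (m0 x hx)).2 rfl)
      obtain ⟨H₁, f₁, y⟩ := mt_step c (c'.post f) s (s'.post c'.mapsTo c.sub f) fun x hx => by
        rw [Function.comp_apply, fx x hx]; exact a ⟨_, m0 x hx, rfl⟩
      refine ⟨H₁ ∘ H, f.comp f₁, fun b hb m => y b hb (m.imp_left ?_)⟩
      rintro ⟨⟨x, ζ⟩, hu, rfl⟩
      obtain rfl : ζ = 0 := (s₂.mem _ hu).1 hb
      exact ⟨x, hu.1, fx x (ball_subset_ball (half_le_self p.le) hu.1)⟩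
  obtain ⟨H, f, y⟩ := z id (.refl B F)
  exact ⟨H, f, fun b hb => y b hb (.inl hb)⟩

end Pool.Agent.Lib.MP_b2e238_gt
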