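import Pool.Agent.Lib.MP_b2e238_gt.U.Apx

/-! Smoothing in a chart. -/

open scoped ContDiff Topology
open Set Metric

noncomputable section

namespace Pool.Agent.Lib.MP_b2e238_gt

variable {P V W V' : Type} [NormedAddCommGroup P] [NormedSpace ℝ P] [NormedAddCommGroup V]
  [NormedSpace ℝ V] [NormedAddCommGroup W] [NormedSpace ℝ W] [NormedAddCommGroup V']
  [NormedSpace ℝ V'] [FiniteDimensional ℝ P] [FiniteDimensional ℝ V] [FiniteDimensional ℝ W]
  [FiniteDimensional ℝ V']
  {A : Set V} {A' : Set V'} {B F N N' : Set W} {π : V → W} {π' : V' → W} {φ : P × ℂ → V}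
  {φ' : P × ℂ → V'} {ψ ψ' : P × ℂ → W} {w w' : P} {r r' : ℝ} {θ : P × ℂ → P × ℂ} {b : W}
  {H : W → W} {τ : V → V} {τ' : V' → V'} {h h' : V → V'}

theorem usmc_inv {E : V → V} (h : ContDiff ℝ 1 E) (hd : ∀ x, ‖fderiv ℝ E x - 1‖ ≤ 1 / 2) :
    ∃ E', Dn 1 univ univ E E' := by
  have := FiniteDimensional.complete ℝ V
  have df := h.differentiable one_ne_zero
  have b := bij_of_near df (by norm_num) hd
  let e := Equiv.ofBijective E b
  refine ⟨e.symm, h.contDiffOn, ContDiff.contDiffOn (contDiff_iff_contDiffAt.2 fun y => ?_),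
    mapsTo_univ _ _, mapsTo_univ _ _, fun a _ => e.symm_apply_apply a,
    fun a _ => e.apply_symm_apply a⟩
  obtain ⟨x, rfl⟩ := b.2 y
  have i := inj_of_near ((hd x).trans_lt (by norm_num))
  let L : V ≃L[ℝ] V := (LinearEquiv.ofBijective (fderiv ℝ E x).toLinearMap ⟨i,
    LinearMap.injective_iff_surjective.1 i⟩).toContinuousLinearEquiv
  have c : HasFDerivAt E (L : V →L[ℝ] V) x := (df x).hasFDerivAt
  have a : ContDiffAt ℝ 1 E x := h.contDiffAt
  refine (a.to_localInverse c one_ne_zero).congr_of_eventuallyEq ?_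
  filter_upwards [(a.hasStrictFDerivAt' c one_ne_zero).eventually_right_inverse] with z hz
  exact e.symm_apply_eq.2 hz.symm

omit [FiniteDimensional ℝ V] in
theorem usmc_push {O O' K : Set V} {f f' : V → V} (o' : IsOpen O') (d : Dn 1 O O' f f')
    (k : IsCompact K) (s : K ⊆ O) : ∃ M > 0, ∀ D : V → V, ContDiff ℝ 1 D →
      (∀ x ∉ K, D x = 0) → (∀ x, ‖fderiv ℝ D x‖ ≤ 1 / (2 * M)) → ∃ T : V → V, ContDiff ℝ 1 T ∧
        (∀ y, ‖fderiv ℝ T y‖ ≤ 1 / 2) ∧ (∀ y ∉ f '' K, T y = 0) ∧ ∀ y ∈ O', T y = D (f' y) := by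
  have cG : ContDiffOn ℝ 1 f' O' := d.cG
  have k' : IsCompact (f '' K) := k.image_of_continuousOn (d.cF.continuousOn.mono s)
  have s' : f '' K ⊆ O' := (d.mF.mono_left s).image_subset
  obtain ⟨M, hM⟩ := k'.exists_bound_of_continuousOn
    ((cG.continuousOn_fderiv_of_isOpen o' le_rfl).mono s')
  refine ⟨|M| + 1, by positivity, fun D c z b => ?_⟩
  have e (y) (hy : y ∈ O') : O'.indicator (D ∘ f') =ᶠ[𝓝 y] D ∘ f' :=
    Filter.mem_of_superset (o'.mem_nhds hy) fun t ht => indicator_of_mem ht _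
  have z' (y) (hy : y ∉ f '' K) : O'.indicator (D ∘ f') y = 0 :=
    indicator_apply_eq_zero.2 fun m => z _ fun n => hy ⟨_, n, d.fg y m⟩
  have e' (y) (hy : y ∉ f '' K) : O'.indicator (D ∘ f') =ᶠ[𝓝 y] fun _ => 0 :=
    Filter.mem_of_superset (k'.isClosed.isOpen_compl.mem_nhds hy) z'
  refine ⟨O'.indicator (D ∘ f'), contDiff_iff_contDiffAt.2 fun y => ?_, fun y => ?_, z',
    fun y hy => indicator_of_mem hy _⟩
  · by_cases m : y ∈ f '' K
    · exact (c.contDiffAt.comp y (cG.contDiffAt (o'.mem_nhds (s' m)))).congr_of_eventuallyEq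
        (e y (s' m))
    · exact contDiffAt_const.congr_of_eventuallyEq (e' y m)
  · by_cases m : y ∈ f '' K
    · rw [(e y (s' m)).fderiv_eq, fderiv_comp y (c.differentiable one_ne_zero _)
        ((cG.contDiffAt (o'.mem_nhds (s' m))).differentiableAt one_ne_zero)]
      refine (ContinuousLinearMap.opNorm_comp_le _ _).trans ((mul_le_mul (b _)
        ((hM y m).trans ((le_abs_self M).trans (le_add_of_nonneg_right zero_le_one)))
        (norm_nonneg _) (by positivity)).trans (le_of_eq ?_))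
      field_simp
    · rw [(e' y m).fderiv_eq]
      simp

omit [FiniteDimensional ℝ V] [FiniteDimensional ℝ W] in
theorem usmc_cut {χ : V → ℝ} (c : ContDiff ℝ 1 χ) (k : HasCompactSupport χ)
    (b : ∀ x, |χ x| ≤ 1) : ∃ N > 0, ∀ (g : V → W) (ε : ℝ), ContDiff ℝ 1 g →
      (∀ x, ‖g x‖ < ε ∧ ‖fderiv ℝ g x‖ < ε) → ∀ x,
        ‖χ x • g x‖ < ε ∧ ‖fderiv ℝ (fun x => χ x • g x) x‖ ≤ N * ε := by
  obtain ⟨N, hN⟩ := (c.continuous_fderiv one_ne_zero).bounded_above_of_compact_support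
    (k.fderiv ℝ)
  refine ⟨|N| + 1, by positivity, fun g ε d e x => ⟨?_, ?_⟩⟩
  · rw [norm_smul]
    exact (mul_le_of_le_one_left (norm_nonneg _) (b x)).trans_lt (e x).1
  · rw [fderiv_fun_smul (c.differentiable one_ne_zero x) (d.differentiable one_ne_zero x)]
    refine (norm_add_le _ _).trans ?_
    rw [norm_smul, ContinuousLinearMap.norm_smulRight_apply]
    have a1 := (mul_le_of_le_one_left (norm_nonneg (fderiv ℝ g x)) (b x)).trans (e x).2.le
    have a2 := mul_le_mul ((hN x).trans (le_abs_self N)) (e x).1.le (norm_nonneg _) (abs_nonneg N)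
    rw [Real.norm_eq_abs]
    linarith

theorem sm_chart {O O' : Set V} {f f' : V → V} (o : IsOpen O) (o' : IsOpen O')
    (d : Dn 1 O O' f f') {u : V} {ρ : ℝ} (p : 0 < ρ) (s : closedBall u (3 * ρ) ⊆ O) {ε : ℝ}
    (q : 0 < ε) : ∃ E E' : V → V, Dn 1 univ univ E E' ∧
      (∀ y ∉ f '' closedBall u (2 * ρ), E y = y) ∧ (∀ y, dist (E y) y < ε) ∧
      ∀ v ∈ O, v ∈ ball u ρ ∨ ContDiffAt ℝ ∞ f v → ContDiffAt ℝ ∞ (E ∘ f) v := by
  let χ : ContDiffBump u := ⟨ρ, 2 * ρ, p, by linarith⟩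
  let χ₁ : ContDiffBump u := ⟨2 * ρ, 3 * ρ, by linarith, by linarith⟩
  have cF : ContDiffOn ℝ 1 f O := d.cF
  have cg : ContDiff ℝ 1 fun x => χ₁ x • f x := contDiff_iff_contDiffAt.2 fun x => by
    by_cases m : x ∈ O
    · exact χ₁.contDiff.contDiffAt.smul (cF.contDiffAt (o.mem_nhds m))
    · have : x ∉ tsupport χ₁ := fun n => m (s (χ₁.tsupport_eq ▸ n))
      refine (contDiffAt_const (c := 0)).congr_of_eventuallyEq ?_
      filter_upwards [notMem_tsupport_iff_eventuallyEq.1 this] with y hy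
      rw [hy]
      exact zero_smul _ _
  have s2 : closedBall u (2 * ρ) ⊆ O := (closedBall_subset_closedBall (by linarith)).trans s
  obtain ⟨M, pM, hM⟩ := usmc_push o' d (isCompact_closedBall u (2 * ρ)) s2
  obtain ⟨N, pN, hN⟩ := usmc_cut (W := V) (χ.contDiff (n := 1)) χ.hasCompactSupport fun x =>
    abs_le.2 ⟨by linarith [χ.nonneg (x := x)], χ.le_one⟩
  obtain ⟨g', cg', hg⟩ := c1_apx cg χ₁.hasCompactSupport.smul_right
    (ε := min ε (1 / (2 * M * N))) (by positivity)
  have c1 : ContDiff ℝ 1 g' := cg'.of_le (by simp)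
  have cd := c1.sub cg
  have hD := hN _ _ cd fun x => ⟨(hg x).1, by
    rw [fderiv_fun_sub (c1.differentiable one_ne_zero x) (cg.differentiable one_ne_zero x)]
    exact (hg x).2⟩
  have z (x) (m : x ∉ ball u (2 * ρ)) : χ x = 0 := χ.zero_of_le_dist (not_lt.1 m)
  obtain ⟨T, cT, bT, zT, eT⟩ := hM (fun x => χ x • (g' x - χ₁ x • f x))
    ((χ.contDiff (n := 1)).smul cd)
    (fun x m => by rw [z x fun n => m (ball_subset_closedBall n)]; exact zero_smul _ _)
    fun x => (hD x).2.trans ((mul_le_mul_of_nonneg_left (min_le_right _ _) pN.le).trans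
      (le_of_eq (by field_simp)))
  obtain ⟨E', dE⟩ := usmc_inv (E := fun y => y + T y) (contDiff_id.add cT) fun x => by
    rw [show fderiv ℝ (fun y => y + T y) x = _ from
      ((hasFDerivAt_id x).add (cT.differentiable one_ne_zero x).hasFDerivAt).fderiv]
    simpa [ContinuousLinearMap.one_def] using bT x
  refine ⟨_, E', dE, fun y m => by rw [zT y m, add_zero], fun y => ?_, fun v hv m => ?_⟩
  · rw [dist_self_add_left]
    by_cases m : y ∈ f '' closedBall u (2 * ρ)
    · rw [eT y ((d.mF.mono_left s2).image_subset m)]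
      exact (hD _).1.trans_le (min_le_left _ _)
    · rw [zT y m, norm_zero]
      exact q
  · have e : ((fun y => y + T y) ∘ f) =ᶠ[𝓝 v] fun x => (1 - χ x) • f x + χ x • g' x := by
      filter_upwards [o.mem_nhds hv] with x hx
      change f x + T (f x) = _
      rw [eT _ (d.mF hx), d.gf x hx]
      by_cases n : x ∈ ball u (2 * ρ)
      · rw [χ₁.one_of_mem_closedBall (ball_subset_closedBall n)]
        module
      · rw [z x n]
        simp
    refine ContDiffAt.congr_of_eventuallyEq ?_ e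
    rcases m with m | m
    · refine cg'.contDiffAt.congr_of_eventuallyEq ?_
      filter_upwards [χ.eventuallyEq_one_of_mem_ball m] with x hx
      rw [hx]
      simp
    · exact ((contDiffAt_const.sub χ.contDiff.contDiffAt).smul m).add
        (χ.contDiff.contDiffAt.smul cg'.contDiffAt)

end Pool.Agent.Lib.MP_b2e238_gt
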