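import Pool.Agent.Lib.MP_b2e238_gt.U.Defs

/-! Standard charts over the branch set. -/

open scoped ContDiff Topology
open Set Metric

noncomputable section

namespace Pool.Agent.Lib.MP_b2e238_gt

variable {P V W V' : Type} [NormedAddCommGroup P] [NormedSpace ℝ P] [NormedAddCommGroup V]
  [NormedSpace ℝ V] [NormedAddCommGroup W] [NormedSpace ℝ W] [NormedAddCommGroup V']
  [NormedSpace ℝ V'] [FiniteDimensional ℝ P] [FiniteDimensional ℝ V] [FiniteDimensional ℝ W]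
  [FiniteDimensional ℝ V']
  {A : Set V} {A' : Set V'} {B F N N' : Set W} {π : V → W} {π' : V' → W} {φ : P × ℂ → V}
  {φ' : P × ℂ → V'} {ψ ψ' : P × ℂ → W} {w w' : P} {r r' : ℝ} {θ : P × ℂ → P × ℂ} {b : W}
  {H : W → W} {τ : V → V} {τ' : V' → V'} {h h' : V → V'}

set_option linter.unusedSectionVars false

theorem isOpen_Pd (w : P) (r s : ℝ) : IsOpen (Pd w r s) := isOpen_ball.prod isOpen_ball

theorem usq_lt {z : ℂ} (p : 0 < r) : z ^ 2 ∈ ball (0 : ℂ) (r ^ 2) ↔ z ∈ ball (0 : ℂ) r := by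
  rw [mem_ball_zero_iff, mem_ball_zero_iff, norm_pow,
    pow_lt_pow_iff_left₀ (norm_nonneg _) p.le two_ne_zero]

theorem usq_sub {x : P} {ρ s s' : ℝ} (m : ball x ρ ⊆ ball w r) (k : s ≤ s') :
    Pd x ρ s ⊆ Pd w r s' := prod_mono m (ball_subset_ball k)

theorem usq_ctr {s : ℝ} (p : 0 < r) (q : 0 < s) : ((w, 0) : P × ℂ) ∈ Pd w r s :=
  ⟨mem_ball_self p, mem_ball_self q⟩

theorem usq_neg {u : P × ℂ} {s : ℝ} (k : u ∈ Pd w r s) : (u.1, -u.2) ∈ Pd w r s :=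
  ⟨k.1, by simpa using k.2⟩

theorem sq2_mem {u : P × ℂ} (k : u ∈ Pd w r r) : sq2 u ∈ Pd w r (r ^ 2) :=
  ⟨k.1, (usq_lt (pos_of_mem_ball k.1)).2 k.2⟩

theorem sq2_surj {u : P × ℂ} (k : u ∈ Pd w r (r ^ 2)) (p : 0 < r) :
    ∃ z : ℂ, (u.1, z) ∈ Pd w r r ∧ sq2 (u.1, z) = u := by
  obtain ⟨z, e⟩ := IsAlgClosed.exists_pow_nat_eq u.2 two_pos
  exact ⟨z, ⟨k.1, (usq_lt p).1 (e ▸ k.2)⟩, Prod.ext rfl e⟩

theorem Br.sq (c : Br P A B F π) (hb : b ∈ F) :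
    ∃ (φ : P × ℂ → V) (ψ : P × ℂ → W) (w : P) (r : ℝ), Sq A B F π φ ψ w r ∧ ψ (w, 0) = b := by
  obtain ⟨a, e⟩ := ncard_eq_one.1 (c.2.1 b hb)
  obtain ⟨ha, rfl⟩ : a ∈ A ∩ π ⁻¹' {b} := e ▸ rfl
  obtain ⟨k, φ, ψ, U, U', -, p, q, ⟨⟨w, z⟩, hu, rfl⟩, f⟩ := c.2.2 a ha
  obtain ⟨rfl, rfl : z = 0⟩ := (f _ hu).2.2.1 hb
  obtain ⟨r, hr, s⟩ := Metric.isOpen_iff.1 p.1 _ hu
  rw [← ball_prod_same] at s
  have s' : Pd w r (r ^ 2) ⊆ U' := fun u k => by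
    obtain ⟨z, m, g⟩ := sq2_surj k hr
    exact g ▸ (f _ (s m)).1
  refine ⟨φ, ψ, w, r, ⟨hr, p.mono (isOpen_Pd ..) s, q.mono (isOpen_Pd ..) s',
    fun u k => (f u (s k)).2.1, fun u k => ?_, ?_⟩, by simpa using (f _ hu).2.1.symm⟩
  · obtain ⟨z, m, g⟩ := sq2_surj k hr
    have := (f _ (s m)).2.2
    rw [(f _ (s m)).2.1] at this
    rw [← g]
    simpa [sq2] using this
  · rintro a' ha' ⟨u, k, g⟩
    obtain ⟨z, m, g'⟩ := sq2_surj k hr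
    have g₁ : π (φ (u.1, z)) = π a' := (f _ (s m)).2.1.trans ((congrArg ψ g').trans g)
    by_cases hF : π (φ (u.1, z)) ∈ F
    · exact ⟨_, m, (c.uniq (p.2.2.2.1 (s m)) ha' hF g₁.symm).symm⟩
    have m' := usq_neg m
    have g₂ : π (φ (u.1, -z)) = π a' := by
      rw [← g₁, (f _ (s m)).2.1, (f _ (s m')).2.1]
      simp
    have n := c.1 (π a') ⟨c.mapsTo ha', g₁ ▸ hF⟩
    have ne : φ (u.1, z) ≠ φ (u.1, -z) := fun i => hF ((f _ (s m)).2.2.2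
      ⟨rfl, self_eq_neg.1 (congrArg Prod.snd (p.2.2.1 (s m) (s m') i))⟩)
    have : ({φ (u.1, z), φ (u.1, -z)} : Set V) = A ∩ π ⁻¹' {π a'} :=
      eq_of_subset_of_ncard_le (pair_subset ⟨p.2.2.2.1 (s m), g₁⟩ ⟨p.2.2.2.1 (s m'), g₂⟩)
        (by rw [n, ncard_pair ne]) (finite_of_ncard_ne_zero (by simp [n]))
    obtain i | i : a' ∈ ({φ (u.1, z), φ (u.1, -z)} : Set V) := this ▸ ⟨ha', rfl⟩
    exacts [⟨_, m, i.symm⟩, ⟨_, m', i.symm⟩]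

theorem Sq.mono (s : Sq A B F π φ ψ w r) {x : P} {ρ : ℝ} (p : 0 < ρ) (k : ρ ≤ r)
    (m : ball x ρ ⊆ ball w r) : Sq A B F π φ ψ x ρ := by
  have a := usq_sub m k
  have a' := usq_sub m (pow_le_pow_left₀ p.le k 2)
  refine ⟨p, s.up.mono (isOpen_Pd ..) a, s.dn.mono (isOpen_Pd ..) a', fun u c => s.eq u (a c),
    fun u c => s.mem u (a' c), ?_⟩
  rintro y hy ⟨v, hv, e⟩
  obtain ⟨u, hu, rfl⟩ := s.fib y hy ⟨v, a' hv, e⟩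
  obtain rfl := s.dn.2.2.1 (a' hv) (sq2_mem hu) (e.trans (s.eq u hu))
  exact ⟨u, ⟨hv.1, (usq_lt p).1 hv.2⟩, rfl⟩

theorem Sq.at (s : Sq A B F π φ ψ w r) {x : P} (m : x ∈ ball w r) :
    ∀ᶠ ρ in 𝓝[>] (0 : ℝ), Sq A B F π φ ψ x ρ := by
  filter_upwards [Ioo_mem_nhdsGT (sub_pos.2 (mem_ball.1 m))] with ρ c
  exact s.mono c.1 (by linarith [c.2, dist_nonneg (x := x) (y := w)])
    (ball_subset_ball' (by linarith [c.2]))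

theorem Fx.usq_mem (k : Fx B F H) (hb : b ∈ B) : H b ∈ F ↔ b ∈ F := by
  obtain ⟨⟨H', d⟩, e⟩ := k
  exact ⟨fun c => d.injOn (d.mF hb) hb (e _ c) ▸ c, fun c => (e b c).symm ▸ c⟩

theorem Sq.post (s : Sq A B F π φ ψ w r) (m : MapsTo π A B) (f : F ⊆ B) (k : Fx B F H) :
    Sq A B F (H ∘ π) φ (H ∘ ψ) w r := by
  obtain ⟨H', d⟩ := k.1
  refine ⟨s.pos, s.up, d.par (.refl _) (.refl _) s.dn s.dn.2.2.2.1,
    fun u c => congrArg H (s.eq u c), fun u c => (k.usq_mem (s.dn.2.2.2.1 c)).trans (s.mem u c), ?_⟩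
  rintro y hy ⟨v, hv, e⟩
  exact s.fib y hy ⟨v, hv, d.injOn (s.dn.2.2.2.1 hv) (m hy) e⟩

theorem Br.post (c : Br P A B F π) (k : Fx B F H) : Br P A B F (H ∘ π) := by
  obtain ⟨H', d⟩ := k.1
  have e : ∀ b ∈ B, A ∩ (H ∘ π) ⁻¹' {b} = A ∩ π ⁻¹' {H' b} := fun b hb => ext fun a =>
    and_congr_right fun ha => ⟨fun i => (d.gf _ (c.mapsTo ha)).symm.trans (congrArg H' i),
      fun i => (congrArg H i).trans (d.fg b hb)⟩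
  have g : ∀ b ∈ B, H' b ∈ F ↔ b ∈ F := fun b hb => by rw [← k.usq_mem (d.mG hb), d.fg b hb]
  refine br_of_brAt (fun b hb => ?_) (fun b hb => ?_) fun a ha => ?_
  · rw [e b hb.1]
    exact c.1 _ ⟨d.mG hb.1, mt (g b hb.1).1 hb.2⟩
  · rw [e b (c.sub hb)]
    exact c.2.1 _ ((g b (c.sub hb)).2 hb)
  · exact (c.brAt ha).map (Dif.refl A) (.refl _) (.refl _) d (.refl _) (.refl _) ha c.mapsTo
      fun x hx => ⟨rfl, k.usq_mem (c.mapsTo hx)⟩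

theorem Br.mf (c : Br P A B F π) : Mf (P × ℂ) A := fun a ha => by
  obtain ⟨k, φ, ψ, U, U', -, p, -, m, -⟩ := c.2.2 a ha
  exact ⟨φ, U, p, m⟩

theorem Fx.refl (B F : Set W) : Fx B F id := ⟨⟨id, .refl B⟩, fun _ _ => rfl⟩

theorem Fx.comp {H' : W → W} (k : Fx B F H) (k' : Fx B F H') : Fx B F (H' ∘ H) := by
  obtain ⟨⟨G, d⟩, e⟩ := k
  obtain ⟨⟨G', d'⟩, e'⟩ := k'
  exact ⟨⟨_, d.trans d'⟩, fun b hb => (congrArg H' (e b hb)).trans (e' b hb)⟩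

theorem par_tr {U U' : Set (P × ℂ)} (p : Par B ψ U) (p' : Par B ψ' U') :
    ∃ θ : P × ℂ → P × ℂ, IsOpen (U ∩ ψ ⁻¹' (ψ' '' U')) ∧
      ContDiffOn ℝ ∞ θ (U ∩ ψ ⁻¹' (ψ' '' U')) ∧
      ∀ v ∈ U ∩ ψ ⁻¹' (ψ' '' U'), θ v ∈ U' ∧ ψ' (θ v) = ψ v := by
  obtain ⟨χ, d⟩ := p'.dif
  exact ⟨χ ∘ ψ, par_pre p.2.1.continuousOn p.1 p'.opn p.2.2.2.1,
    d.cG.comp (p.2.1.mono inter_subset_left) fun _ k => k.2, fun v k => ⟨d.mG k.2, d.fg _ k.2⟩⟩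

theorem Par.usq_pre {U : Set (P × ℂ)} {u : P × ℂ} (p : Par B ψ U) (hu : u ∈ U)
    (n : N ∈ 𝓝[B] ψ u) : ψ ⁻¹' N ∈ 𝓝 u := by
  rw [← p.1.nhdsWithin_eq hu]
  exact (p.2.1.continuousOn u hu).tendsto_nhdsWithin p.2.2.2.1 n

/-- Small standard charts lie over and in any given neighbourhoods. -/
theorem Sq.small (s : Sq A B F π φ ψ w r) {M : Set V} (m : M ∈ 𝓝[A] φ (w, 0))
    (n : N ∈ 𝓝[B] ψ (w, 0)) : ∀ᶠ ρ in 𝓝[>] (0 : ℝ), Sq A B F π φ ψ w ρ ∧ φ '' Pd w ρ ρ ⊆ M ∧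
      ψ '' Pd w ρ (ρ ^ 2) ⊆ N := by
  obtain ⟨ε, e, k⟩ := Metric.mem_nhds_iff.1 (Filter.inter_mem
    (s.up.usq_pre (usq_ctr s.pos s.pos) m) (s.dn.usq_pre (usq_ctr s.pos (pow_pos s.pos 2)) n))
  rw [← ball_prod_same] at k
  filter_upwards [s.at (mem_ball_self s.pos), Ioo_mem_nhdsGT e, Ioo_mem_nhdsGT one_pos]
    with ρ a c d
  exact ⟨a, image_subset_iff.2 fun u i => (k (usq_sub (ball_subset_ball c.2.le) c.2.le i)).1,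
    image_subset_iff.2 fun u i => (k (usq_sub (ball_subset_ball c.2.le)
      (by nlinarith [c.1, c.2, d.2]) i)).2⟩

end Pool.Agent.Lib.MP_b2e238_gt
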