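import Pool.Agent.Lib.MP_b2e238_gt.U.Sec
import Pool.Agent.Lib.MP_b2e238_gt.U.Conf
import Pool.Agent.Lib.MP_b2e238_gt.U.Bel
import Pool.Agent.Lib.MP_b2e238_gt.U.Cut
import Pool.Agent.Lib.MP_b2e238_gt.U.Push

/-! Matching the normal conformal structures in one chart. -/

open scoped ContDiff Topology
open Set Metric

noncomputable section

namespace Pool.Agent.Lib.MP_b2e238_gt

variable {P V W V' : Type} [NormedAddCommGroup P] [NormedSpace ℝ P] [NormedAddCommGroup V]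
  [NormedSpace ℝ V] [NormedAddCommGroup W] [NormedSpace ℝ W] [NormedAddCommGroup V']
  [NormedSpace ℝ V'] [FiniteDimensional ℝ P] [FiniteDimensional ℝ V] [FiniteDimensional ℝ W]
  [FiniteDimensional ℝ V']
  {A : Set V} {A' : Set V'} {B F N N' : Set W} {π : V → W} {π' : V' → W} {φ : P × ℂ → V}
  {φ' : P × ℂ → V'} {ψ ψ' : P × ℂ → W} {w w' : P} {r r' : ℝ} {θ : P × ℂ → P × ℂ} {b : W}
  {H : W → W} {τ : V → V} {τ' : V' → V'} {h h' : V → V'}

/-- A function with values in the open disc, cut off inside a ball. -/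
theorem ustep_cut {g : P → ℂ} (p : 0 < r) (c : ∀ x ∈ ball w r, ContDiffAt ℝ ∞ g x)
    (k : ∀ x ∈ ball w r, ‖g x‖ < 1) : ∃ (μ : P → ℂ) (m : ℝ), ContDiff ℝ ∞ μ ∧ m < 1 ∧
      (∀ x, ‖μ x‖ ≤ m) ∧ (∀ x ∉ closedBall w (3 * r / 4), μ x = 0) ∧
      ∀ x, x ∈ ball w (r / 2) ∨ g x = 0 → μ x = g x := by
  let χ : ContDiffBump w := ⟨r / 2, 3 * r / 4, by positivity, by linarith⟩
  have s : closedBall w (3 * r / 4) ⊆ ball w r := closedBall_subset_ball (by linarith)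
  have z : ∀ x ∉ closedBall w (3 * r / 4), χ x • g x = 0 := fun x hx => by
    rw [χ.zero_of_le_dist (le_of_lt (by simpa using hx)), zero_smul]
  have d : ContDiff ℝ ∞ fun x => χ x • g x := contDiff_iff_contDiffAt.2 fun x => by
    by_cases hx : x ∈ closedBall w (3 * r / 4)
    · exact χ.contDiffAt.smul (c x (s hx))
    · exact contDiffAt_const.congr_of_eventuallyEq
        (Filter.mem_of_superset (isClosed_closedBall.isOpen_compl.mem_nhds hx) z)
  obtain ⟨y, hy, my⟩ := (isCompact_closedBall w (3 * r / 4)).exists_isMaxOn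
    ⟨w, mem_closedBall_self (by positivity)⟩ d.continuous.norm.continuousOn
  refine ⟨_, ‖χ y • g y‖, d, ?_, fun x => ?_, z, fun x hx => ?_⟩
  · rw [norm_smul, Real.norm_of_nonneg χ.nonneg]
    exact (mul_le_of_le_one_left (norm_nonneg _) χ.le_one).trans_lt (k y (s hy))
  · by_cases hx : x ∈ closedBall w (3 * r / 4)
    · exact my hx
    · rw [z x hx, norm_zero]
      exact norm_nonneg _
  · rcases hx with hx | hx
    · rw [χ.one_of_mem_closedBall (ball_subset_closedBall hx), one_smul]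
    · rw [hx, smul_zero]

/-- A diffeomorphism that is the identity near `b` keeps the matching at `b`. -/
theorem ustep_far (c : Br P A B F π) (c' : Br P A' B F π') (f : Fx B F H) (hb : b ∈ F)
    (e : ∀ᶠ y in 𝓝 b, H y = y) (m : Mt P A' A B F π' π b) : Mt P A' A B F (H ∘ π') π b := by
  obtain ⟨φ₁, ψ₁, w₁, r₁, s₁, e₁⟩ := c'.sq hb
  obtain ⟨φ₂, ψ₂, w₂, r₂, s₂, e₂⟩ := c.sq hb
  obtain ⟨θ, t⟩ := s₁.tr s₂ (e₁.trans e₂.symm)
  have a : ContinuousAt ψ₁ (w₁, 0) := s₁.dn.2.1.continuousOn.continuousAt (s₁.dn.1.mem_nhds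
    ⟨mem_ball_self s₁.pos, mem_ball_self (pow_pos s₁.pos 2)⟩)
  have t' : Tr (H ∘ ψ₁) ψ₂ θ w₁ w₂ := ⟨t.diff, t.pt, by
    filter_upwards [t.eq, a.eventually (e₁ ▸ e)] with v h₁ h₂
    exact h₁.trans h₂.symm⟩
  have := mt_of_one (s₁.post c'.mapsTo c'.sub f) s₂ t' (m _ _ _ _ _ _ _ _ _ s₁ s₂ e₁ t)
  rwa [Function.comp_apply, e₁, f.2 b hb] at this

theorem mt_step (c : Br P A B F π) (c' : Br P A' B F π') (s : Sq A B F π φ ψ w r)
    (s' : Sq A' B F π' φ' ψ' w' r') (k : ∀ x ∈ ball w' r', ψ' (x, 0) ∈ ψ '' Pd w r (r ^ 2)) :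
    ∃ H, Fx B F H ∧ ∀ b ∈ F, (∃ x ∈ ball w' (r' / 2), ψ' (x, 0) = b) ∨ Mt P A' A B F π' π b →
      Mt P A' A B F (H ∘ π') π b := by
  obtain ⟨θ, o, cθ, eθ⟩ := par_tr s'.dn s.dn
  have p := s'.pos
  have q : 0 < r' ^ 2 := pow_pos p 2
  have mU : ∀ x ∈ ball w' r', ((x, 0) : P × ℂ) ∈ Pd w' r' (r' ^ 2) := fun x hx =>
    ⟨hx, mem_ball_self q⟩
  have nO := fun x hx => o.mem_nhds (mem_inter (mU x hx) (k x hx))
  have aθ := fun x hx => cθ.contDiffAt (nO x hx)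
  have mF : ∀ x ∈ ball w' r', ψ' (x, 0) ∈ F := fun x hx => (s'.mem _ (mU x hx)).2 rfl
  have t : ∀ x ∈ ball w' r', Tr ψ' ψ θ x (θ (x, 0)).1 := fun x hx => by
    obtain ⟨a, e⟩ := eθ _ ⟨mU x hx, k x hx⟩
    refine ⟨(aθ x hx).differentiableAt (by simp), Prod.ext rfl ((s.mem _ a).1 (e ▸ mF x hx)), ?_⟩
    filter_upwards [nO x hx] with v hv using (eθ v hv).2
  have sq : ∀ x ∈ ball w' r', ∃ ρ' ρ, Sq A' B F π' φ' ψ' x ρ' ∧
      Sq A B F π φ ψ (θ (x, 0)).1 ρ := fun x hx => by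
    obtain ⟨ρ', a⟩ := (s'.at hx).exists
    obtain ⟨ρ, a'⟩ := (s.at (eθ _ ⟨mU x hx, k x hx⟩).1.1).exists
    exact ⟨ρ', ρ, a, a'⟩
  have inj : ∀ x ∈ ball w' r', Function.Injective (nd θ x) := fun x hx => by
    obtain ⟨ρ', ρ, a, a'⟩ := sq x hx
    exact (t x hx).inj a a'
  have sm : ∀ x ∈ ball w' r', ∀ z, ContDiffAt ℝ ∞ (fun x => nd θ x z) x := fun x hx z =>
    ((((aθ x hx).fderiv_right (m := ∞) (by simp)).comp x
      (contDiffAt_id.prodMk contDiffAt_const)).clm_apply (contDiffAt_const (c := (0, z)))).snd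
  obtain ⟨μ, m, cμ, m1, bμ, zμ, eμ⟩ := ustep_cut (g := fun x => bel (nd θ x 1, nd θ x .I)) p
    (fun x hx => (bel_smooth (bel_det (inj x hx))).comp x ((sm x hx 1).prodMk (sm x hx .I)))
    fun x hx => bel_lt (bel_det (inj x hx))
  obtain ⟨E, E', d, eE, dE⟩ := exists_twist cμ m1 bμ (half_pos q)
  have cK := (isCompact_closedBall w' (3 * r' / 4)).prod
    (isCompact_closedBall (0 : ℂ) (r' ^ 2 / 2))
  have sK : closedBall w' (3 * r' / 4) ×ˢ closedBall (0 : ℂ) (r' ^ 2 / 2) ⊆ Pd w' r' (r' ^ 2) :=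
    prod_mono (closedBall_subset_ball (by linarith)) (closedBall_subset_ball (by linarith))
  obtain ⟨H, H', dH, eH, -, iH⟩ := s'.dn.push cK sK (d.dn ⊤) fun u hu => eE u (by
    rcases not_and_or.1 hu with a | a
    · exact .inl (zμ _ a)
    · exact .inr (.inl (le_of_lt (by simpa using a))))
  have f : Fx B F H := ⟨⟨H', dH.dif⟩, fun b hb => by
    by_contra a
    obtain ⟨u, hu, rfl⟩ := not_not.1 (mt (iH b) a)
    exact a (by rw [(eH u (sK hu)).2, eE u (.inr (.inr ((s'.mem u (sK hu)).1 hb)))])⟩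
  have key : ∀ x ∈ ball w' r', x ∈ ball w' (r' / 2) ∨ Mt P A' A B F π' π (ψ' (x, 0)) →
      Mt P A' A B F (H ∘ π') π (ψ' (x, 0)) := fun x hx a => by
    obtain ⟨ρ', ρ, s₁, s₂⟩ := sq x hx
    have e0 : E (x, 0) = (x, 0) := eE _ (.inr (.inr rfl))
    have cE : DifferentiableAt ℝ E (x, 0) :=
      (contDiffOn_univ.1 d.cF).contDiffAt.differentiableAt (by simp)
    have dθ : DifferentiableAt ℝ θ (E (x, 0)) := e0.symm ▸ (t x hx).diff
    have t' : Tr (H ∘ ψ') ψ (θ ∘ E) x (θ (x, 0)).1 := ⟨dθ.comp _ cE,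
      (congrArg θ e0).trans (t x hx).pt, by
        filter_upwards [s'.dn.1.mem_nhds (mU x hx),
          cE.continuousAt.eventually (e0.symm ▸ (t x hx).eq)] with v h₁ h₂
        exact h₂.trans (eH v h₁).2.symm⟩
    have e1 : μ x = bel (nd θ x 1, nd θ x .I) := eμ x (a.imp_right fun a =>
      bel_zero (inj x hx) (a _ _ _ _ _ _ _ _ _ s₁ s₂ rfl (t x hx)))
    have e2 : nd (θ ∘ E) x = nd θ x ∘L nd E x := by
      ext1 z
      simp [nd, fderiv_comp _ dθ cE, e0, dE]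
    have := mt_of_one (s₁.post c'.mapsTo c'.sub f) s₂ t'
      (e2 ▸ bel_conf (inj x hx) fun z => by simp [nd, dE, e1])
    rwa [Function.comp_apply, f.2 _ (mF x hx)] at this
  refine ⟨H, f, fun b hb a => ?_⟩
  rcases a with ⟨x, hx, rfl⟩ | a
  · exact key x (ball_subset_ball (by linarith) hx) (.inl hx)
  by_cases n : b ∈ ψ' '' (closedBall w' (3 * r' / 4) ×ˢ closedBall (0 : ℂ) (r' ^ 2 / 2))
  · obtain ⟨⟨x, z⟩, hu, rfl⟩ := n
    obtain rfl : z = 0 := (s'.mem _ (sK hu)).1 hb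
    exact key x (sK hu).1 (.inr a)
  · exact ustep_far c c' f hb (Filter.mem_of_superset
      ((cK.image_of_continuousOn (s'.dn.2.1.continuousOn.mono sK)).isClosed.isOpen_compl.mem_nhds
        n) iH) a

end Pool.Agent.Lib.MP_b2e238_gt
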